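import Mathlib

/-!
Transition kernels on a type with values in `ℝ≥0∞`: powers, hitting probabilities and the
recurrence criterion (infinite Green function).
-/

open Finset
open scoped ENNReal

namespace Pool.Agent.X142.Chain

variable {V : Type*}

open Classical in
/-- The `k`-step transition probabilities. -/
noncomputable def pw (P : V → V → ℝ≥0∞) : ℕ → V → V → ℝ≥0∞
  | 0, x, y => if x = y then 1 else 0
  | k + 1, x, y => ∑' z, P x z * pw P k z y

open Classical in
/-- `hitWithin P z n x`: the probability that the chain with transition matrix `P` started at `x`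
is at `z` at one of the times `0, 1, ..., n`. -/
noncomputable def hitWithin (P : V → V → ℝ≥0∞) (z : V) : ℕ → V → ℝ≥0∞
  | 0, x => if x = z then 1 else 0
  | n + 1, x => if x = z then 1 else ∑' y, P x y * hitWithin P z n y

/-- The chain with transition matrix `P` is recurrent: started at any state `x` it returns to `x`
with probability one. -/
def Recurrent (P : V → V → ℝ≥0∞) : Prop := ∀ x, ⨆ n, ∑' y, P x y * hitWithin P x n y = 1

section basics

variable (P : V → V → ℝ≥0∞)

lemma hitWithin_self (z : V) (n : ℕ) : hitWithin P z n z = 1 := by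
  cases n <;> simp [hitWithin]

lemma hitWithin_succ_of_ne {z x : V} (h : x ≠ z) (n : ℕ) :
    hitWithin P z (n + 1) x = ∑' y, P x y * hitWithin P z n y := by
  simp [hitWithin, h]

lemma hitWithin_mono_succ (z : V) (n : ℕ) : ∀ x, hitWithin P z n x ≤ hitWithin P z (n + 1) x := by
  induction n with
  | zero =>
    intro x
    by_cases h : x = z
    · rw [h, hitWithin_self, hitWithin_self]
    · simp [hitWithin, h]
  | succ n ih =>
    intro x
    by_cases h : x = z
    · rw [h, hitWithin_self, hitWithin_self]
    · rw [hitWithin_succ_of_ne P h, hitWithin_succ_of_ne P h]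
      exact ENNReal.tsum_le_tsum fun y => mul_le_mul_right (ih y) _

lemma hitWithin_mono (z x : V) : Monotone (fun n => hitWithin P z n x) :=
  monotone_nat_of_le_succ (fun n => hitWithin_mono_succ P z n x)

lemma hitWithin_le_one (hP : ∀ x, ∑' y, P x y ≤ 1) (z : V) (n : ℕ) :
    ∀ x, hitWithin P z n x ≤ 1 := by
  induction n with
  | zero =>
    intro x
    simp only [hitWithin]
    split_ifs <;> simp
  | succ n ih =>
    intro x
    by_cases h : x = z
    · rw [h, hitWithin_self]
    · rw [hitWithin_succ_of_ne P h]
      calc ∑' y, P x y * hitWithin P z n y ≤ ∑' y, P x y * 1 :=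
            ENNReal.tsum_le_tsum fun y => mul_le_mul_right (ih y) _
        _ ≤ 1 := by simpa using hP x

/-- Probability of ever hitting `z`. -/
noncomputable def hitProb (z x : V) : ℝ≥0∞ := ⨆ n, hitWithin P z n x

lemma hitProb_self (z : V) : hitProb P z z = 1 := by
  unfold hitProb
  simp [hitWithin_self]

lemma tsum_hitProb (z x : V) :
    ∑' y, P x y * hitProb P z y = ⨆ n, ∑' y, P x y * hitWithin P z n y := by
  have h : ∀ y, P x y * hitProb P z y = ⨆ n, P x y * hitWithin P z n y := by
    intro y
    unfold hitProb
    rw [ENNReal.mul_iSup]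
  simp only [h]
  rw [ENNReal.tsum_eq_iSup_sum]
  simp_rw [ENNReal.tsum_eq_iSup_sum (f := fun y => P x y * hitWithin P z _ y)]
  rw [iSup_comm]
  congr 1
  ext s
  rw [ENNReal.finsetSum_iSup_of_monotone]
  intro y a b hab
  exact mul_le_mul_right (hitWithin_mono P z y hab) _

lemma tsum_hitProb_of_ne {z x : V} (h : x ≠ z) :
    ∑' y, P x y * hitProb P z y = hitProb P z x := by
  rw [tsum_hitProb]
  have h1 : ∀ n, ∑' y, P x y * hitWithin P z n y = hitWithin P z (n + 1) x := fun n =>
    (hitWithin_succ_of_ne P h n).symm
  simp only [h1]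
  unfold hitProb
  apply le_antisymm
  · exact iSup_le fun n => le_iSup (fun n => hitWithin P z n x) (n + 1)
  · exact iSup_le fun n => (hitWithin_mono_succ P z n x).trans
      (le_iSup (fun n => hitWithin P z (n + 1) x) n)

/-- Expected number of visits to `z` up to time `K`. -/
noncomputable def green (z : V) (K : ℕ) (x : V) : ℝ≥0∞ := ∑ k ∈ range (K + 1), pw P k x z

lemma pw_succ (k : ℕ) (x y : V) : pw P (k + 1) x y = ∑' z, P x z * pw P k z y := rfl

lemma green_succ (z : V) (K : ℕ) (x : V) :
    green P z (K + 1) x = pw P 0 x z + ∑' y, P x y * green P z K y := by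
  unfold green
  rw [sum_range_succ', add_comm]
  congr 1
  simp only [pw_succ]
  rw [← Summable.tsum_finsetSum (fun _ _ => ENNReal.summable)]
  congr 1
  ext y
  rw [Finset.mul_sum]

lemma green_mono_succ (z : V) (K : ℕ) (x : V) : green P z K x ≤ green P z (K + 1) x := by
  unfold green
  rw [sum_range_succ _ (K + 1)]
  exact le_self_add

lemma green_le (z : V) (K : ℕ) : ∀ x, green P z K x ≤ hitProb P z x * green P z K z := by
  classical
  induction K with
  | zero =>
    intro x
    unfold green
    simp only [zero_add, range_one, sum_singleton, pw]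
    by_cases h : x = z
    · rw [if_pos h, h, hitProb_self]; simp
    · rw [if_neg h]; exact bot_le
  | succ K ih =>
    intro x
    by_cases h : x = z
    · rw [h, hitProb_self, one_mul]
    · rw [green_succ]
      have h0 : pw P 0 x z = 0 := by simp [pw, h]
      rw [h0, zero_add, ← tsum_hitProb_of_ne P h, ← ENNReal.tsum_mul_right]
      apply ENNReal.tsum_le_tsum
      intro y
      rw [mul_assoc]
      apply mul_le_mul_right
      exact (ih y).trans (mul_le_mul_right (green_mono_succ P z K z) _)

lemma pw_le_one (hP : ∀ x, ∑' y, P x y ≤ 1) (k : ℕ) : ∀ x y, pw P k x y ≤ 1 := by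
  classical
  induction k with
  | zero => intro x y; simp only [pw]; split_ifs <;> simp
  | succ k ih =>
    intro x y
    rw [pw_succ]
    calc ∑' z, P x z * pw P k z y ≤ ∑' z, P x z * 1 :=
          ENNReal.tsum_le_tsum fun z => mul_le_mul_right (ih z y) _
      _ ≤ 1 := by simpa using hP x

/-- If the Green function at `z` is infinite then the chain returns to `z` almost surely. -/
theorem return_of_green (hP : ∀ x, ∑' y, P x y ≤ 1) (z : V) (h : ∑' k, pw P k z z = ∞) :
    ⨆ n, ∑' y, P z y * hitWithin P z n y = 1 := by
  classical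
  rw [← tsum_hitProb]
  set ρ := ∑' y, P z y * hitProb P z y with hρ
  have hρ1 : ρ ≤ 1 := by
    calc ρ ≤ ∑' y, P z y * 1 := by
          apply ENNReal.tsum_le_tsum
          intro y
          apply mul_le_mul_right
          exact iSup_le fun n => hitWithin_le_one P hP z n y
      _ ≤ 1 := by simpa using hP z
  by_contra hne
  have hlt : ρ < 1 := lt_of_le_of_ne hρ1 hne
  have hfin : ∀ K, green P z K z ≠ ∞ := by
    intro K
    unfold green
    apply ENNReal.sum_ne_top.mpr
    intro k _
    exact ne_top_of_le_ne_top ENNReal.one_ne_top (pw_le_one P hP k z z)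
  have hbound : ∀ K, green P z K z ≤ (1 - ρ)⁻¹ := by
    intro K
    have h1 : green P z K z ≤ 1 + ρ * green P z K z := by
      calc green P z K z ≤ green P z (K + 1) z := green_mono_succ P z K z
        _ = 1 + ∑' y, P z y * green P z K y := by
            rw [green_succ]
            simp [pw]
        _ ≤ 1 + ρ * green P z K z := by
            apply add_le_add le_rfl
            rw [hρ, ← ENNReal.tsum_mul_right]
            apply ENNReal.tsum_le_tsum
            intro y
            rw [mul_assoc]
            exact mul_le_mul_right (green_le P z K y) _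
    have h2 : (1 - ρ) * green P z K z ≤ 1 := by
      rw [ENNReal.sub_mul (fun _ _ => hfin K), one_mul]
      exact tsub_le_iff_right.mpr h1
    rw [ENNReal.le_inv_iff_mul_le, mul_comm]
    exact h2
  have hle : ∑' k, pw P k z z ≤ (1 - ρ)⁻¹ := by
    rw [ENNReal.tsum_eq_iSup_nat]
    apply iSup_le
    intro n
    refine le_trans ?_ (hbound n)
    unfold green
    exact Finset.sum_le_sum_of_subset (range_subset_range.mpr (Nat.le_succ n))
  rw [h] at hle
  have : (1 - ρ)⁻¹ = ∞ := top_le_iff.mp hle
  rw [ENNReal.inv_eq_top, tsub_eq_zero_iff_le] at this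
  exact absurd (lt_of_lt_of_le hlt this) (lt_irrefl _)

end basics

end Pool.Agent.X142.Chain
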