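import Mathlib
import Pool.Agent.X142.Chain

/-!
Markov chains driven by i.i.d. noise: link between the path measure and the powers of the
transition matrix.
-/

open MeasureTheory ProbabilityTheory Finset
open scoped ENNReal

namespace Pool.Agent.X142.Noise

open X142.Chain

variable {S D : Type}

/-- The path started at `s` with noise `ξ`. -/
def path (step : S → D → S) (s : S) (ξ : ℕ → D) : ℕ → S
  | 0 => s
  | n + 1 => step (path step s ξ n) (ξ n)

lemma path_succ' (step : S → D → S) (s : S) (ξ : ℕ → D) (n : ℕ) :
    path step s ξ (n + 1) = path step (step s (ξ 0)) (fun k => ξ (k + 1)) n := by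
  induction n with
  | zero => rfl
  | succ n ih =>
    show step (path step s ξ (n + 1)) (ξ (n + 1)) = _
    rw [ih]
    rfl

/-- Put a new first value in front of a sequence. -/
def cons (p : D × (ℕ → D)) : ℕ → D
  | 0 => p.1
  | n + 1 => p.2 n

lemma path_cons (step : S → D → S) (s : S) (d : D) (ξ : ℕ → D) (n : ℕ) :
    path step s (cons (d, ξ)) (n + 1) = path step (step s d) ξ n := by
  rw [path_succ']
  rfl

/-- The transition matrix. -/
noncomputable def P (step : S → D → S) (ρ : PMF D) (s t : S) : ℝ≥0∞ := by
  classical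
  exact ∑' d, if step s d = t then ρ d else 0

lemma tsum_P (step : S → D → S) (ρ : PMF D) (s : S) (F : S → ℝ≥0∞) :
    ∑' t, P step ρ s t * F t = ∑' d, ρ d * F (step s d) := by
  classical
  unfold P
  simp only [← ENNReal.tsum_mul_right]
  rw [ENNReal.tsum_comm]
  congr 1
  ext d
  rw [tsum_eq_single (step s d)]
  · simp
  · intro t ht
    rw [if_neg ht.symm, zero_mul]

lemma tsum_P_le (step : S → D → S) (ρ : PMF D) (s : S) : ∑' t, P step ρ s t ≤ 1 := by
  have := tsum_P step ρ s (fun _ => 1)
  simp only [mul_one] at this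
  rw [this, ρ.tsum_coe]

variable [MeasurableSpace D] [DiscreteMeasurableSpace D] [Countable D]

/-- The law of an i.i.d. sequence with law `ρ`. -/
noncomputable def iid (ρ : PMF D) : Measure (ℕ → D) := Measure.infinitePi (fun _ : ℕ => ρ.toMeasure)

instance (ρ : PMF D) : IsProbabilityMeasure (iid ρ) := by
  unfold iid
  infer_instance

omit [DiscreteMeasurableSpace D] [Countable D] in
lemma measurable_cons : Measurable (cons : D × (ℕ → D) → (ℕ → D)) := by
  apply measurable_pi_lambda
  intro n
  cases n with
  | zero => exact measurable_fst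
  | succ n => exact (measurable_pi_apply n).comp measurable_snd

omit [Countable D] in
lemma map_cons [Countable D] (ρ : PMF D) :
    (ρ.toMeasure.prod (iid ρ)).map cons = iid ρ := by
  apply Measure.eq_infinitePi
  intro s t ht
  classical
  rw [Measure.map_apply measurable_cons (MeasurableSet.pi s.countable_toSet fun i _ => ht i)]
  set s' : Finset ℕ := (s.erase 0).image Nat.pred with hs'
  have hmem : ∀ i, i ∈ s' ↔ i + 1 ∈ s := by
    intro i
    rw [hs', mem_image]
    constructor
    · rintro ⟨a, ha, rfl⟩
      rw [mem_erase] at ha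
      rw [← Nat.succ_eq_add_one, Nat.succ_pred_eq_of_ne_zero ha.1]
      exact ha.2
    · intro hi
      exact ⟨i + 1, by rw [mem_erase]; exact ⟨by omega, hi⟩, rfl⟩
  have hpre : cons ⁻¹' (Set.pi (s : Set ℕ) t) =
      (if 0 ∈ s then t 0 else Set.univ) ×ˢ (Set.pi (s' : Set ℕ) (fun i => t (i + 1))) := by
    ext ⟨d, ξ⟩
    simp only [Set.mem_preimage, Set.mem_pi, Finset.mem_coe, Set.mem_prod]
    constructor
    · intro h
      refine ⟨?_, fun i hi => h (i + 1) ((hmem i).mp hi)⟩
      split_ifs with h0
      · exact h 0 h0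
      · trivial
    · rintro ⟨h0, h1⟩ i hi
      cases i with
      | zero => rw [if_pos hi] at h0; exact h0
      | succ i => exact h1 i ((hmem i).mpr hi)
  rw [hpre, Measure.prod_prod]
  unfold iid
  rw [Measure.infinitePi_pi _ (fun i _ => ht (i + 1))]
  have hprod : ∏ i ∈ s', ρ.toMeasure (t (i + 1)) = ∏ i ∈ s.erase 0, ρ.toMeasure (t i) := by
    rw [hs', prod_image]
    · apply prod_congr rfl
      intro i hi
      rw [mem_erase] at hi
      rw [← Nat.succ_eq_add_one, Nat.succ_pred_eq_of_ne_zero hi.1]
    · intro a ha b hb hab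
      rw [mem_coe, mem_erase] at ha hb
      have := ha.1
      have := hb.1
      simp only [Nat.pred_eq_sub_one] at hab
      omega
  rw [hprod]
  by_cases h0 : 0 ∈ s
  · rw [if_pos h0, mul_prod_erase s (fun i => ρ.toMeasure (t i)) h0]
  · rw [if_neg h0, measure_univ, one_mul, erase_eq_of_notMem h0]

/-- First step decomposition. -/
lemma iid_apply (ρ : PMF D) {A : Set (ℕ → D)} (hA : MeasurableSet A) :
    iid ρ A = ∑' d, ρ d * iid ρ {ξ | cons (d, ξ) ∈ A} := by
  conv_lhs => rw [← map_cons ρ]
  rw [Measure.map_apply measurable_cons hA, Measure.prod_apply (measurable_cons hA),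
    lintegral_countable']
  congr 1
  ext d
  rw [PMF.toMeasure_apply_singleton _ _ (measurableSet_singleton _), mul_comm]
  rfl

variable [MeasurableSpace S] [DiscreteMeasurableSpace S] [Countable S]

lemma measurable_path (step : S → D → S) (s : S) (n : ℕ) :
    Measurable (fun ξ : ℕ → D => path step s ξ n) := by
  induction n with
  | zero => exact measurable_const
  | succ n ih =>
    have h1 : Measurable (fun p : S × D => step p.1 p.2) := measurable_of_countable _
    exact h1.comp (ih.prodMk (measurable_pi_apply n))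

lemma measurableSet_path (step : S → D → S) (s t : S) (n : ℕ) :
    MeasurableSet {ξ : ℕ → D | path step s ξ n = t} :=
  measurable_path step s n (measurableSet_singleton t)

/-- The law of the path at time `n`. -/
theorem prob_at (step : S → D → S) (ρ : PMF D) (n : ℕ) (s t : S) :
    iid ρ {ξ | path step s ξ n = t} = pw (P step ρ) n s t := by
  classical
  induction n generalizing s with
  | zero =>
    simp only [path, pw]
    by_cases h : s = t
    · simp [h]
    · simp [h]
  | succ n ih =>
    rw [iid_apply ρ (measurableSet_path step s t (n + 1))]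
    simp only [pw]
    rw [tsum_P]
    congr 1
    ext d
    congr 1
    rw [← ih]
    congr 1
    ext ξ
    simp only [Set.mem_ofPred_eq]
    rw [path_cons]

lemma measurableSet_hit (step : S → D → S) (s t : S) (n : ℕ) :
    MeasurableSet {ξ : ℕ → D | ∃ k ≤ n, path step s ξ k = t} := by
  have : {ξ : ℕ → D | ∃ k ≤ n, path step s ξ k = t} =
      ⋃ k ∈ Set.Iic n, {ξ | path step s ξ k = t} := by
    ext ξ
    simp
  rw [this]
  exact MeasurableSet.biUnion (Set.to_countable _) fun k _ => measurableSet_path step s t k

/-- The probability to hit `z` within `n` steps. -/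
theorem prob_hit (step : S → D → S) (ρ : PMF D) (n : ℕ) (s z : S) :
    iid ρ {ξ | ∃ k ≤ n, path step s ξ k = z} = hitWithin (P step ρ) z n s := by
  classical
  by_cases h : s = z
  · subst h
    rw [hitWithin_self]
    have : {ξ : ℕ → D | ∃ k ≤ n, path step s ξ k = s} = Set.univ := by
      ext ξ
      simp only [Set.mem_ofPred_eq, Set.mem_univ, iff_true]
      exact ⟨0, Nat.zero_le _, rfl⟩
    rw [this, measure_univ]
  · induction n generalizing s with
    | zero =>
      have : {ξ : ℕ → D | ∃ k ≤ 0, path step s ξ k = z} = ∅ := by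
        ext ξ
        simp only [Set.mem_ofPred_eq, Set.mem_empty_iff_false, iff_false]
        rintro ⟨k, hk, h2⟩
        rw [Nat.le_zero.mp hk] at h2
        exact h h2
      rw [this, measure_empty]
      simp [hitWithin, h]
    | succ n ih =>
      rw [iid_apply ρ (measurableSet_hit step s z (n + 1)), hitWithin_succ_of_ne _ h, tsum_P]
      congr 1
      ext d
      congr 1
      have e : {ξ : ℕ → D | cons (d, ξ) ∈ {ξ | ∃ k ≤ n + 1, path step s ξ k = z}} =
          {ξ | ∃ k ≤ n, path step (step s d) ξ k = z} := by
        ext ξ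
        simp only [Set.mem_ofPred_eq]
        constructor
        · rintro ⟨k, hk, h2⟩
          cases k with
          | zero => exact absurd h2 h
          | succ k => exact ⟨k, by omega, by rw [← path_cons]; exact h2⟩
        · rintro ⟨k, hk, h2⟩
          exact ⟨k + 1, by omega, by rw [path_cons]; exact h2⟩
      rw [e]
      by_cases h3 : step s d = z
      · rw [h3, hitWithin_self]
        have : {ξ : ℕ → D | ∃ k ≤ n, path step z ξ k = z} = Set.univ := by
          ext ξ
          simp only [Set.mem_ofPred_eq, Set.mem_univ, iff_true]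
          exact ⟨0, Nat.zero_le _, rfl⟩
        rw [this, measure_univ]
      · exact ih _ h3

/-- If the Green function is infinite, the path returns almost surely. -/
theorem ae_return (step : S → D → S) (ρ : PMF D) (z : S)
    (h : ∑' k, pw (P step ρ) k z z = ∞) :
    ∀ᵐ ξ ∂(iid ρ), ∃ n, 0 < n ∧ path step z ξ n = z := by
  have hm : MeasurableSet {ξ : ℕ → D | ∃ n, 0 < n ∧ path step z ξ n = z} := by
    have : {ξ : ℕ → D | ∃ n, 0 < n ∧ path step z ξ n = z} =
        ⋃ k ∈ Set.Ioi 0, {ξ | path step z ξ k = z} := by
      ext ξ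
      simp
    rw [this]
    exact MeasurableSet.biUnion (Set.to_countable _) fun k _ => measurableSet_path step z z k
  have h1 : iid ρ {ξ : ℕ → D | ∃ n, 0 < n ∧ path step z ξ n = z} = 1 := by
    rw [iid_apply ρ hm, ← return_of_green _ (tsum_P_le step ρ) z h, ← tsum_hitProb, tsum_P]
    congr 1
    ext d
    congr 1
    unfold hitProb
    simp only [← prob_hit]
    have hmono : Monotone (fun n => {ξ : ℕ → D | ∃ k ≤ n, path step (step z d) ξ k = z}) := by
      intro a b hab ξ
      rintro ⟨k, hk, h2⟩
      exact ⟨k, hk.trans hab, h2⟩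
    rw [← hmono.measure_iUnion]
    congr 1
    ext ξ
    simp only [Set.mem_ofPred_eq, Set.mem_iUnion]
    constructor
    · rintro ⟨n, hn, h2⟩
      obtain ⟨m, rfl⟩ : ∃ m, n = m + 1 := ⟨n - 1, by omega⟩
      exact ⟨m, m, le_rfl, by rw [← path_cons]; exact h2⟩
    · rintro ⟨n, k, hk, h2⟩
      exact ⟨k + 1, by omega, by rw [path_cons]; exact h2⟩
  rw [← prob_compl_eq_zero_iff hm] at h1
  exact h1

/-- If the Green function is finite, the path visits its starting point only finitely often. -/
theorem ae_finite (step : S → D → S) (ρ : PMF D) (z : S)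
    (h : ∑' k, pw (P step ρ) k z z ≠ ∞) :
    ∀ᵐ ξ ∂(iid ρ), {n | path step z ξ n = z}.Finite := by
  have h1 : iid ρ {ξ | ∃ᶠ n in Filter.atTop, path step z ξ n = z} = 0 := by
    apply measure_setOfPred_frequently_eq_zero
    simp only [prob_at]
    exact h
  have h2 : ∀ᵐ ξ ∂(iid ρ), ¬ ∃ᶠ n in Filter.atTop, path step z ξ n = z := by
    rw [ae_iff]
    simp only [not_not]
    exact h1
  filter_upwards [h2] with ξ hξ
  rw [Nat.frequently_atTop_iff_infinite] at hξ
  exact Set.not_infinite.mp hξ

end Pool.Agent.X142.Noise
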