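import Mathlib
import Pool.Agent.X142.Noise

/-!
Two-dimensional discrete point processes, the random walk on them, and the layered point processes
with gap sequence `i ↦ g (z + i)`, `z` a 2-adic integer.
-/

open MeasureTheory ProbabilityTheory Finset
open scoped ENNReal

namespace Pool.Agent.X142.PP

/-- The space `{0,1}^{ℤ²}` of configurations. -/
abbrev Om : Type := ℤ × ℤ → Bool

/-- The shift `θ_x`. -/
def shift (x : ℤ × ℤ) (ω : Om) : Om := fun y => ω (x + y)

/-- `Q` is a two-dimensional discrete point process: stationary and ergodic under each of the two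
coordinate shifts, and not almost surely empty. -/
structure IsPointProcess (Q : Measure Om) : Prop where
  prob : IsProbabilityMeasure Q
  ergodic₁ : Ergodic (shift (1, 0)) Q
  ergodic₂ : Ergodic (shift (0, 1)) Q
  nonempty : Q {ω | ∀ x, ω x = false} < 1

/-- The event that the origin is a point of the configuration. -/
def Om0 : Set Om := {ω | ω 0 = true}

/-- The distance `f_e` from the origin to the nearest point in direction `e`. -/
noncomputable def gap (e : ℤ × ℤ) (ω : Om) : ℕ := sInf {k : ℕ | 0 < k ∧ ω ((k : ℤ) • e) = true}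

/-- The four coordinate directions. -/
def dir : Fin 4 → ℤ × ℤ := ![(1, 0), (-1, 0), (0, 1), (0, -1)]

/-- From `v` jump to the nearest point in the direction number `d`. -/
noncomputable def jump (ω : Om) (v : ℤ × ℤ) (d : Fin 4) : ℤ × ℤ :=
  v + (gap (dir d) (shift v ω) : ℤ) • dir d

/-- The law of i.i.d. uniform directions. -/
noncomputable def directions : Measure (ℕ → Fin 4) := Noise.iid (PMF.uniformOfFintype (Fin 4))

/-- The walk on the points of `ω` started at the origin, when the successive directions are `ξ`. -/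
noncomputable def walk (ω : Om) (ξ : ℕ → Fin 4) : ℕ → ℤ × ℤ
  | 0 => 0
  | n + 1 => jump ω (walk ω ξ n) (ξ n)

/-- The annealed law of the configuration and the directions. -/
noncomputable def annealed (Q : Measure Om) : Measure (Om × (ℕ → Fin 4)) :=
  (Q[|Om0]).prod directions

/-- The walk is recurrent: it returns to the origin almost surely. -/
def IsRecurrent (Q : Measure Om) : Prop :=
  ∀ᵐ p ∂(annealed Q), ∃ n, 0 < n ∧ walk p.1 p.2 n = 0

/-- The walk is almost surely transient. -/
def IsTransient (Q : Measure Om) : Prop :=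
  ∀ᵐ p ∂(annealed Q), {n | walk p.1 p.2 n = 0}.Finite

instance : IsProbabilityMeasure directions := by unfold directions; infer_instance

section measurability

lemma measurableSet_eval (x : ℤ × ℤ) (b : Bool) : MeasurableSet {ω : Om | ω x = b} := by
  have : Measurable (fun ω : Om => ω x) := measurable_pi_apply x
  exact this (measurableSet_singleton b)

lemma measurable_gap (e : ℤ × ℤ) : Measurable (gap e) := by
  apply measurable_to_countable'
  intro m
  rcases Nat.eq_zero_or_pos m with rfl | hm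
  · have : gap e ⁻¹' {0} = ⋂ k : ℕ, ({ω : Om | 0 < k → ω ((k : ℤ) • e) = false} : Set Om) := by
      ext ω
      simp only [Set.mem_preimage, Set.mem_singleton_iff, Set.mem_iInter, Set.mem_ofPred_eq, gap]
      rw [Nat.sInf_eq_zero]
      constructor
      · rintro (h | h) k hk
        · exact absurd h.1 (lt_irrefl _)
        · by_contra hne
          rw [Bool.not_eq_false] at hne
          have : k ∈ {k : ℕ | 0 < k ∧ ω ((k : ℤ) • e) = true} := ⟨hk, hne⟩
          rw [h] at this
          exact this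
      · intro h
        right
        rw [Set.eq_empty_iff_forall_notMem]
        rintro k ⟨hk, h2⟩
        rw [h k hk] at h2
        exact absurd h2 (by simp)
    rw [this]
    apply MeasurableSet.iInter
    intro k
    by_cases hk : 0 < k
    · simp only [hk, true_implies]
      exact measurableSet_eval _ _
    · simp only [hk, false_implies]
      exact MeasurableSet.univ
  · have : gap e ⁻¹' {m} = {ω : Om | ω ((m : ℤ) • e) = true} ∩
        ⋂ k : ℕ, ({ω : Om | 0 < k ∧ k < m → ω ((k : ℤ) • e) = false} : Set Om) := by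
      ext ω
      simp only [Set.mem_preimage, Set.mem_singleton_iff, Set.mem_iInter, Set.mem_ofPred_eq,
        Set.mem_inter_iff]
      constructor
      · intro h
        have hne : {k : ℕ | 0 < k ∧ ω ((k : ℤ) • e) = true}.Nonempty := by
          by_contra hcon
          rw [Set.not_nonempty_iff_eq_empty] at hcon
          unfold gap at h
          rw [hcon, Nat.sInf_empty] at h
          omega
        have hmem := Nat.sInf_mem hne
        have hs : sInf {k : ℕ | 0 < k ∧ ω ((k : ℤ) • e) = true} = m := h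
        rw [hs] at hmem
        refine ⟨hmem.2, fun k hk => ?_⟩
        by_contra hcon
        rw [Bool.not_eq_false] at hcon
        have := Nat.sInf_le (s := {k : ℕ | 0 < k ∧ ω ((k : ℤ) • e) = true}) ⟨hk.1, hcon⟩
        omega
      · rintro ⟨h1, h2⟩
        unfold gap
        have hm' : m ∈ {k : ℕ | 0 < k ∧ ω ((k : ℤ) • e) = true} := ⟨hm, h1⟩
        apply le_antisymm
        · exact Nat.sInf_le hm'
        · apply le_csInf ⟨_, hm'⟩
          rintro k ⟨hk, hk2⟩
          by_contra hcon
          push Not at hcon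
          rw [h2 k ⟨hk, hcon⟩] at hk2
          exact absurd hk2 (by simp)
    rw [this]
    apply (measurableSet_eval _ _).inter
    apply MeasurableSet.iInter
    intro k
    by_cases hk : 0 < k ∧ k < m
    · simp only [hk, true_implies, and_self]
      exact measurableSet_eval _ _
    · simp only [hk, false_implies]
      exact MeasurableSet.univ

lemma measurable_jump (v : ℤ × ℤ) (d : Fin 4) : Measurable (fun ω => jump ω v d) := by
  have h1 : Measurable (fun ω : Om => gap (dir d) (shift v ω)) :=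
    (measurable_gap _).comp (measurable_pi_lambda _ fun y => measurable_pi_apply (v + y))
  exact (measurable_of_countable (fun k : ℕ => v + (k : ℤ) • dir d)).comp h1

lemma measurable_walk (n : ℕ) :
    Measurable (fun p : Om × (ℕ → Fin 4) => walk p.1 p.2 n) := by
  induction n with
  | zero => exact measurable_const
  | succ n ih =>
    have h1 : Measurable (fun q : Om × ((ℤ × ℤ) × Fin 4) => jump q.1 q.2.1 q.2.2) :=
      measurable_from_prod_countable_left fun q => measurable_jump q.1 q.2
    exact h1.comp (measurable_fst.prodMk (ih.prodMk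
      ((measurable_pi_apply n).comp measurable_snd)))

lemma measurableSet_return :
    MeasurableSet {p : Om × (ℕ → Fin 4) | ∃ n, 0 < n ∧ walk p.1 p.2 n = 0} := by
  have : {p : Om × (ℕ → Fin 4) | ∃ n, 0 < n ∧ walk p.1 p.2 n = 0} =
      ⋃ n ∈ Set.Ioi 0, {p | walk p.1 p.2 n = 0} := by
    ext p; simp
  rw [this]
  exact MeasurableSet.biUnion (Set.to_countable _) fun n _ =>
    measurable_walk n (measurableSet_singleton 0)

lemma measurableSet_finite :
    MeasurableSet {p : Om × (ℕ → Fin 4) | {n | walk p.1 p.2 n = 0}.Finite} := by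
  have : {p : Om × (ℕ → Fin 4) | {n | walk p.1 p.2 n = 0}.Finite} =
      ⋃ N : ℕ, ⋂ n : ℕ, {p | N ≤ n → walk p.1 p.2 n ≠ 0} := by
    ext p
    simp only [Set.mem_ofPred_eq, Set.mem_iUnion, Set.mem_iInter]
    constructor
    · intro h
      obtain ⟨N, hN⟩ := h.bddAbove
      exact ⟨N + 1, fun n hn h2 => by have := hN h2; omega⟩
    · rintro ⟨N, hN⟩
      apply (Set.finite_Iio N).subset
      intro n hn
      by_contra hcon
      exact hN n (not_lt.mp hcon) hn
  rw [this]
  apply MeasurableSet.iUnion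
  intro N
  apply MeasurableSet.iInter
  intro n
  by_cases h : N ≤ n
  · simp only [h, true_implies]
    exact (measurable_walk n (measurableSet_singleton 0)).compl
  · simp only [h, false_implies]
    exact MeasurableSet.univ

end measurability

lemma walk_eq (ω : Om) (ξ : ℕ → Fin 4) (n : ℕ) : walk ω ξ n = Noise.path (jump ω) 0 ξ n := by
  induction n with
  | zero => rfl
  | succ n ih =>
    show jump ω (walk ω ξ n) (ξ n) = jump ω (Noise.path (jump ω) 0 ξ n) (ξ n)
    rw [ih]

section positions

/-- Two-sided partial sums. -/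
def pos (h : ℤ → ℕ) : ℤ → ℤ
  | Int.ofNat n => ∑ k ∈ range n, (h k : ℤ)
  | Int.negSucc n => -∑ k ∈ range (n + 1), (h (-1 - (k : ℤ)) : ℤ)

lemma pos_zero (h : ℤ → ℕ) : pos h 0 = 0 := by
  show ∑ k ∈ range 0, (h k : ℤ) = 0
  simp

lemma pos_succ (h : ℤ → ℕ) (i : ℤ) : pos h (i + 1) = pos h i + h i := by
  rcases i with n | n
  · show pos h (Int.ofNat (n + 1)) = _
    simp only [pos, sum_range_succ]
    rfl
  · cases n with
    | zero =>
      show pos h 0 = pos h (Int.negSucc 0) + h (Int.negSucc 0)
      rw [pos_zero]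
      simp [pos]
    | succ n =>
      have e : Int.negSucc (n + 1) + 1 = Int.negSucc n := by omega
      rw [e]
      simp only [pos]
      rw [sum_range_succ _ (n + 1)]
      have e2 : (-1 - ((n + 1 : ℕ) : ℤ)) = Int.negSucc (n + 1) := by omega
      rw [e2]
      ring

lemma pos_unique {h : ℤ → ℕ} {F : ℤ → ℤ} (h0 : F 0 = 0) (hs : ∀ i, F (i + 1) = F i + h i) (i : ℤ) :
    F i = pos h i := by
  induction i using Int.induction_on with
  | zero => rw [h0, pos_zero]
  | succ n ih => rw [hs, pos_succ, ih]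
  | pred n ih =>
    have h1 := hs (-(n : ℤ) - 1)
    have h2 := pos_succ h (-(n : ℤ) - 1)
    rw [sub_add_cancel] at h1 h2
    linarith

lemma pos_shift (h : ℤ → ℕ) (i : ℤ) : pos (fun j => h (j + 1)) i = pos h (i + 1) - h 0 := by
  symm
  apply pos_unique (h := fun j => h (j + 1)) (F := fun i => pos h (i + 1) - h 0)
  · rw [pos_succ, pos_zero]; ring
  · intro i
    rw [pos_succ h (i + 1)]
    ring

variable {h : ℤ → ℕ} (hh : ∀ i, 1 ≤ h i)

include hh

lemma pos_strictMono : StrictMono (pos h) := by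
  apply strictMono_int_of_lt_succ
  intro i
  rw [pos_succ]
  have := hh i
  omega

end positions

section layers

/-- The layers. -/
def pts (h : ℤ → ℕ) : Set ℤ := Set.range (pos h)

/-- The configuration of all `x` with `x₁ + x₂ + k` in a layer. -/
noncomputable def env (h : ℤ → ℕ) (k : ℕ) : Om := by
  classical
  exact fun x => decide (x.1 + x.2 + (k : ℤ) ∈ pts h)

lemma env_apply (h : ℤ → ℕ) (k : ℕ) (x : ℤ × ℤ) :
    env h k x = true ↔ x.1 + x.2 + (k : ℤ) ∈ pts h := by
  unfold env
  simp

lemma env_ext {h h' : ℤ → ℕ} {k k' : ℕ} (H : ∀ s : ℤ, s + k ∈ pts h ↔ s + k' ∈ pts h') :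
    env h k = env h' k' := by
  funext x
  rw [Bool.eq_iff_iff, env_apply, env_apply]
  exact H _

lemma shift_env₁ (h : ℤ → ℕ) (k : ℕ) : shift (1, 0) (env h k) = env h (k + 1) := by
  funext x
  rw [Bool.eq_iff_iff, env_apply]
  show env h k ((1, 0) + x) = true ↔ _
  rw [env_apply]
  simp only [Prod.fst_add, Prod.snd_add]
  push_cast
  rw [show 1 + x.1 + (0 + x.2) + (k : ℤ) = x.1 + x.2 + (k + 1) by ring]

lemma shift_env₂ (h : ℤ → ℕ) (k : ℕ) : shift (0, 1) (env h k) = env h (k + 1) := by
  funext x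
  rw [Bool.eq_iff_iff, env_apply]
  show env h k ((0, 1) + x) = true ↔ _
  rw [env_apply]
  simp only [Prod.fst_add, Prod.snd_add]
  push_cast
  rw [show 0 + x.1 + (1 + x.2) + (k : ℤ) = x.1 + x.2 + (k + 1) by ring]

lemma env_next (h : ℤ → ℕ) : env (fun j => h (j + 1)) 0 = env h (h 0) := by
  apply env_ext
  intro s
  simp only [Nat.cast_zero, add_zero, pts, Set.mem_range]
  constructor
  · rintro ⟨i, hi⟩
    exact ⟨i + 1, by rw [pos_shift] at hi; omega⟩
  · rintro ⟨i, hi⟩
    refine ⟨i - 1, ?_⟩
    rw [pos_shift, sub_add_cancel]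
    omega

variable {h : ℤ → ℕ} (hh : ∀ i, 1 ≤ h i)

include hh

lemma mem_pts_small {k : ℕ} (hk : k < h 0) (hm : (k : ℤ) ∈ pts h) : k = 0 := by
  obtain ⟨i, hi⟩ := hm
  have hmono := pos_strictMono hh
  have h1 : pos h i < pos h 1 := by
    have := pos_succ h 0
    rw [zero_add, pos_zero, zero_add] at this
    rw [this, hi]
    exact_mod_cast hk
  have h2 : i < 1 := hmono.lt_iff_lt.mp h1
  have h3 : pos h 0 ≤ pos h i := by rw [pos_zero, hi]; positivity
  have h4 : 0 ≤ i := hmono.le_iff_le.mp h3
  have h5 : i = 0 := by omega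
  rw [h5, pos_zero] at hi
  exact_mod_cast hi.symm

lemma sInf_right (i : ℤ) : sInf {k : ℕ | 0 < k ∧ pos h i + (k : ℤ) ∈ pts h} = h i := by
  have hmono := pos_strictMono hh
  have hm : h i ∈ {k : ℕ | 0 < k ∧ pos h i + (k : ℤ) ∈ pts h} := ⟨hh i, i + 1, pos_succ h i⟩
  apply le_antisymm
  · exact Nat.sInf_le hm
  · apply le_csInf ⟨_, hm⟩
    rintro k ⟨hk, j, hj⟩
    have h1 : pos h i < pos h j := by rw [hj]; omega
    have h2 : i + 1 ≤ j := hmono.lt_iff_lt.mp h1
    have h3 : pos h (i + 1) ≤ pos h j := hmono.monotone h2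
    rw [pos_succ, hj] at h3
    omega

lemma sInf_left (i : ℤ) : sInf {k : ℕ | 0 < k ∧ pos h i - (k : ℤ) ∈ pts h} = h (i - 1) := by
  have hmono := pos_strictMono hh
  have hp := pos_succ h (i - 1)
  rw [sub_add_cancel] at hp
  have hm : h (i - 1) ∈ {k : ℕ | 0 < k ∧ pos h i - (k : ℤ) ∈ pts h} :=
    ⟨hh (i - 1), i - 1, by omega⟩
  apply le_antisymm
  · exact Nat.sInf_le hm
  · apply le_csInf ⟨_, hm⟩
    rintro k ⟨hk, j, hj⟩
    have h1 : pos h j < pos h i := by rw [hj]; omega
    have h2 : j ≤ i - 1 := by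
      have := hmono.lt_iff_lt.mp h1
      omega
    have h3 : pos h j ≤ pos h (i - 1) := hmono.monotone h2
    omega

/-- The step of the model chain on pairs (index of the layer, difference of the coordinates). -/
def stepM (h : ℤ → ℕ) (s : ℤ × ℤ) (d : Fin 4) : ℤ × ℤ :=
  match d with
  | 0 => (s.1 + 1, s.2 + h s.1)
  | 1 => (s.1 - 1, s.2 - h (s.1 - 1))
  | 2 => (s.1 + 1, s.2 - h s.1)
  | 3 => (s.1 - 1, s.2 + h (s.1 - 1))

/-- The point `v` corresponds to the state `s` of the model chain. -/
def Rel (h : ℤ → ℕ) (v s : ℤ × ℤ) : Prop := v.1 + v.2 = pos h s.1 ∧ v.1 - v.2 = s.2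

lemma rel_step {v s : ℤ × ℤ} (hr : Rel h v s) (d : Fin 4) :
    Rel h (jump (env h 0) v d) (stepM h s d) := by
  obtain ⟨h1, h2⟩ := hr
  have hp := pos_succ h (s.1 - 1)
  rw [sub_add_cancel] at hp
  fin_cases d
  · have hg : gap (dir 0) (shift v (env h 0)) = h s.1 := by
      rw [← sInf_right hh s.1]
      unfold gap
      congr 1
      ext k
      simp only [Set.mem_ofPred_eq]
      show (0 < k ∧ env h 0 (v + (k : ℤ) • ((1 : ℤ), (0 : ℤ))) = true) ↔ _
      rw [env_apply]
      simp only [Prod.fst_add, Prod.snd_add, Prod.smul_mk, smul_eq_mul, mul_one, mul_zero,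
        add_zero, Nat.cast_zero]
      rw [show v.1 + (k : ℤ) + v.2 = pos h s.1 + k by omega]
    show Rel h (v + (gap (dir 0) (shift v (env h 0)) : ℤ) • ((1 : ℤ), (0 : ℤ))) _
    rw [hg]
    constructor
    · show v.1 + (h s.1 : ℤ) * 1 + (v.2 + (h s.1 : ℤ) * 0) = pos h (s.1 + 1)
      rw [pos_succ]; linarith
    · show v.1 + (h s.1 : ℤ) * 1 - (v.2 + (h s.1 : ℤ) * 0) = s.2 + h s.1
      linarith
  · have hg : gap (dir 1) (shift v (env h 0)) = h (s.1 - 1) := by
      rw [← sInf_left hh s.1]
      unfold gap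
      congr 1
      ext k
      simp only [Set.mem_ofPred_eq]
      show (0 < k ∧ env h 0 (v + (k : ℤ) • ((-1 : ℤ), (0 : ℤ))) = true) ↔ _
      rw [env_apply]
      simp only [Prod.fst_add, Prod.snd_add, Prod.smul_mk, smul_eq_mul, mul_neg, mul_one, mul_zero,
        add_zero, Nat.cast_zero]
      rw [show v.1 + -(k : ℤ) + v.2 = pos h s.1 - k by omega]
    show Rel h (v + (gap (dir 1) (shift v (env h 0)) : ℤ) • ((-1 : ℤ), (0 : ℤ))) _
    rw [hg]
    constructor
    · show v.1 + (h (s.1 - 1) : ℤ) * -1 + (v.2 + (h (s.1 - 1) : ℤ) * 0) = pos h (s.1 - 1)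
      linarith
    · show v.1 + (h (s.1 - 1) : ℤ) * -1 - (v.2 + (h (s.1 - 1) : ℤ) * 0) = s.2 - h (s.1 - 1)
      linarith
  · have hg : gap (dir 2) (shift v (env h 0)) = h s.1 := by
      rw [← sInf_right hh s.1]
      unfold gap
      congr 1
      ext k
      simp only [Set.mem_ofPred_eq]
      show (0 < k ∧ env h 0 (v + (k : ℤ) • ((0 : ℤ), (1 : ℤ))) = true) ↔ _
      rw [env_apply]
      simp only [Prod.fst_add, Prod.snd_add, Prod.smul_mk, smul_eq_mul, mul_one, mul_zero,
        add_zero, Nat.cast_zero]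
      rw [show v.1 + (v.2 + (k : ℤ)) = pos h s.1 + k by omega]
    show Rel h (v + (gap (dir 2) (shift v (env h 0)) : ℤ) • ((0 : ℤ), (1 : ℤ))) _
    rw [hg]
    constructor
    · show v.1 + (h s.1 : ℤ) * 0 + (v.2 + (h s.1 : ℤ) * 1) = pos h (s.1 + 1)
      rw [pos_succ]; linarith
    · show v.1 + (h s.1 : ℤ) * 0 - (v.2 + (h s.1 : ℤ) * 1) = s.2 - h s.1
      linarith
  · have hg : gap (dir 3) (shift v (env h 0)) = h (s.1 - 1) := by
      rw [← sInf_left hh s.1]
      unfold gap
      congr 1
      ext k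
      simp only [Set.mem_ofPred_eq]
      show (0 < k ∧ env h 0 (v + (k : ℤ) • ((0 : ℤ), (-1 : ℤ))) = true) ↔ _
      rw [env_apply]
      simp only [Prod.fst_add, Prod.snd_add, Prod.smul_mk, smul_eq_mul, mul_neg, mul_one, mul_zero,
        add_zero, Nat.cast_zero]
      rw [show v.1 + (v.2 + -(k : ℤ)) = pos h s.1 - k by omega]
    show Rel h (v + (gap (dir 3) (shift v (env h 0)) : ℤ) • ((0 : ℤ), (-1 : ℤ))) _
    rw [hg]
    constructor
    · show v.1 + (h (s.1 - 1) : ℤ) * 0 + (v.2 + (h (s.1 - 1) : ℤ) * -1) = pos h (s.1 - 1)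
      linarith
    · show v.1 + (h (s.1 - 1) : ℤ) * 0 - (v.2 + (h (s.1 - 1) : ℤ) * -1) = s.2 + h (s.1 - 1)
      linarith

lemma rel_path (ξ : ℕ → Fin 4) (n : ℕ) :
    Rel h (walk (env h 0) ξ n) (Noise.path (stepM h) (0, 0) ξ n) := by
  induction n with
  | zero =>
    constructor
    · show (0 : ℤ) + 0 = pos h 0
      rw [pos_zero, add_zero]
    · show (0 : ℤ) - 0 = 0
      ring
  | succ n ih => exact rel_step hh ih (ξ n)

lemma walk_zero_iff (ξ : ℕ → Fin 4) (n : ℕ) :
    walk (env h 0) ξ n = 0 ↔ Noise.path (stepM h) (0, 0) ξ n = (0, 0) := by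
  obtain ⟨h1, h2⟩ := rel_path hh ξ n
  constructor
  · intro h3
    rw [h3] at h1 h2
    simp only [Prod.fst_zero, Prod.snd_zero, add_zero, sub_zero] at h1 h2
    have h4 : (Noise.path (stepM h) (0, 0) ξ n).1 = 0 := by
      apply (pos_strictMono hh).injective
      rw [pos_zero, ← h1]
    exact Prod.ext h4 h2.symm
  · intro h3
    rw [h3] at h1 h2
    rw [pos_zero] at h1
    have e1 : (walk (env h 0) ξ n).1 = 0 := by simp only at h1 h2; omega
    have e2 : (walk (env h 0) ξ n).2 = 0 := by simp only at h1 h2; omega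
    exact Prod.ext e1 e2

/-- If the Green function of the model chain is finite, the walk is transient. -/
theorem transient_of_green
    (hG : ∑' k, Chain.pw (Noise.P (stepM h) (PMF.uniformOfFintype (Fin 4))) k (0, 0) (0, 0) ≠ ∞) :
    ∀ᵐ ξ ∂directions, {n | walk (env h 0) ξ n = 0}.Finite := by
  have := Noise.ae_finite (stepM h) (PMF.uniformOfFintype (Fin 4)) (0, 0) hG
  filter_upwards [this] with ξ hξ
  simp only [walk_zero_iff hh]
  exact hξ

/-- If the Green function of the model chain is infinite, the walk returns. -/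
theorem return_of_green
    (hG : ∑' k, Chain.pw (Noise.P (stepM h) (PMF.uniformOfFintype (Fin 4))) k (0, 0) (0, 0) = ∞) :
    ∀ᵐ ξ ∂directions, ∃ n, 0 < n ∧ walk (env h 0) ξ n = 0 := by
  have := Noise.ae_return (stepM h) (PMF.uniformOfFintype (Fin 4)) (0, 0) hG
  filter_upwards [this] with ξ hξ
  simp only [walk_zero_iff hh]
  exact hξ

end layers

end Pool.Agent.X142.PP
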