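import Mathlib
import Pool.Agent.X142.PP

/-!
The layered point process whose gap sequence is `i ↦ g (z + i)` for a random 2-adic integer `z`.
-/

open MeasureTheory ProbabilityTheory Finset
open scoped ENNReal

namespace Pool.Agent.X142.Tower

open X142.PP

noncomputable instance : MeasurableSpace ℤ_[2] := borel _
instance : BorelSpace ℤ_[2] := ⟨rfl⟩

/-- The Haar probability measure on the 2-adic integers. -/
noncomputable def nu : Measure ℤ_[2] :=
  Measure.addHaarMeasure (⊤ : TopologicalSpace.PositiveCompacts ℤ_[2])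

instance : IsProbabilityMeasure nu := ⟨by
  have := Measure.addHaarMeasure_self (K₀ := (⊤ : TopologicalSpace.PositiveCompacts ℤ_[2]))
  simpa [nu] using this⟩

instance : nu.InnerRegular := by unfold nu; infer_instance

instance : nu.IsAddLeftInvariant := by unfold nu; infer_instance

lemma ergodic_add_one : Ergodic (fun z : ℤ_[2] => z + 1) nu := by
  have h : DenseRange (fun n : ℤ => n • (1 : ℤ_[2])) := by
    simp only [zsmul_one]
    exact PadicInt.denseRange_intCast
  have := ergodic_add_left_of_denseRange_zsmul h nu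
  simpa only [add_comm] using this

lemma map_add_right (a : ℤ_[2]) : MeasurePreserving (fun z : ℤ_[2] => z + a) nu nu := by
  have := measurePreserving_add_left nu a
  simpa only [add_comm] using this

/-- The 2-adic integers divisible by `2^n`. -/
def W (n : ℕ) : Set ℤ_[2] := {z | PadicInt.toZModPow n z = 0}

lemma W_eq (n : ℕ) : W n = {z | ‖z‖ ≤ (2 : ℝ) ^ (-n : ℤ)} := by
  ext z
  simp only [W, Set.mem_ofPred_eq]
  rw [← RingHom.mem_ker, PadicInt.ker_toZModPow]
  have := PadicInt.norm_le_pow_iff_mem_span_pow (p := 2) z n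
  exact_mod_cast this.symm

lemma measurableSet_W (n : ℕ) : MeasurableSet (W n) := by
  rw [W_eq]
  exact (isClosed_le continuous_norm continuous_const).measurableSet

lemma toZModPow_val (n : ℕ) (a : ZMod (2 ^ n)) :
    PadicInt.toZModPow n ((a.val : ℕ) : ℤ_[2]) = a := by
  rw [map_natCast, ZMod.natCast_zmod_val]

lemma preimage_W (n : ℕ) (a : ZMod (2 ^ n)) : {z : ℤ_[2] | PadicInt.toZModPow n z = a} =
    (fun z => z + (-((a.val : ℕ) : ℤ_[2]))) ⁻¹' W n := by
  ext z
  simp only [W, Set.mem_ofPred_eq, Set.mem_preimage]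
  rw [map_add, map_neg, toZModPow_val, ← sub_eq_add_neg, sub_eq_zero]

lemma nu_W (n : ℕ) : nu (W n) = 2⁻¹ ^ n := by
  have h1 : ∀ a : ZMod (2 ^ n), nu {z | PadicInt.toZModPow n z = a} = nu (W n) := by
    intro a
    rw [preimage_W]
    exact (map_add_right _).measure_preimage (measurableSet_W n).nullMeasurableSet
  have hm : ∀ a : ZMod (2 ^ n), MeasurableSet {z : ℤ_[2] | PadicInt.toZModPow n z = a} := by
    intro a
    rw [preimage_W]
    exact (map_add_right _).measurable (measurableSet_W n)
  have h2 : nu Set.univ = ∑ a : ZMod (2 ^ n), nu {z : ℤ_[2] | PadicInt.toZModPow n z = a} := by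
    rw [← measure_biUnion_finset]
    · congr 1
      ext z
      simp
    · intro a _ b _ hab
      rw [Function.onFun, Set.disjoint_left]
      intro z hz hz2
      simp only [Set.mem_ofPred_eq] at hz hz2
      exact hab (hz.symm.trans hz2)
    · exact fun a _ => hm a
  simp only [h1, measure_univ, sum_const, card_univ, ZMod.card, nsmul_eq_mul] at h2
  push_cast at h2
  rw [mul_comm] at h2
  rw [ENNReal.eq_inv_of_mul_eq_one_left h2.symm, ENNReal.inv_pow]

/-- The translates of `W n` have the same measure. -/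
lemma nu_W_add (n : ℕ) (a : ℤ_[2]) : nu {z | z + a ∈ W n} = 2⁻¹ ^ n := by
  rw [← nu_W n]
  exact (map_add_right a).measure_preimage (measurableSet_W n).nullMeasurableSet

variable (g : ℤ_[2] → ℕ)

/-- The gap sequence `i ↦ g (z + i)`. -/
noncomputable def hseq (z : ℤ_[2]) : ℤ → ℕ := fun i => g (z + (i : ℤ_[2]))

lemma hseq_next (z : ℤ_[2]) : hseq g (z + 1) = fun j => hseq g z (j + 1) := by
  funext j
  unfold hseq
  push_cast
  congr 1
  ring

lemma hseq_zero (z : ℤ_[2]) : hseq g z 0 = g z := by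
  unfold hseq
  simp

/-- The law of the point process. -/
noncomputable def Q : Measure Om :=
  (∫⁻ z, (g z : ℝ≥0∞) ∂nu)⁻¹ • Measure.sum (fun k : ℕ =>
    (nu.restrict {z | k < g z}).map (fun z => env (hseq g z) k))

section

variable {g} (hg : Measurable g)

include hg

lemma measurable_hseq (i : ℤ) : Measurable (fun z => hseq g z i) :=
  hg.comp (map_add_right _).measurable

lemma measurable_pos (i : ℤ) : Measurable (fun z => pos (hseq g z) i) := by
  have hc : ∀ i, Measurable (fun z => (hseq g z i : ℤ)) := fun i =>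
    (measurable_of_countable (fun n : ℕ => (n : ℤ))).comp (measurable_hseq hg i)
  rcases i with n | n
  · simp only [pos]
    exact Finset.measurable_sum _ fun k _ => hc k
  · simp only [pos]
    exact (Finset.measurable_sum _ fun k _ => hc _).neg

lemma measurable_env (k : ℕ) : Measurable (fun z => env (hseq g z) k) := by
  apply measurable_pi_lambda
  intro x
  apply measurable_to_bool
  have : (fun z => env (hseq g z) k x) ⁻¹' {true} =
      ⋃ i : ℤ, {z | pos (hseq g z) i = x.1 + x.2 + (k : ℤ)} := by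
    ext z
    simp only [Set.mem_preimage, Set.mem_singleton_iff, env_apply, pts, Set.mem_range,
      Set.mem_iUnion, Set.mem_ofPred_eq]
  rw [this]
  exact MeasurableSet.iUnion fun i => measurable_pos hg i (measurableSet_singleton _)

lemma measurableSet_lt (k : ℕ) : MeasurableSet {z | k < g z} :=
  hg (measurableSet_Ioi (a := k))

lemma Q_apply {B : Set Om} (hB : MeasurableSet B) :
    Q g B = (∫⁻ z, (g z : ℝ≥0∞) ∂nu)⁻¹ *
      ∑' k : ℕ, nu ({z | env (hseq g z) k ∈ B} ∩ {z | k < g z}) := by
  unfold Q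
  rw [Measure.smul_apply, smul_eq_mul, Measure.sum_apply _ hB]
  congr 2
  ext k
  rw [Measure.map_apply (measurable_env hg k) hB, Measure.restrict_apply (measurable_env hg k hB)]
  rfl

lemma tsum_lt_eq : ∑' k : ℕ, nu {z | k < g z} = ∫⁻ z, (g z : ℝ≥0∞) ∂nu := by
  have h1 : ∀ z, (g z : ℝ≥0∞) = ∑' k : ℕ, Set.indicator {z | k < g z} (fun _ => (1 : ℝ≥0∞)) z := by
    intro z
    rw [tsum_eq_sum (s := range (g z))]
    · rw [Finset.sum_congr rfl (g := fun _ => (1 : ℝ≥0∞))]
      · simp
      · intro k hk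
        exact Set.indicator_of_mem (s := {z | k < g z}) (mem_range.mp hk) _
    · intro k hk
      exact Set.indicator_of_notMem (s := {z | k < g z}) (fun h => hk (mem_range.mpr h)) _
  simp only [h1]
  rw [lintegral_tsum (fun k => (measurable_const.indicator (measurableSet_lt hg k)).aemeasurable)]
  congr 1
  ext k
  rw [lintegral_indicator (measurableSet_lt hg k)]
  simp

variable (h1 : ∀ z, 1 ≤ g z) (hfin : ∫⁻ z, (g z : ℝ≥0∞) ∂nu ≠ ∞)

include h1

omit hg in
lemma c_pos : ∫⁻ z, (g z : ℝ≥0∞) ∂nu ≠ 0 := by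
  have : (1 : ℝ≥0∞) ≤ ∫⁻ z, (g z : ℝ≥0∞) ∂nu := by
    calc (1 : ℝ≥0∞) = ∫⁻ _, 1 ∂nu := by simp
      _ ≤ _ := lintegral_mono fun z => by
        show (1 : ℝ≥0∞) ≤ (g z : ℝ≥0∞)
        exact_mod_cast h1 z
  intro h
  rw [h] at this
  exact absurd this (by simp)

omit hg in
lemma pos_hseq (z : ℤ_[2]) (i : ℤ) : 1 ≤ hseq g z i := h1 _

include hfin

lemma isProb : IsProbabilityMeasure (Q g) := by
  constructor
  rw [Q_apply hg MeasurableSet.univ]
  have : ∀ k : ℕ, {z | env (hseq g z) k ∈ (Set.univ : Set Om)} ∩ {z | k < g z} = {z | k < g z} := by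
    intro k; ext z; simp
  simp only [this]
  rw [tsum_lt_eq hg]
  exact ENNReal.inv_mul_cancel (c_pos h1) hfin

omit hfin in
lemma key_sum {E : ℕ → Set ℤ_[2]} (hE : ∀ k, MeasurableSet (E k))
    (hnext : ∀ z, z + 1 ∈ E 0 ↔ z ∈ E (g z)) :
    ∑' k : ℕ, nu (E (k + 1) ∩ {z | k < g z}) = ∑' k : ℕ, nu (E k ∩ {z | k < g z}) := by
  have e1 : ∀ k : ℕ, nu (E (k + 1) ∩ {z | k < g z}) =
      nu (E (k + 1) ∩ {z | k + 1 < g z}) + nu (E (k + 1) ∩ {z | g z = k + 1}) := by
    intro k
    rw [← measure_union]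
    · congr 1
      ext z
      simp only [Set.mem_inter_iff, Set.mem_ofPred_eq, Set.mem_union]
      constructor
      · rintro ⟨h2, h3⟩
        by_cases h4 : g z = k + 1
        · exact Or.inr ⟨h2, h4⟩
        · exact Or.inl ⟨h2, by omega⟩
      · rintro (⟨h2, h3⟩ | ⟨h2, h3⟩)
        · exact ⟨h2, by omega⟩
        · exact ⟨h2, by omega⟩
    · rw [Set.disjoint_left]
      rintro z ⟨_, h2⟩ ⟨_, h3⟩
      simp only [Set.mem_ofPred_eq] at h2 h3
      omega
    · exact (hE _).inter (hg (measurableSet_singleton _))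
  simp only [e1]
  rw [ENNReal.tsum_add]
  have e2 : ∑' k : ℕ, nu (E (k + 1) ∩ {z | g z = k + 1}) = nu (E 0) := by
    rw [← measure_iUnion]
    · rw [← (map_add_right 1).measure_preimage (hE 0).nullMeasurableSet]
      congr 1
      ext z
      simp only [Set.mem_iUnion, Set.mem_inter_iff, Set.mem_ofPred_eq, Set.mem_preimage]
      rw [hnext]
      constructor
      · rintro ⟨k, h2, h3⟩
        rwa [h3]
      · intro h2
        have := h1 z
        exact ⟨g z - 1, by rwa [Nat.sub_add_cancel this], by omega⟩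
    · intro i j hij
      rw [Function.onFun, Set.disjoint_left]
      rintro z ⟨_, h2⟩ ⟨_, h3⟩
      simp only [Set.mem_ofPred_eq] at h2 h3
      omega
    · exact fun k => (hE _).inter (hg (measurableSet_singleton _))
  rw [e2, add_comm, tsum_eq_zero_add' (f := fun k => nu (E k ∩ {z | k < g z}))
    ENNReal.summable]
  congr 1
  congr 1
  ext z
  simp only [Set.mem_inter_iff, Set.mem_ofPred_eq, iff_self_and]
  intro _
  exact h1 z

omit hfin in
/-- Stationarity and ergodicity. -/
lemma ergodic_of {T : Om → Om} (hT : Measurable T)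
    (hTe : ∀ (h : ℤ → ℕ) (k : ℕ), T (env h k) = env h (k + 1)) : Ergodic T (Q g) := by
  have hE : ∀ {B : Set Om}, MeasurableSet B → ∀ k, MeasurableSet {z | env (hseq g z) k ∈ B} :=
    fun hB k => measurable_env hg k hB
  have hnext : ∀ (B : Set Om) (z : ℤ_[2]), env (hseq g (z + 1)) 0 ∈ B ↔
      env (hseq g z) (g z) ∈ B := by
    intro B z
    rw [hseq_next, env_next, hseq_zero]
  have hmp : MeasurePreserving T (Q g) (Q g) := by
    refine ⟨hT, ?_⟩
    ext B hB
    rw [Measure.map_apply hT hB, Q_apply hg (hT hB), Q_apply hg hB]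
    congr 1
    have : ∀ k : ℕ, {z | env (hseq g z) k ∈ T ⁻¹' B} = {z | env (hseq g z) (k + 1) ∈ B} := by
      intro k
      ext z
      simp only [Set.mem_ofPred_eq, Set.mem_preimage, hTe]
    simp only [this]
    exact key_sum hg h1 (E := fun k => {z | env (hseq g z) k ∈ B}) (hE hB) (hnext B)
  refine ⟨hmp, ⟨?_⟩⟩
  intro B hB hTB
  have hk : ∀ (k : ℕ) (h : ℤ → ℕ), env h k ∈ B ↔ env h 0 ∈ B := by
    intro k h
    induction k with
    | zero => rfl
    | succ k ih =>
      rw [← ih, ← hTe]
      constructor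
      · intro h2
        have : env h k ∈ T ⁻¹' B := h2
        rwa [hTB] at this
      · intro h2
        rw [← hTB] at h2
        exact h2
  have hinv : (fun z : ℤ_[2] => z + 1) ⁻¹' {z | env (hseq g z) 0 ∈ B} =
      {z | env (hseq g z) 0 ∈ B} := by
    ext z
    simp only [Set.mem_preimage, Set.mem_ofPred_eq]
    rw [hnext, hk]
  have hB0 := ergodic_add_one.measure_self_or_compl_eq_zero (hE hB 0) hinv
  have hQ : ∀ C : Set Om, MeasurableSet C → (∀ (k : ℕ) (h : ℤ → ℕ), env h k ∈ C ↔ env h 0 ∈ C) →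
      nu {z | env (hseq g z) 0 ∈ C} = 0 → Q g C = 0 := by
    intro C hC hkC h0
    rw [Q_apply hg hC]
    have : ∀ k : ℕ, nu ({z | env (hseq g z) k ∈ C} ∩ {z | k < g z}) = 0 := by
      intro k
      refine measure_mono_null ?_ h0
      intro z hz
      exact (hkC k _).mp hz.1
    simp only [this, tsum_zero, mul_zero]
  rcases hB0 with h0 | h0
  · have := hQ B hB hk h0
    rw [Filter.eventuallyConst_set']
    left
    exact ae_eq_empty.mpr this
  · have h0' : nu {z | env (hseq g z) 0 ∈ Bᶜ} = 0 := h0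
    have := hQ Bᶜ hB.compl (fun k h => not_congr (hk k h)) h0'
    rw [Filter.eventuallyConst_set']
    right
    exact ae_eq_univ.mpr this

omit hg h1 hfin in
lemma measurable_shift (x : ℤ × ℤ) : Measurable (shift x) :=
  measurable_pi_lambda _ fun y => measurable_pi_apply (x + y)

omit hg h1 hfin in
lemma measurableSet_coord (x : ℤ × ℤ) (b : Bool) : MeasurableSet {ω : Om | ω x = b} := by
  have : Measurable (fun ω : Om => ω x) := measurable_pi_apply x
  exact this (measurableSet_singleton b)

omit hg h1 hfin in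
lemma measurableSet_Om0 : MeasurableSet Om0 := measurableSet_coord 0 true

omit hfin in
lemma Q_inter {B : Set Om} (hB : MeasurableSet B) :
    Q g (Om0 ∩ B) = (∫⁻ z, (g z : ℝ≥0∞) ∂nu)⁻¹ * nu {z | env (hseq g z) 0 ∈ B} := by
  rw [Q_apply hg (measurableSet_Om0.inter hB)]
  congr 1
  rw [tsum_eq_single 0]
  · congr 1
    ext z
    simp only [Set.mem_inter_iff, Set.mem_ofPred_eq, Om0, env_apply]
    constructor
    · rintro ⟨⟨_, h2⟩, _⟩
      exact h2
    · intro h2
      refine ⟨⟨?_, h2⟩, h1 z⟩
      exact ⟨0, by rw [pos_zero]; rfl⟩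
  · intro k hk
    have : {z | env (hseq g z) k ∈ Om0 ∩ B} ∩ {z | k < g z} = ∅ := by
      ext z
      simp only [Set.mem_inter_iff, Set.mem_ofPred_eq, Om0, env_apply, Set.mem_empty_iff_false,
        iff_false, not_and]
      rintro h2 h3
      have h4 := h2.1
      simp only [Prod.fst_zero, Prod.snd_zero, add_zero, zero_add] at h4
      exact hk (mem_pts_small (pos_hseq h1 z) (by rw [hseq_zero]; exact h3) h4)
    rw [this, measure_empty]

omit hfin in
lemma Q_Om0 : Q g Om0 = (∫⁻ z, (g z : ℝ≥0∞) ∂nu)⁻¹ := by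
  have := Q_inter hg h1 MeasurableSet.univ
  rw [Set.inter_univ] at this
  rw [this]
  simp

theorem isPointProcess : IsPointProcess (Q g) := by
  have := isProb hg h1 hfin
  refine ⟨this, ergodic_of hg h1 (measurable_shift _) shift_env₁,
    ergodic_of hg h1 (measurable_shift _) shift_env₂, ?_⟩
  have h2 : Q g Om0 ≠ 0 := by
    rw [Q_Om0 hg h1]
    exact ENNReal.inv_ne_zero.mpr hfin
  by_contra hcon
  push Not at hcon
  have h3 : MeasurableSet {ω : Om | ∀ x, ω x = false} := by
    have : {ω : Om | ∀ x, ω x = false} = ⋂ x, {ω | ω x = false} := by ext; simp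
    rw [this]
    exact MeasurableSet.iInter fun x => measurableSet_coord x false
  have h4 : Q g {ω : Om | ∀ x, ω x = false} = 1 := le_antisymm prob_le_one hcon
  rw [← prob_compl_eq_zero_iff h3] at h4
  apply h2
  refine measure_mono_null ?_ h4
  intro ω hω hω2
  have := hω2 0
  simp only [Om0, Set.mem_ofPred_eq] at hω
  rw [hω] at this
  exact absurd this (by simp)

/-- The conditional law given that the origin is a point. -/
theorem cond_eq : (Q g)[|Om0] = nu.map (fun z => env (hseq g z) 0) := by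
  ext B hB
  rw [cond_apply measurableSet_Om0, Q_Om0 hg h1, Q_inter hg h1 hB,
    Measure.map_apply (measurable_env hg 0) hB, inv_inv, ← mul_assoc,
    ENNReal.mul_inv_cancel (c_pos h1) hfin, one_mul]
  rfl

/-- Almost sure statements for the annealed law. -/
theorem ae_annealed {E : Set (Om × (ℕ → Fin 4))} (hE : MeasurableSet E)
    (h : ∀ᵐ z ∂nu, ∀ᵐ ξ ∂directions, (env (hseq g z) 0, ξ) ∈ E) :
    ∀ᵐ p ∂(annealed (Q g)), p ∈ E := by
  rw [ae_iff]
  show annealed (Q g) Eᶜ = 0
  unfold annealed
  rw [Measure.prod_apply hE.compl, cond_eq hg h1 hfin,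
    lintegral_map (measurable_measure_prodMk_left hE.compl) (measurable_env hg 0)]
  rw [← lintegral_zero (μ := nu)]
  apply lintegral_congr_ae
  filter_upwards [h] with z hz
  exact hz

end

end Pool.Agent.X142.Tower
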