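import Mathlib
import Pool.Agent.X142.Tower

/-!
The valuation on the 2-adic integers.
-/

open MeasureTheory ProbabilityTheory Finset
open scoped ENNReal

namespace Pool.Agent.X142.Val

open X142.PP X142.Tower

lemma mem_W_iff {z : ℤ_[2]} (hz : z ≠ 0) (n : ℕ) : z ∈ W n ↔ n ≤ z.valuation := by
  rw [← PadicInt.mem_span_pow_iff_le_valuation z hz n]
  unfold W
  rw [Set.mem_ofPred_eq, ← RingHom.mem_ker, PadicInt.ker_toZModPow]

lemma zero_mem_W (n : ℕ) : (0 : ℤ_[2]) ∈ W n := by simp [W]

lemma W_mono {m n : ℕ} (h : n ≤ m) : W m ⊆ W n := by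
  rw [W_eq, W_eq]
  intro z hz
  simp only [Set.mem_ofPred_eq] at *
  refine hz.trans ?_
  apply zpow_le_zpow_right₀ (by norm_num)
  omega

lemma measurable_valuation : Measurable (fun z : ℤ_[2] => z.valuation) := by
  apply measurable_of_Ici
  intro n
  rcases Nat.eq_zero_or_pos n with rfl | hn
  · have : (fun z : ℤ_[2] => z.valuation) ⁻¹' Set.Ici 0 = Set.univ := by ext; simp
    rw [this]; exact MeasurableSet.univ
  · have : (fun z : ℤ_[2] => z.valuation) ⁻¹' Set.Ici n = W n \ {0} := by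
      ext z
      simp only [Set.mem_preimage, Set.mem_Ici, Set.mem_sdiff, Set.mem_singleton_iff]
      by_cases hz : z = 0
      · subst hz
        simp only [PadicInt.valuation_zero, not_true_eq_false, and_false, iff_false]
        omega
      · rw [mem_W_iff hz]
        simp [hz]
    rw [this]
    exact (measurableSet_W n).diff (measurableSet_singleton 0)

lemma nu_val_eq (n : ℕ) : 2⁻¹ ^ (n + 1) ≤ nu {z | z.valuation = n} := by
  have h1 : W n \ W (n + 1) ⊆ {z : ℤ_[2] | z.valuation = n} := by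
    intro z hz
    have hz0 : z ≠ 0 := fun h => hz.2 (h ▸ zero_mem_W _)
    have h2 := (mem_W_iff hz0 n).mp hz.1
    have h3 := (mem_W_iff hz0 (n + 1)).not.mp hz.2
    simp only [Set.mem_ofPred_eq]
    omega
  refine le_trans ?_ (measure_mono h1)
  rw [measure_sdiff (W_mono (Nat.le_succ n)) (measurableSet_W _).nullMeasurableSet
    (measure_ne_top _ _), nu_W, nu_W]
  have h2 : (2⁻¹ : ℝ≥0∞) ^ n = 2⁻¹ ^ (n + 1) + 2⁻¹ ^ (n + 1) := by
    rw [pow_succ, ← mul_add, ENNReal.inv_two_add_inv_two, mul_one]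
  rw [h2, ENNReal.add_sub_cancel_right (ENNReal.pow_ne_top (by simp))]

end Pool.Agent.X142.Val
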