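import Mathlib

/-!
Existence of a process on a countable state space with prescribed (history dependent) transition
probabilities.
-/

open MeasureTheory Finset ProbabilityTheory Preorder
open scoped ENNReal

namespace Pool.Agent.X142

/-- Extension of a finite piece of path to a sequence. -/
def extendPath {V : Type*} (n : ℕ) (z : (i : Finset.Iic n) → V) : ℕ → V :=
  fun s => if h : s ≤ n then z ⟨s, Finset.mem_Iic.mpr h⟩ else z ⟨n, Finset.mem_Iic.mpr le_rfl⟩

/-- History dependent transition probabilities `q x n y` (depending only on the first `n+1` values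
of `x`) on a countable space are realised by a probability measure on sequences. -/
theorem exists_history_chain {V : Type*} [Countable V] (q : (ℕ → V) → ℕ → V → ℝ≥0∞)
    (hq : ∀ x n, ∑' y, q x n y = 1)
    (hcongr : ∀ x x' n y, (∀ s ≤ n, x s = x' s) → q x n y = q x' n y) (o : V) :
    ∃ (_ : MeasurableSpace (ℕ → V)) (P : Measure (ℕ → V)), IsProbabilityMeasure P ∧
      (∀ t v, MeasurableSet {ω : ℕ → V | ω t = v}) ∧ P {ω | ω 0 = o} = 1 ∧
      ∀ t (x : ℕ → V) y, P {ω | (∀ s ≤ t, ω s = x s) ∧ ω (t + 1) = y} =
        P {ω | ∀ s ≤ t, ω s = x s} * q x t y := by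
  classical
  letI mV : MeasurableSpace V := ⊤
  haveI : DiscreteMeasurableSpace V := ⟨fun _ => trivial⟩
  let κf : (n : ℕ) → ((i : Finset.Iic n) → V) → Measure V := fun n z =>
    Measure.sum (fun y => q (extendPath n z) n y • Measure.dirac y)
  have κf_single : ∀ n z y, κf n z {y} = q (extendPath n z) n y := by
    intro n z y
    simp only [κf]
    rw [Measure.sum_apply _ (MeasurableSet.singleton y)]
    rw [tsum_eq_single y]
    · simp
    · intro b hb
      simp [hb]
  have κf_prob : ∀ n z, IsProbabilityMeasure (κf n z) := by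
    intro n z
    refine ⟨?_⟩
    simp only [κf]
    rw [Measure.sum_apply _ MeasurableSet.univ]
    simp only [Measure.smul_apply, measure_univ, smul_eq_mul, mul_one]
    exact hq _ _
  let κ : (n : ℕ) → Kernel ((i : Finset.Iic n) → V) V := fun n =>
    { toFun := κf n
      measurable' := measurable_of_countable _ }
  haveI : ∀ n, IsMarkovKernel (κ n) := fun n => ⟨fun z => κf_prob n z⟩
  let P : Measure ((n : ℕ) → V) := Kernel.trajMeasure (X := fun _ => V) (Measure.dirac o) κ
  haveI : IsProbabilityMeasure P := by
    show IsProbabilityMeasure (Kernel.trajMeasure (X := fun _ => V) (Measure.dirac o) κ)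
    infer_instance
  refine ⟨inferInstance, P, inferInstance, ?_, ?_, ?_⟩
  · intro t v
    exact (measurable_pi_apply (X := fun _ : ℕ => V) t) (MeasurableSet.singleton v)
  · have hmap : P.map (fun ω => ω 0) = Measure.dirac o := by
      have h1 : P.map (frestrictLe 0) = (Measure.dirac o).map (MeasurableEquiv.piUnique
          ((fun i : Finset.Iic 0 ↦ V))).symm := by
        show (Kernel.trajMeasure (X := fun _ => V) (Measure.dirac o) κ).map (frestrictLe 0) = _
        rw [Kernel.trajMeasure, Measure.map_comp _ _ (by fun_prop), Kernel.traj_map_frestrictLe,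
          Kernel.partialTraj_self, Measure.id_comp]
      have h2 : (fun ω : ℕ → V => ω 0) = (fun z : (i : Finset.Iic 0) → V =>
          z ⟨0, Finset.mem_Iic.mpr le_rfl⟩) ∘ (frestrictLe 0) := rfl
      rw [h2, ← Measure.map_map (by fun_prop) (by fun_prop), h1, Measure.map_map (by fun_prop)
        (by fun_prop)]
      convert Measure.map_id using 2
      funext v
      rfl
    have : {ω : ℕ → V | ω 0 = o} = (fun ω => ω 0) ⁻¹' {o} := by ext; simp
    rw [this, ← Measure.map_apply (by fun_prop) (MeasurableSet.singleton o), hmap]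
    simp
  · intro t x y
    have hk := Kernel.map_frestrictLe_trajMeasure_compProd_eq_map_trajMeasure
      (X := fun _ => V) (μ₀ := Measure.dirac o) (κ := κ) (a := t)
    have e1 : {ω : ℕ → V | (∀ s ≤ t, ω s = x s) ∧ ω (t + 1) = y} =
        (fun ω : ℕ → V => (frestrictLe (π := fun _ => V) t ω, ω (t + 1))) ⁻¹'
          ({frestrictLe (π := fun _ => V) t x} ×ˢ {y}) := by
      ext ω
      simp only [Set.mem_ofPred_eq, Set.mem_preimage, Set.mem_prod, Set.mem_singleton_iff]
      constructor
      · rintro ⟨h1, h2⟩
        refine ⟨?_, h2⟩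
        funext i
        exact h1 i (Finset.mem_Iic.mp i.2)
      · rintro ⟨h1, h2⟩
        refine ⟨fun s hs => ?_, h2⟩
        exact congrFun h1 ⟨s, Finset.mem_Iic.mpr hs⟩
    have e2 : {ω : ℕ → V | ∀ s ≤ t, ω s = x s} =
        (frestrictLe (π := fun _ => V) t) ⁻¹' {frestrictLe (π := fun _ => V) t x} := by
      ext ω
      simp only [Set.mem_ofPred_eq, Set.mem_preimage, Set.mem_singleton_iff]
      constructor
      · intro h1
        funext i
        exact h1 i (Finset.mem_Iic.mp i.2)
      · intro h1 s hs
        exact congrFun h1 ⟨s, Finset.mem_Iic.mpr hs⟩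
    have hm1 : MeasurableSet ({frestrictLe (π := fun _ => V) t x} :
      Set ((i : Finset.Iic t) → V)) := MeasurableSet.singleton _
    rw [e1, ← Measure.map_apply (by fun_prop) (hm1.prod (MeasurableSet.singleton y))]
    show (Measure.map _ (Kernel.trajMeasure (X := fun _ => V) (Measure.dirac o) κ)) _ = _
    rw [← hk, Measure.compProd_apply_prod hm1 (MeasurableSet.singleton y)]
    rw [e2, ← Measure.map_apply (by fun_prop) hm1]
    rw [lintegral_singleton]
    have : (κ t) (frestrictLe (π := fun _ => V) t x) {y} = q x t y := by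
      show κf t _ {y} = _
      rw [κf_single]
      apply hcongr
      intro s hs
      simp [extendPath, hs]
    rw [this, mul_comm]

end Pool.Agent.X142
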