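import Mathlib

/-!
Discrete-time branching random walks on a countable set: the process, extinction probabilities,
the generating function, and the first moment formula.
-/

open MeasureTheory ProbabilityTheory Finset
open scoped ENNReal NNReal

namespace Pool.Agent.X142.BRW

variable {X : Type}

/-- Every subset of the set `S_X` of finitely supported functions is measurable. -/
instance instMeasurableSpaceConfig : MeasurableSpace (X →₀ ℕ) := ⊤

/-- The joint law of the offspring configurations: the configuration with index `(n, x, j)` is the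
offspring of the `j`-th particle at `x` at time `n`; they are independent with laws `μ x`. -/
noncomputable def offspringLaw (μ : X → PMF (X →₀ ℕ)) : Measure (ℕ × X × ℕ → (X →₀ ℕ)) :=
  Measure.infinitePi (fun p : ℕ × X × ℕ => (μ p.2.1).toMeasure)

/-- The population at time `n` when one particle starts at `x₀`. -/
noncomputable def population (ξ : ℕ × X × ℕ → (X →₀ ℕ)) (x₀ : X) : ℕ → (X →₀ ℕ)
  | 0 => Finsupp.single x₀ 1
  | n + 1 => (population ξ x₀ n).sum (fun x m => ∑ j ∈ range m, ξ (n, x, j))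

/-- The extinction probability `q(x, A)`: the probability that eventually no particle is in `A`. -/
noncomputable def extProb (μ : X → PMF (X →₀ ℕ)) (A : Set X) (x : X) : ℝ :=
  (offspringLaw μ).real {ξ | ∃ N : ℕ, ∀ n, N ≤ n → ∀ y ∈ A, population ξ x n y = 0}

/-- The generating function `G(z | x) = ∑_f μ_x(f) ∏_y z(y)^{f(y)}`. -/
noncomputable def genFun (μ : X → PMF (X →₀ ℕ)) (z : X → ℝ) (x : X) : ℝ :=
  ∑' f : X →₀ ℕ, (μ x f).toReal * f.prod (fun y n => z y ^ n)

/-- The fixed points of `G` in `[0,1]^X`. -/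
def fixedPoints (μ : X → PMF (X →₀ ℕ)) : Set (X → ℝ) :=
  {z | (∀ x, 0 ≤ z x ∧ z x ≤ 1) ∧ ∀ x, genFun μ z x = z x}

/-- The extinction probability vectors. -/
def extVectors (μ : X → PMF (X →₀ ℕ)) : Set (X → ℝ) :=
  {z | ∃ A : Set X, z = extProb μ A}

/-- The mean number of children at `y` of a particle at `x`. -/
noncomputable def meanOffspring (μ : X → PMF (X →₀ ℕ)) (x y : X) : ℝ≥0∞ :=
  ∑' f : X →₀ ℕ, (f y : ℝ≥0∞) * μ x f

/-- The branching random walk is irreducible. -/
def IrreducibleBRW (μ : X → PMF (X →₀ ℕ)) : Prop :=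
  ∀ x y, Relation.ReflTransGen (fun a b => 0 < meanOffspring μ a b) x y

section basics

lemma measurableSet_config (S : Set (X →₀ ℕ)) : MeasurableSet S := trivial

instance : DiscreteMeasurableSpace (X →₀ ℕ) := ⟨fun _ => trivial⟩

variable (μ : X → PMF (X →₀ ℕ))

instance : IsProbabilityMeasure (offspringLaw μ) := by
  unfold offspringLaw
  infer_instance

lemma offspring_eval (p : ℕ × X × ℕ) (S : Set (X →₀ ℕ)) :
    offspringLaw μ {ξ | ξ p ∈ S} = (μ p.2.1).toMeasure S := by
  have h := (measurePreserving_eval_infinitePi (fun p : ℕ × X × ℕ => (μ p.2.1).toMeasure) p)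
  have := h.measure_preimage (measurableSet_config S).nullMeasurableSet
  exact this

lemma lintegral_offspring (p : ℕ × X × ℕ) (F : (X →₀ ℕ) → ℝ≥0∞) :
    ∫⁻ ξ, F (ξ p) ∂(offspringLaw μ) = ∫⁻ f, F f ∂(μ p.2.1).toMeasure := by
  have h := (measurePreserving_eval_infinitePi (fun p : ℕ × X × ℕ => (μ p.2.1).toMeasure) p)
  exact h.lintegral_comp (measurable_of_countable_or_discrete F)
where
  measurable_of_countable_or_discrete (F : (X →₀ ℕ) → ℝ≥0∞) : Measurable F :=
    fun _ _ => trivial

/-- A property that holds for all configurations in the support of all offspring laws holds almost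
surely for all offspring. -/
lemma ae_offspring [Countable X] (p : X → (X →₀ ℕ) → Prop) (hp : ∀ x f, μ x f ≠ 0 → p x f) :
    ∀ᵐ ξ ∂(offspringLaw μ), ∀ (n : ℕ) (x : X) (j : ℕ), p x (ξ (n, x, j)) := by
  have h1 : ∀ᵐ ξ ∂(offspringLaw μ), ∀ q : ℕ × X × ℕ, p q.2.1 (ξ q) := by
    rw [ae_all_iff]
    intro q
    rw [ae_iff]
    have h2 := offspring_eval μ q {f | ¬ p q.2.1 f}
    have h3 : (μ q.2.1).toMeasure {f : X →₀ ℕ | ¬ p q.2.1 f} = 0 := by
      rw [PMF.toMeasure_apply_eq_zero_iff _ (measurableSet_config _), Set.disjoint_left]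
      intro f hf hf2
      exact hf2 (hp _ f ((PMF.mem_support_iff _ _).mp hf))
    rw [← h3, ← h2]
    rfl
  filter_upwards [h1] with ξ hξ n x j
  exact hξ (n, x, j)

/-- The value of the population at time `n + 1`. -/
lemma population_succ_apply (ξ : ℕ × X × ℕ → (X →₀ ℕ)) (x₀ : X) (n : ℕ) (y : X) :
    population ξ x₀ (n + 1) y = ∑ x ∈ (population ξ x₀ n).support,
      ∑ j ∈ range (population ξ x₀ n x), ξ (n, x, j) y := by
  simp only [population]
  rw [Finsupp.sum, Finsupp.finsetSum_apply]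
  apply sum_congr rfl
  intro x _
  rw [Finsupp.finsetSum_apply]

/-- Each child of an existing particle is in the next generation. -/
lemma le_population_succ (ξ : ℕ × X × ℕ → (X →₀ ℕ)) (x₀ : X) (n : ℕ) (x y : X) {j : ℕ}
    (hj : j < population ξ x₀ n x) : ξ (n, x, j) y ≤ population ξ x₀ (n + 1) y := by
  rw [population_succ_apply]
  have hmem : x ∈ (population ξ x₀ n).support := by
    rw [Finsupp.mem_support_iff]; omega
  calc ξ (n, x, j) y ≤ ∑ j ∈ range (population ξ x₀ n x), ξ (n, x, j) y :=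
        Finset.single_le_sum (f := fun j => ξ (n, x, j) y) (fun _ _ => Nat.zero_le _)
          (mem_range.mpr hj)
    _ ≤ _ := Finset.single_le_sum (f := fun x => ∑ j ∈ range (population ξ x₀ n x), ξ (n, x, j) y)
        (fun _ _ => Nat.zero_le _) hmem

/-- Every particle of generation `n + 1` is a child of a particle of generation `n`. -/
lemma exists_parent (ξ : ℕ × X × ℕ → (X →₀ ℕ)) (x₀ : X) (n : ℕ) {y : X}
    (hy : population ξ x₀ (n + 1) y ≠ 0) :
    ∃ x j, j < population ξ x₀ n x ∧ ξ (n, x, j) y ≠ 0 := by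
  rw [population_succ_apply] at hy
  obtain ⟨x, _, hx⟩ := Finset.exists_ne_zero_of_sum_ne_zero hy
  obtain ⟨j, hj, hj2⟩ := Finset.exists_ne_zero_of_sum_ne_zero hx
  exact ⟨x, j, mem_range.mp hj, hj2⟩

end basics

section measurability

variable [Countable X]

lemma measurable_sum (n : ℕ) (η : X →₀ ℕ) :
    Measurable (fun ξ : ℕ × X × ℕ → (X →₀ ℕ) => η.sum (fun x m => ∑ j ∈ range m, ξ (n, x, j))) := by
  have h2 : Measurable (fun p : (X →₀ ℕ) × (X →₀ ℕ) => p.1 + p.2) := measurable_of_countable _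
  have hsum : ∀ (ι : Type) (s : Finset ι) (F : ι → (ℕ × X × ℕ → (X →₀ ℕ)) → (X →₀ ℕ)),
      (∀ i, Measurable (F i)) → Measurable (fun ξ => ∑ i ∈ s, F i ξ) := by
    classical
    intro ι s F hF
    induction s using Finset.induction_on with
    | empty => simp only [sum_empty]; exact measurable_const
    | insert a s ha ih =>
      simp only [sum_insert ha]
      exact h2.comp ((hF a).prodMk ih)
  unfold Finsupp.sum
  apply hsum
  intro x
  apply hsum
  intro j
  exact measurable_pi_apply _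

lemma measurable_population (x₀ : X) (n : ℕ) :
    Measurable (fun ξ : ℕ × X × ℕ → (X →₀ ℕ) => population ξ x₀ n) := by
  induction n with
  | zero => simp only [population]; exact measurable_const
  | succ n ih =>
    simp only [population]
    have h1 : Measurable (fun p : (X →₀ ℕ) × (ℕ × X × ℕ → (X →₀ ℕ)) =>
        p.1.sum (fun x m => ∑ j ∈ range m, p.2 (n, x, j))) :=
      measurable_from_prod_countable_right (fun η => measurable_sum n η)
    exact h1.comp (ih.prodMk measurable_id)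

/-- Forget the offspring at times `≥ n`. -/
noncomputable def cut (n : ℕ) (ξ : ℕ × X × ℕ → (X →₀ ℕ)) : ℕ × X × ℕ → (X →₀ ℕ) :=
  fun p => if p.1 < n then ξ p else 0

omit [Countable X] in
lemma population_cut (ξ : ℕ × X × ℕ → (X →₀ ℕ)) (x₀ : X) (N n : ℕ) (hn : n ≤ N) :
    population (cut N ξ) x₀ n = population ξ x₀ n := by
  induction n with
  | zero => rfl
  | succ n ih =>
    simp only [population]
    rw [ih (by omega)]
    have : ∀ x j, cut N ξ (n, x, j) = ξ (n, x, j) := by
      intro x j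
      simp only [cut]
      rw [if_pos (by omega)]
    simp only [this]

/-- The population at time `n` is independent of the offspring at time `n`. -/
lemma indep_population (μ : X → PMF (X →₀ ℕ)) (x₀ : X) (n : ℕ) (x : X) (j : ℕ) :
    IndepFun (fun ξ : ℕ × X × ℕ → (X →₀ ℕ) => population ξ x₀ n)
      (fun ξ => ξ (n, x, j)) (offspringLaw μ) := by
  have hind : iIndepFun (fun (p : ℕ × X × ℕ) (ξ : ℕ × X × ℕ → (X →₀ ℕ)) => ξ p)
      (offspringLaw μ) := by
    have := iIndepFun_infinitePi (P := fun p : ℕ × X × ℕ => (μ p.2.1).toMeasure)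
      (X := fun (_ : ℕ × X × ℕ) (f : X →₀ ℕ) => f) (fun _ => measurable_id)
    exact this
  set m : ℕ × X × ℕ → MeasurableSpace (ℕ × X × ℕ → (X →₀ ℕ)) := fun p =>
    MeasurableSpace.comap (fun ξ => ξ p) inferInstance with hm
  have hle : ∀ p, m p ≤ (inferInstance : MeasurableSpace (ℕ × X × ℕ → (X →₀ ℕ))) := fun p =>
    (measurable_pi_apply p).comap_le
  have hind2 : iIndep m (offspringLaw μ) := hind
  have hdisj : Disjoint {p : ℕ × X × ℕ | p.1 < n} {(n, x, j)} := by
    rw [Set.disjoint_singleton_right]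
    simp
  have h := indep_iSup_of_disjoint hle hind2 hdisj
  have hcut : @Measurable _ _ (⨆ p ∈ {p : ℕ × X × ℕ | p.1 < n}, m p) _
      (cut n : (ℕ × X × ℕ → (X →₀ ℕ)) → _) := by
    apply @measurable_pi_lambda _ _ _ (⨆ p ∈ {p : ℕ × X × ℕ | p.1 < n}, m p)
    intro p
    by_cases hp : p.1 < n
    · have h1 : (fun ξ : ℕ × X × ℕ → (X →₀ ℕ) => cut n ξ p) = fun ξ => ξ p := by
        funext ξ; simp only [cut]; rw [if_pos hp]
      rw [h1]
      have h2 : m p ≤ ⨆ p ∈ {p : ℕ × X × ℕ | p.1 < n}, m p := le_biSup m hp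
      exact (comap_measurable (fun ξ : ℕ × X × ℕ → (X →₀ ℕ) => ξ p)).mono h2 le_rfl
    · have h1 : (fun ξ : ℕ × X × ℕ → (X →₀ ℕ) => cut n ξ p) = fun ξ => 0 := by
        funext ξ; simp only [cut]; rw [if_neg hp]
      rw [h1]
      exact @measurable_const _ _ _ (⨆ p ∈ {p : ℕ × X × ℕ | p.1 < n}, m p) _
  have hpop : @Measurable _ _ (⨆ p ∈ {p : ℕ × X × ℕ | p.1 < n}, m p) _
      (fun ξ : ℕ × X × ℕ → (X →₀ ℕ) => population ξ x₀ n) := by
    have h1 : (fun ξ : ℕ × X × ℕ → (X →₀ ℕ) => population ξ x₀ n) =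
        (fun ξ => population ξ x₀ n) ∘ (cut n) := by
      funext ξ
      exact (population_cut ξ x₀ n n le_rfl).symm
    rw [h1]
    exact (measurable_population x₀ n).comp hcut
  have hxj : @Measurable _ _ (⨆ p ∈ ({(n, x, j)} : Set (ℕ × X × ℕ)), m p) _
      (fun ξ : ℕ × X × ℕ → (X →₀ ℕ) => ξ (n, x, j)) := by
    have h2 : m (n, x, j) ≤ ⨆ p ∈ ({(n, x, j)} : Set (ℕ × X × ℕ)), m p :=
      le_biSup m (Set.mem_singleton _)
    exact (comap_measurable (fun ξ : ℕ × X × ℕ → (X →₀ ℕ) => ξ (n, x, j))).mono h2 le_rfl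
  exact indep_of_indep_of_le_left (indep_of_indep_of_le_right h hxj.comap_le) hpop.comap_le

end measurability

section first_moment

/-- Total weight of a configuration. -/
noncomputable def wt (h : X → ℝ≥0∞) (η : X →₀ ℕ) : ℝ≥0∞ := ∑' y, (η y : ℝ≥0∞) * h y

lemma wt_add (h : X → ℝ≥0∞) (η η' : X →₀ ℕ) : wt h (η + η') = wt h η + wt h η' := by
  unfold wt
  rw [← ENNReal.tsum_add]
  congr 1
  ext y
  rw [Finsupp.add_apply]
  push_cast
  ring

lemma wt_zero (h : X → ℝ≥0∞) : wt h (0 : X →₀ ℕ) = 0 := by simp [wt]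

lemma wt_single (h : X → ℝ≥0∞) (y : X) (m : ℕ) : wt h (Finsupp.single y m) = m * h y := by
  classical
  unfold wt
  rw [tsum_eq_single y]
  · simp
  · intro y' hy'
    rw [Finsupp.single_apply, if_neg hy'.symm]
    simp

lemma wt_sum (h : X → ℝ≥0∞) {ι : Type} (s : Finset ι) (F : ι → (X →₀ ℕ)) :
    wt h (∑ i ∈ s, F i) = ∑ i ∈ s, wt h (F i) := by
  classical
  induction s using Finset.induction_on with
  | empty => simp [wt_zero]
  | insert a s ha ih => rw [sum_insert ha, sum_insert ha, wt_add, ih]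

/-- Mean weight of the offspring of a particle. -/
noncomputable def meanWt (μ : X → PMF (X →₀ ℕ)) (h : X → ℝ≥0∞) (x : X) : ℝ≥0∞ :=
  ∫⁻ f, wt h f ∂(μ x).toMeasure

lemma meanWt_eq [Countable X] (μ : X → PMF (X →₀ ℕ)) (h : X → ℝ≥0∞) (x : X) :
    meanWt μ h x = ∑' f, wt h f * μ x f := by
  unfold meanWt
  rw [lintegral_countable']
  congr 1
  ext f
  rw [PMF.toMeasure_apply_singleton _ _ (measurableSet_config _)]

/-- The first moment formula. -/
theorem lintegral_wt_succ [Countable X] (μ : X → PMF (X →₀ ℕ)) (h : X → ℝ≥0∞) (x₀ : X) (n : ℕ) :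
    ∫⁻ ξ, wt h (population ξ x₀ (n + 1)) ∂(offspringLaw μ) =
      ∫⁻ ξ, wt (meanWt μ h) (population ξ x₀ n) ∂(offspringLaw μ) := by
  classical
  have key : ∀ (η : X →₀ ℕ) (a : X → ℕ → ℝ≥0∞), ∑ x ∈ η.support, ∑ j ∈ range (η x), a x j =
      ∑' x, ∑' j, (if j < η x then 1 else 0) * a x j := by
    intro η a
    rw [tsum_eq_sum (s := η.support)]
    · apply sum_congr rfl
      intro x _
      rw [tsum_eq_sum (s := range (η x))]
      · apply sum_congr rfl
        intro j hj
        rw [if_pos (mem_range.mp hj), one_mul]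
      · intro j hj
        rw [if_neg (fun h => hj (mem_range.mpr h)), zero_mul]
    · intro x hx
      rw [Finsupp.notMem_support_iff] at hx
      rw [hx]
      simp
  have h1 : ∀ ξ : ℕ × X × ℕ → (X →₀ ℕ), wt h (population ξ x₀ (n + 1)) =
      ∑' x, ∑' j, (if j < population ξ x₀ n x then 1 else 0) * wt h (ξ (n, x, j)) := by
    intro ξ
    simp only [population]
    rw [Finsupp.sum, wt_sum]
    simp only [wt_sum]
    exact key _ _
  have h2 : ∀ ξ : ℕ × X × ℕ → (X →₀ ℕ), wt (meanWt μ h) (population ξ x₀ n) =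
      ∑' x, ∑' j, (if j < population ξ x₀ n x then 1 else 0) * meanWt μ h x := by
    intro ξ
    rw [← key]
    unfold wt
    rw [tsum_eq_sum (s := (population ξ x₀ n).support)]
    · apply sum_congr rfl
      intro x _
      rw [sum_const, card_range, nsmul_eq_mul]
    · intro x hx
      rw [Finsupp.notMem_support_iff] at hx
      rw [hx]; simp
  simp only [h1, h2]
  have m1 : ∀ (x : X) (j : ℕ), Measurable (fun ξ : ℕ × X × ℕ → (X →₀ ℕ) =>
      (if j < population ξ x₀ n x then (1 : ℝ≥0∞) else 0)) := fun x j =>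
    (measurable_of_countable (fun η : X →₀ ℕ => if j < η x then (1 : ℝ≥0∞) else 0)).comp
      (measurable_population x₀ n)
  have m2 : ∀ (x : X) (j : ℕ), Measurable (fun ξ : ℕ × X × ℕ → (X →₀ ℕ) =>
      wt h (ξ (n, x, j))) := fun x j =>
    (measurable_of_countable (wt h)).comp (measurable_pi_apply _)
  have m3 : ∀ (x : X) (j : ℕ), Measurable (fun ξ : ℕ × X × ℕ → (X →₀ ℕ) =>
      (if j < population ξ x₀ n x then (1 : ℝ≥0∞) else 0) * wt h (ξ (n, x, j))) := fun x j =>
    (m1 x j).mul (m2 x j)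
  have m4 : ∀ (x : X) (j : ℕ), Measurable (fun ξ : ℕ × X × ℕ → (X →₀ ℕ) =>
      (if j < population ξ x₀ n x then (1 : ℝ≥0∞) else 0) * meanWt μ h x) := fun x j =>
    (m1 x j).mul measurable_const
  have m5 : ∀ (x : X), Measurable (fun ξ : ℕ × X × ℕ → (X →₀ ℕ) =>
      ∑' j, (if j < population ξ x₀ n x then (1 : ℝ≥0∞) else 0) * wt h (ξ (n, x, j))) := fun x =>
    Measurable.tsum (m3 x)
  have m6 : ∀ (x : X), Measurable (fun ξ : ℕ × X × ℕ → (X →₀ ℕ) =>
      ∑' j, (if j < population ξ x₀ n x then (1 : ℝ≥0∞) else 0) * meanWt μ h x) := fun x =>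
    Measurable.tsum (m4 x)
  rw [lintegral_tsum (fun x => (m5 x).aemeasurable), lintegral_tsum (fun x => (m6 x).aemeasurable)]
  congr 1
  ext x
  rw [lintegral_tsum (fun j => (m3 x j).aemeasurable),
    lintegral_tsum (fun j => (m4 x j).aemeasurable)]
  congr 1
  ext j
  rw [lintegral_mul_const _ (m1 x j)]
  have hind := (indep_population μ x₀ n x j).comp
    (measurable_of_countable (fun η : X →₀ ℕ => if j < η x then (1 : ℝ≥0∞) else 0))
    (measurable_of_countable (wt h))
  have h3 := lintegral_mul_eq_lintegral_mul_lintegral_of_indepFun (m1 x j) (m2 x j) hind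
  simp only [Pi.mul_apply] at h3
  rw [h3]
  congr 1
  exact lintegral_offspring μ (n, x, j) (wt h)

end first_moment

end Pool.Agent.X142.BRW
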