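import Mathlib

/-!
The discrete time operator `T = 1 + H/2`, `H = Δ + ξ` on `ℤ` (with Dirichlet condition outside a
set): total positivity, log-convexity, growth, and eventual monotonicity of `(T^n u₀)(x)` in `n`.
-/

open Finset

namespace Pool.Agent.X142.PAM

open Classical in
/-- `(1+ξ(w))/2 f(w) + (f(w+1) + f(w-1))/4` for `w ∈ S` and `0` otherwise. -/
noncomputable def opFun (ξ : ℤ → ℝ) (S : Set ℤ) (f : ℤ → ℝ) (w : ℤ) : ℝ :=
  if w ∈ S then (1 + ξ w) / 2 * f w + 1 / 4 * (f (w + 1) + f (w - 1)) else 0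

lemma opFun_mem (ξ : ℤ → ℝ) {S : Set ℤ} (f : ℤ → ℝ) {w : ℤ} (hw : w ∈ S) :
    opFun ξ S f w = (1 + ξ w) / 2 * f w + 1 / 4 * (f (w + 1) + f (w - 1)) := by
  unfold opFun
  exact if_pos hw

lemma opFun_not_mem (ξ : ℤ → ℝ) {S : Set ℤ} (f : ℤ → ℝ) {w : ℤ} (hw : w ∉ S) :
    opFun ξ S f w = 0 := by
  unfold opFun
  exact if_neg hw

/-- `T f (w) = (1+ξ(w))/2 f(w) + (f(w+1) + f(w-1))/4` for `w ∈ S` and `0` otherwise. -/
noncomputable def T (ξ : ℤ → ℝ) (S : Set ℤ) : Module.End ℝ (ℤ → ℝ) where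
  toFun := opFun ξ S
  map_add' f g := by
    funext w
    by_cases hw : w ∈ S
    · simp only [Pi.add_apply, opFun_mem ξ _ hw]; ring
    · simp only [Pi.add_apply, opFun_not_mem ξ _ hw]; ring
  map_smul' c f := by
    funext w
    by_cases hw : w ∈ S
    · simp only [Pi.smul_apply, smul_eq_mul, RingHom.id_apply, opFun_mem ξ _ hw]; ring
    · simp only [Pi.smul_apply, smul_eq_mul, RingHom.id_apply, opFun_not_mem ξ _ hw]; ring

variable {ξ : ℤ → ℝ} {S : Set ℤ}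

lemma T_mem (f : ℤ → ℝ) {w : ℤ} (hw : w ∈ S) :
    T ξ S f w = (1 + ξ w) / 2 * f w + 1 / 4 * (f (w + 1) + f (w - 1)) := opFun_mem ξ f hw

lemma T_not_mem (f : ℤ → ℝ) {w : ℤ} (hw : w ∉ S) : T ξ S f w = 0 := opFun_not_mem ξ f hw

lemma T_univ (f : ℤ → ℝ) (w : ℤ) :
    T ξ Set.univ f w = (1 + ξ w) / 2 * f w + 1 / 4 * (f (w + 1) + f (w - 1)) :=
  T_mem f (Set.mem_univ w)

lemma Tpow_succ (n : ℕ) (f : ℤ → ℝ) : (T ξ S ^ (n + 1)) f = T ξ S ((T ξ S ^ n) f) := by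
  rw [pow_succ', Module.End.mul_apply]

lemma Tpow_zero (f : ℤ → ℝ) : (T ξ S ^ 0) f = f := by simp

lemma Tpow_add (m n : ℕ) (f : ℤ → ℝ) :
    (T ξ S ^ (m + n)) f = (T ξ S ^ m) ((T ξ S ^ n) f) := by
  rw [pow_add, Module.End.mul_apply]

section positivity

variable (hξ : ∀ w, 0 ≤ ξ w)

include hξ

lemma T_nonneg {f : ℤ → ℝ} (hf : ∀ w, 0 ≤ f w) (w : ℤ) : 0 ≤ T ξ S f w := by
  by_cases hw : w ∈ S
  · rw [T_mem f hw]
    have := hf w; have := hf (w + 1); have := hf (w - 1); have := hξ w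
    positivity
  · rw [T_not_mem f hw]

lemma T_mono {f g : ℤ → ℝ} (hfg : ∀ w, f w ≤ g w) (w : ℤ) : T ξ S f w ≤ T ξ S g w := by
  have h := T_nonneg (S := S) hξ (f := g - f) (fun w => by simpa using hfg w) w
  rw [map_sub, Pi.sub_apply] at h
  linarith

lemma Tpow_nonneg (n : ℕ) {f : ℤ → ℝ} (hf : ∀ w, 0 ≤ f w) : ∀ w, 0 ≤ (T ξ S ^ n) f w := by
  induction n with
  | zero => simpa using hf
  | succ n ih => intro w; rw [Tpow_succ]; exact T_nonneg hξ ih w

lemma Tpow_mono (n : ℕ) {f g : ℤ → ℝ} (hfg : ∀ w, f w ≤ g w) :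
    ∀ w, (T ξ S ^ n) f w ≤ (T ξ S ^ n) g w := by
  induction n with
  | zero => simpa using hfg
  | succ n ih => intro w; rw [Tpow_succ, Tpow_succ]; exact T_mono hξ ih w

/-- Enlarging the domain increases the operator. -/
lemma Tpow_le_univ (n : ℕ) {f g : ℤ → ℝ} (hf : ∀ w, 0 ≤ f w) (hfg : ∀ w, f w ≤ g w) :
    ∀ w, (T ξ S ^ n) f w ≤ (T ξ Set.univ ^ n) g w := by
  induction n with
  | zero => simpa using hfg
  | succ n ih =>
    intro w
    rw [Tpow_succ, Tpow_succ]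
    have h0 : ∀ w, 0 ≤ (T ξ Set.univ ^ n) g w :=
      Tpow_nonneg hξ n (fun w => (hf w).trans (hfg w))
    by_cases hw : w ∈ S
    · rw [T_mem _ hw, T_univ]
      have := hξ w
      have := ih w; have := ih (w + 1); have := ih (w - 1)
      gcongr
    · rw [T_not_mem _ hw]
      exact T_nonneg hξ h0 w

end positivity

section total_positivity

/-- `φ / ψ` is nonincreasing (in cross-multiplied form). -/
def TP (φ ψ : ℤ → ℝ) : Prop := ∀ w z, w < z → φ z * ψ w ≤ φ w * ψ z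

lemma TP_T (hξ : ∀ w, 0 ≤ ξ w) {z₀ : ℤ} {φ ψ : ℤ → ℝ}
    (h : TP φ ψ) : TP (T ξ (Set.Iic z₀) φ) (T ξ (Set.Iic z₀) ψ) := by
  intro w z hwz
  by_cases hz : z ∈ Set.Iic z₀
  · have hw : w ∈ Set.Iic z₀ := by
      simp only [Set.mem_Iic] at *
      omega
    rw [T_mem _ hz, T_mem _ hz, T_mem _ hw, T_mem _ hw]
    set bw := (1 + ξ w) / 2 with hbw
    set bz := (1 + ξ z) / 2 with hbz
    have hbw1 : 1 / 2 ≤ bw := by have := hξ w; rw [hbw]; linarith
    have hbz1 : 1 / 2 ≤ bz := by have := hξ z; rw [hbz]; linarith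
    have D : ∀ a b, a ≤ b → 0 ≤ φ a * ψ b - φ b * ψ a := by
      intro a b hab
      rcases hab.eq_or_lt with hab | hab
      · rw [hab]; linarith
      · have := h a b hab; linarith
    have key : (bw * φ w + 1 / 4 * (φ (w + 1) + φ (w - 1))) *
        (bz * ψ z + 1 / 4 * (ψ (z + 1) + ψ (z - 1))) -
        (bz * φ z + 1 / 4 * (φ (z + 1) + φ (z - 1))) *
        (bw * ψ w + 1 / 4 * (ψ (w + 1) + ψ (w - 1))) =
        bw * bz * (φ w * ψ z - φ z * ψ w) +
        1 / 4 * bw * (φ w * ψ (z + 1) - φ (z + 1) * ψ w) +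
        1 / 4 * bw * (φ w * ψ (z - 1) - φ (z - 1) * ψ w) +
        1 / 4 * bz * (φ (w + 1) * ψ z - φ z * ψ (w + 1)) +
        1 / 4 * bz * (φ (w - 1) * ψ z - φ z * ψ (w - 1)) +
        1 / 16 * (φ (w + 1) * ψ (z + 1) - φ (z + 1) * ψ (w + 1)) +
        1 / 16 * (φ (w + 1) * ψ (z - 1) - φ (z - 1) * ψ (w + 1)) +
        1 / 16 * (φ (w - 1) * ψ (z + 1) - φ (z + 1) * ψ (w - 1)) +
        1 / 16 * (φ (w - 1) * ψ (z - 1) - φ (z - 1) * ψ (w - 1)) := by ring
    have hbw0 : 0 ≤ bw := by linarith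
    have hbz0 : 0 ≤ bz := by linarith
    have h1 := D w z hwz.le
    have h2 := mul_nonneg hbw0 (D w (z + 1) (by omega))
    have h3 := mul_nonneg hbw0 (D w (z - 1) (by omega))
    have h4 := mul_nonneg hbz0 (D (w + 1) z (by omega))
    have h5 := mul_nonneg hbz0 (D (w - 1) z (by omega))
    have h6 := D (w + 1) (z + 1) (by omega)
    have h8 := D (w - 1) (z + 1) (by omega)
    have h9 := D (w - 1) (z - 1) (by omega)
    have h10 : 1 / 4 * (φ w * ψ z - φ z * ψ w) ≤ bw * bz * (φ w * ψ z - φ z * ψ w) := by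
      apply mul_le_mul_of_nonneg_right _ h1
      nlinarith
    by_cases hz2 : w + 2 ≤ z
    · have h7 := D (w + 1) (z - 1) (by omega)
      nlinarith
    · have hz3 : z = w + 1 := by omega
      subst hz3
      rw [show w + 1 - 1 = w by ring] at *
      nlinarith
  · rw [T_not_mem _ hz, T_not_mem _ hz]
    simp

/-- The unit mass at `p`. -/
noncomputable def δ (p : ℤ) : ℤ → ℝ := Pi.single p 1

lemma δ_nonneg (p w : ℤ) : 0 ≤ δ p w := by
  unfold δ
  by_cases h : w = p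
  · subst h; simp
  · simp [h]

lemma δ_self (p : ℤ) : δ p p = 1 := by simp [δ]

lemma δ_ne {p w : ℤ} (h : w ≠ p) : δ p w = 0 := by simp [δ, h]

lemma TP_base {z₀ : ℤ} {φ : ℤ → ℝ} (hφ : ∀ w, 0 ≤ φ w) (hs : ∀ w, z₀ < w → φ w = 0) :
    TP φ (δ z₀) := by
  intro w z hwz
  by_cases hw : w = z₀
  · rw [hs z (by omega)]
    simp only [zero_mul]
    exact mul_nonneg (hφ w) (δ_nonneg _ _)
  · rw [δ_ne hw, mul_zero]
    exact mul_nonneg (hφ w) (δ_nonneg _ _)

lemma TP_pow (hξ : ∀ w, 0 ≤ ξ w) {z₀ : ℤ} {φ : ℤ → ℝ} (hφ : ∀ w, 0 ≤ φ w)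
    (hs : ∀ w, z₀ < w → φ w = 0) (n : ℕ) :
    TP ((T ξ (Set.Iic z₀) ^ n) φ) ((T ξ (Set.Iic z₀) ^ n) (δ z₀)) := by
  induction n with
  | zero => simpa using TP_base hφ hs
  | succ n ih => rw [Tpow_succ, Tpow_succ]; exact TP_T hξ ih

lemma Tpow_support {z₀ : ℤ} {φ : ℤ → ℝ} (hs : ∀ w, z₀ < w → φ w = 0) (n : ℕ) :
    ∀ w, z₀ < w → (T ξ (Set.Iic z₀) ^ n) φ w = 0 := by
  intro w hw
  cases n with
  | zero => simpa using hs w hw
  | succ n => rw [Tpow_succ, T_not_mem]; simpa using hw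

/-- Ratio comparison at the end point. -/
lemma ratio_le (hξ : ∀ w, 0 ≤ ξ w) {z₀ : ℤ} {φ : ℤ → ℝ} (hφ : ∀ w, 0 ≤ φ w)
    (hs : ∀ w, z₀ < w → φ w = 0) (n : ℕ) :
    (T ξ (Set.Iic z₀) ^ (n + 1)) (δ z₀) z₀ * (T ξ (Set.Iic z₀) ^ n) φ z₀ ≤
      (T ξ (Set.Iic z₀) ^ (n + 1)) φ z₀ * (T ξ (Set.Iic z₀) ^ n) (δ z₀) z₀ := by
  have hm : z₀ ∈ Set.Iic z₀ := Set.mem_Iic.mpr le_rfl
  rw [Tpow_succ, Tpow_succ, T_mem _ hm, T_mem _ hm]
  have h1 := Tpow_support (ξ := ξ) hs n (z₀ + 1) (by omega)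
  have h2 := Tpow_support (ξ := ξ) (φ := δ z₀) (z₀ := z₀)
    (fun w hw => δ_ne (by omega)) n (z₀ + 1) (by omega)
  have h3 := TP_pow hξ hφ hs n (z₀ - 1) z₀ (by omega)
  rw [h1, h2]
  nlinarith

end total_positivity

section growth

lemma le_Tpow_shift (hξ : ∀ w, 0 ≤ ξ w) {f : ℤ → ℝ} (hf : ∀ w, 0 ≤ f w) {z₀ : ℤ} (m : ℕ) :
    ∀ p w : ℤ, p ≤ z₀ → w ≤ z₀ → (w - p).natAbs ≤ m →
      (1 / 4) ^ m * f p ≤ (T ξ (Set.Iic z₀) ^ m) f w := by
  induction m with
  | zero =>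
    intro p w hp hw h
    have : w = p := by omega
    subst this
    simp
  | succ m ih =>
    intro p w hp hw h
    rw [Tpow_succ, T_mem _ (Set.mem_Iic.mpr hw)]
    have h0 := Tpow_nonneg (S := Set.Iic z₀) hξ m hf
    have hξw := hξ w
    have a1 := h0 w; have a2 := h0 (w + 1); have a3 := h0 (w - 1)
    have h4 : (1 / 4 : ℝ) ^ (m + 1) * f p = 1 / 4 * ((1 / 4) ^ m * f p) := by ring
    rw [h4]
    by_cases h1 : (w - p).natAbs ≤ m
    · have := ih p w hp hw h1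
      nlinarith
    · rcases lt_or_ge w p with h2 | h2
      · have := ih p (w + 1) hp (by omega) (by omega)
        nlinarith
      · have := ih p (w - 1) hp (by omega) (by omega)
        nlinarith

lemma le_Tpow_shift_univ (hξ : ∀ w, 0 ≤ ξ w) {f : ℤ → ℝ} (hf : ∀ w, 0 ≤ f w) (p w : ℤ) :
    (1 / 4) ^ (w - p).natAbs * f p ≤ (T ξ Set.univ ^ (w - p).natAbs) f w :=
  (le_Tpow_shift hξ hf (z₀ := max p w) _ p w (le_max_left _ _) (le_max_right _ _) le_rfl).trans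
    (Tpow_le_univ hξ _ hf (fun _ => le_rfl) w)

/-- The Dirichlet end point sequence is unbounded. -/
lemma unbounded_end {ε : ℝ} (hε : 0 < ε) (hξ : ∀ w, ε ≤ ξ w) (z₀ : ℤ) (M : ℝ) :
    ∃ n, M < (T ξ (Set.Iic z₀) ^ n) (δ z₀) z₀ := by
  have hξ0 : ∀ w, 0 ≤ ξ w := fun w => hε.le.trans (hξ w)
  obtain ⟨L, hL⟩ := exists_nat_gt (1 + 2 / ε)
  have hL1 : (1 : ℝ) < L := by
    have : 0 < 2 / ε := by positivity
    linarith
  have hL1' : 1 < L := by exact_mod_cast hL1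
  -- the test function
  set j : ℤ → ℝ := fun w => ((z₀ + 1 - w : ℤ) : ℝ) with hj
  set s : ℤ → ℝ := fun w => if 1 ≤ z₀ + 1 - w ∧ z₀ + 1 - w ≤ L then j w * (L - j w) else 0 with hs
  have hs0 : ∀ w, 0 ≤ s w := by
    intro w
    simp only [hs]
    split_ifs with h
    · have h1 : (1 : ℝ) ≤ j w := by simp only [hj]; exact_mod_cast h.1
      have h2 : j w ≤ L := by simp only [hj]; exact_mod_cast h.2
      apply mul_nonneg <;> linarith
    · exact le_rfl
  have hformula : ∀ w, 0 ≤ z₀ + 1 - w → z₀ + 1 - w ≤ L → s w = j w * (L - j w) := by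
    intro w h1 h2
    simp only [hs]
    by_cases h3 : 1 ≤ z₀ + 1 - w
    · rw [if_pos ⟨h3, h2⟩]
    · rw [if_neg (fun h => h3 h.1)]
      have : z₀ + 1 - w = 0 := by omega
      have h4 : j w = 0 := by simp only [hj]; rw [this]; simp
      rw [h4, zero_mul]
  set lam : ℝ := 1 + ε / 4 with hlam
  have hsub : ∀ w, lam * s w ≤ T ξ (Set.Iic z₀) s w := by
    intro w
    by_cases h : 1 ≤ z₀ + 1 - w ∧ z₀ + 1 - w + 1 ≤ L
    · have hw : w ∈ Set.Iic z₀ := by simp only [Set.mem_Iic]; omega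
      rw [T_mem _ hw, hformula w (by omega) (by omega), hformula (w + 1) (by omega) (by omega),
        hformula (w - 1) (by omega) (by omega)]
      have e1 : j (w + 1) = j w - 1 := by simp only [hj]; push_cast; ring
      have e2 : j (w - 1) = j w + 1 := by simp only [hj]; push_cast; ring
      rw [e1, e2]
      have h1 : (1 : ℝ) ≤ j w := by simp only [hj]; exact_mod_cast h.1
      have h2 : j w + 1 ≤ L := by simp only [hj]; exact_mod_cast h.2
      have h3 : (L : ℝ) - 1 ≤ j w * (L - j w) := by nlinarith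
      have h4 : 2 / ε < L - 1 := by linarith
      have h5 : 2 < ε * (L - 1) := by
        rw [div_lt_iff₀ hε] at h4
        linarith
      have h6 : 0 ≤ j w * (L - j w) := by nlinarith
      have h7 := hξ w
      have h8 : ε * (L - 1) ≤ ε * (j w * (L - j w)) := mul_le_mul_of_nonneg_left h3 hε.le
      have h9 : ε * (j w * (L - j w)) ≤ ξ w * (j w * (L - j w)) :=
        mul_le_mul_of_nonneg_right h7 h6
      rw [hlam]
      nlinarith
    · have : s w = 0 := by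
        simp only [hs]
        split_ifs with h'
        · have : z₀ + 1 - w = L := by omega
          have h4 : j w = L := by simp only [hj]; rw [this]; simp
          rw [h4, sub_self, mul_zero]
        · rfl
      rw [this, mul_zero]
      exact T_nonneg hξ0 hs0 w
  have hpow : ∀ n w, lam ^ n * s w ≤ (T ξ (Set.Iic z₀) ^ n) s w := by
    intro n
    induction n with
    | zero => intro w; simp
    | succ n ih =>
      intro w
      rw [Tpow_succ]
      have h1 : T ξ (Set.Iic z₀) (lam ^ n • s) w ≤ T ξ (Set.Iic z₀) ((T ξ (Set.Iic z₀) ^ n) s) w :=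
        T_mono hξ0 (fun w => by simpa using ih w) w
      rw [map_smul, Pi.smul_apply, smul_eq_mul] at h1
      have hl : 0 ≤ lam ^ n := by positivity
      have h2 := mul_le_mul_of_nonneg_left (hsub w) hl
      calc lam ^ (n + 1) * s w = lam ^ n * (lam * s w) := by ring
        _ ≤ lam ^ n * T ξ (Set.Iic z₀) s w := h2
        _ ≤ _ := h1
  -- comparison of the test function with an iterate of the unit mass
  set C : ℝ := (L : ℝ) ^ 2 * 4 ^ L with hC
  have hC0 : 0 < C := by positivity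
  have hcomp : ∀ w, s w ≤ (C • (T ξ (Set.Iic z₀) ^ L) (δ z₀)) w := by
    intro w
    have hnn := Tpow_nonneg (S := Set.Iic z₀) hξ0 L (δ_nonneg z₀) w
    rw [Pi.smul_apply, smul_eq_mul]
    simp only [hs]
    split_ifs with h
    · have h1 := le_Tpow_shift (ξ := ξ) hξ0 (f := δ z₀) (δ_nonneg z₀) (z₀ := z₀) L z₀ w le_rfl
        (by omega) (by omega)
      rw [δ_self, mul_one] at h1
      have h2 : (1 : ℝ) ≤ j w := by simp only [hj]; exact_mod_cast h.1
      have h3 : j w ≤ L := by simp only [hj]; exact_mod_cast h.2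
      have h4 : j w * (L - j w) ≤ (L : ℝ) ^ 2 := by nlinarith
      calc j w * (L - j w) ≤ (L : ℝ) ^ 2 := h4
        _ = C * (1 / 4) ^ L := by
            rw [hC, mul_assoc, ← mul_pow]; norm_num
        _ ≤ _ := mul_le_mul_of_nonneg_left h1 hC0.le
    · positivity
  have hs1 : s z₀ = L - 1 := by
    rw [hformula z₀ (by omega) (by omega)]
    have : j z₀ = 1 := by simp [hj]
    rw [this]; ring
  have hs1' : 0 < s z₀ := by rw [hs1]; linarith
  have hlam1 : 1 < lam := by rw [hlam]; linarith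
  obtain ⟨n, hn⟩ := pow_unbounded_of_one_lt (M * C / s z₀) hlam1
  refine ⟨n + L, ?_⟩
  have h1 : (T ξ (Set.Iic z₀) ^ n) s z₀ ≤ C * (T ξ (Set.Iic z₀) ^ (n + L)) (δ z₀) z₀ := by
    have := Tpow_mono (S := Set.Iic z₀) hξ0 n hcomp z₀
    rw [map_smul, Pi.smul_apply, smul_eq_mul, ← Tpow_add] at this
    exact this
  have h2 := hpow n z₀
  rw [div_lt_iff₀ hs1'] at hn
  have h3 : M * C < C * (T ξ (Set.Iic z₀) ^ (n + L)) (δ z₀) z₀ := by linarith
  nlinarith

end growth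

end Pool.Agent.X142.PAM
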