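import Mathlib
import Pool.Agent.X142.PAMDisc

/-!
Eventual monotonicity of `(T^n u₀)(x)` in `n`.
-/

open Finset

namespace Pool.Agent.X142.PAM

variable {ξ : ℤ → ℝ}

/-- Unbounded log-convex positive sequences are eventually nondecreasing. -/
lemma eventually_mono_of_logconvex {a : ℕ → ℝ} (hpos : ∀ n, 0 < a n)
    (hlc : ∀ n, a (n + 1) ^ 2 ≤ a n * a (n + 2)) (hunb : ∀ M, ∃ n, M < a n) :
    ∃ N, ∀ n, N ≤ n → a n ≤ a (n + 1) := by
  have h1 : ∃ N, a N ≤ a (N + 1) := by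
    by_contra hcon
    push Not at hcon
    have h2 : ∀ n, a n ≤ a 0 := by
      intro n
      induction n with
      | zero => exact le_rfl
      | succ n ih => exact (hcon n).le.trans ih
    obtain ⟨n, hn⟩ := hunb (a 0)
    exact absurd (h2 n) (not_le.mpr hn)
  obtain ⟨N, hN⟩ := h1
  refine ⟨N, fun n hn => ?_⟩
  induction n, hn using Nat.le_induction with
  | base => exact hN
  | succ n hn ih =>
    have h3 := hlc n
    have h4 := hpos n
    have h5 := hpos (n + 1)
    have h6 := hpos (n + 2)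
    have h7 : a (n + 1) * a (n + 1) ≤ a (n + 1) * a (n + 2) := by nlinarith
    exact le_of_mul_le_mul_left h7 h5

section endpoint

/-- The end point sequence is positive. -/
lemma end_pos (hξ : ∀ w, 0 ≤ ξ w) (z₀ : ℤ) (n : ℕ) :
    0 < (T ξ (Set.Iic z₀) ^ n) (δ z₀) z₀ := by
  have := le_Tpow_shift (ξ := ξ) hξ (δ_nonneg z₀) (z₀ := z₀) n z₀ z₀ le_rfl le_rfl (by simp)
  rw [δ_self, mul_one] at this
  exact lt_of_lt_of_le (by positivity) this

lemma end_logconvex (hξ : ∀ w, 0 ≤ ξ w) (z₀ : ℤ) (n : ℕ) :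
    ((T ξ (Set.Iic z₀) ^ (n + 1)) (δ z₀) z₀) ^ 2 ≤
      (T ξ (Set.Iic z₀) ^ n) (δ z₀) z₀ * (T ξ (Set.Iic z₀) ^ (n + 2)) (δ z₀) z₀ := by
  have h := ratio_le (ξ := ξ) hξ (z₀ := z₀) (φ := T ξ (Set.Iic z₀) (δ z₀))
    (fun w => T_nonneg hξ (δ_nonneg z₀) w) (fun w hw => T_not_mem _ (by simpa using hw)) n
  have e1 : (T ξ (Set.Iic z₀) ^ n) (T ξ (Set.Iic z₀) (δ z₀)) =
      (T ξ (Set.Iic z₀) ^ (n + 1)) (δ z₀) := by
    rw [pow_succ, Module.End.mul_apply]
  have e2 : (T ξ (Set.Iic z₀) ^ (n + 1)) (T ξ (Set.Iic z₀) (δ z₀)) =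
      (T ξ (Set.Iic z₀) ^ (n + 2)) (δ z₀) := by
    rw [pow_succ _ (n + 1), Module.End.mul_apply]
  rw [e1, e2] at h
  nlinarith

/-- Beyond a time which does not depend on `φ`, the end point values are nondecreasing. -/
lemma end_mono {ε : ℝ} (hε : 0 < ε) (hξ : ∀ w, ε ≤ ξ w) (z₀ : ℤ) :
    ∃ N, ∀ n, N ≤ n → ∀ φ : ℤ → ℝ, (∀ w, 0 ≤ φ w) → (∀ w, z₀ < w → φ w = 0) →
      (T ξ (Set.Iic z₀) ^ n) φ z₀ ≤ (T ξ (Set.Iic z₀) ^ (n + 1)) φ z₀ := by
  have hξ0 : ∀ w, 0 ≤ ξ w := fun w => hε.le.trans (hξ w)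
  obtain ⟨N, hN⟩ := eventually_mono_of_logconvex
    (a := fun n => (T ξ (Set.Iic z₀) ^ n) (δ z₀) z₀) (end_pos hξ0 z₀) (end_logconvex hξ0 z₀)
    (unbounded_end hε hξ z₀)
  refine ⟨N, fun n hn φ hφ hs => ?_⟩
  have h1 := ratio_le hξ0 hφ hs n
  have h2 := hN n hn
  have h3 := end_pos hξ0 z₀ n
  have h4 := Tpow_nonneg (S := Set.Iic z₀) hξ0 n hφ z₀
  have h5 : (T ξ (Set.Iic z₀) ^ n) (δ z₀) z₀ * (T ξ (Set.Iic z₀) ^ n) φ z₀ ≤
      (T ξ (Set.Iic z₀) ^ n) (δ z₀) z₀ * (T ξ (Set.Iic z₀) ^ (n + 1)) φ z₀ := by nlinarith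
  exact le_of_mul_le_mul_left h5 h3

end endpoint

section inner

/-- Pairing of functions on `ℤ`. -/
noncomputable def ip (f g : ℤ → ℝ) : ℝ := ∑' w, f w * g w

lemma summable_mul {f : ℤ → ℝ} (hf : f.support.Finite) (g : ℤ → ℝ) :
    Summable (fun w => f w * g w) := by
  apply summable_of_finite_support
  exact hf.subset (fun w hw => by
    simp only [Function.mem_support] at *
    exact left_ne_zero_of_mul hw)

lemma shift_support {f : ℤ → ℝ} (hf : f.support.Finite) (c : ℤ) :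
    (fun w => f (w + c)).support.Finite := by
  have : (fun w => f (w + c)).support = (fun w => w + c) ⁻¹' f.support := by
    ext w; simp
  rw [this]
  exact hf.preimage (add_left_injective c).injOn

lemma T_support {f : ℤ → ℝ} (hf : f.support.Finite) : (T ξ Set.univ f).support.Finite := by
  apply (hf.union ((shift_support hf 1).union (shift_support hf (-1)))).subset
  intro w hw
  simp only [Function.mem_support, Set.mem_union] at *
  by_contra hcon
  push Not at hcon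
  obtain ⟨h1, h2, h3⟩ := hcon
  apply hw
  rw [T_univ, h1, h2, show w - 1 = w + -1 by ring, h3]
  ring

lemma Tpow_fin_support {f : ℤ → ℝ} (hf : f.support.Finite) (n : ℕ) :
    ((T ξ Set.univ ^ n) f).support.Finite := by
  induction n with
  | zero => simpa using hf
  | succ n ih => rw [Tpow_succ]; exact T_support ih

lemma δ_support (x : ℤ) : (δ x).support.Finite := by
  apply (Set.finite_singleton x).subset
  intro w hw
  by_contra h
  exact hw (δ_ne h)

lemma ip_δ (x : ℤ) (g : ℤ → ℝ) : ip (δ x) g = g x := by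
  unfold ip
  rw [tsum_eq_single x]
  · rw [δ_self, one_mul]
  · intro w hw
    rw [δ_ne hw, zero_mul]

lemma ip_T {f : ℤ → ℝ} (hf : f.support.Finite) (g : ℤ → ℝ) :
    ip (T ξ Set.univ f) g = ip f (T ξ Set.univ g) := by
  unfold ip
  have s0 : Summable (fun w => f w * ((1 + ξ w) / 2 * g w)) := summable_mul hf _
  have s1 : Summable (fun w => f (w + 1) * g w) := summable_mul (shift_support hf 1) g
  have s2 : Summable (fun w => f (w - 1) * g w) := by
    have := summable_mul (shift_support hf (-1)) g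
    simpa [sub_eq_add_neg] using this
  have s3 : Summable (fun w => f w * g (w + 1)) := summable_mul hf _
  have s4 : Summable (fun w => f w * g (w - 1)) := summable_mul hf _
  have e1 : ∑' w, f (w + 1) * g w = ∑' w, f w * g (w - 1) := by
    rw [← (Equiv.addRight (1 : ℤ)).tsum_eq (fun w => f w * g (w - 1))]
    congr 1; ext w; simp
  have e2 : ∑' w, f (w - 1) * g w = ∑' w, f w * g (w + 1) := by
    rw [← (Equiv.addRight (-1 : ℤ)).tsum_eq (fun w => f w * g (w + 1))]
    congr 1; ext w; simp [sub_eq_add_neg]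
  calc ∑' w, T ξ Set.univ f w * g w
      = ∑' w, (f w * ((1 + ξ w) / 2 * g w) + 1 / 4 * (f (w + 1) * g w + f (w - 1) * g w)) := by
        congr 1; ext w; rw [T_univ]; ring
    _ = ∑' w, f w * ((1 + ξ w) / 2 * g w) +
          1 / 4 * (∑' w, f (w + 1) * g w + ∑' w, f (w - 1) * g w) := by
        rw [s0.tsum_add ((s1.add s2).mul_left _), tsum_mul_left, s1.tsum_add s2]
    _ = ∑' w, f w * ((1 + ξ w) / 2 * g w) +
          1 / 4 * (∑' w, f w * g (w + 1) + ∑' w, f w * g (w - 1)) := by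
        rw [e1, e2]; ring
    _ = ∑' w, (f w * ((1 + ξ w) / 2 * g w) + 1 / 4 * (f w * g (w + 1) + f w * g (w - 1))) := by
        rw [s0.tsum_add ((s3.add s4).mul_left _), tsum_mul_left, s3.tsum_add s4]
    _ = ∑' w, f w * T ξ Set.univ g w := by
        congr 1; ext w; rw [T_univ]; ring

lemma ip_Tpow {f : ℤ → ℝ} (hf : f.support.Finite) (m : ℕ) : ∀ g : ℤ → ℝ,
    ip ((T ξ Set.univ ^ m) f) g = ip f ((T ξ Set.univ ^ m) g) := by
  induction m with
  | zero => intro g; simp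
  | succ m ih =>
    intro g
    rw [Tpow_succ, ip_T (Tpow_fin_support hf m), ih, pow_succ, Module.End.mul_apply]

lemma ip_self_nonneg (f : ℤ → ℝ) : 0 ≤ ip f f := tsum_nonneg fun w => mul_self_nonneg _

lemma ip_T_nonneg (hξ : ∀ w, 0 ≤ ξ w) {f : ℤ → ℝ} (hf : f.support.Finite) :
    0 ≤ ip f (T ξ Set.univ f) := by
  unfold ip
  have s0 : Summable (fun w => f w * f w) := summable_mul hf _
  have s0' : Summable (fun w => f w * (ξ w * f w)) := summable_mul hf _
  have s3 : Summable (fun w => f w * f (w + 1)) := summable_mul hf _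
  have s4 : Summable (fun w => f w * f (w - 1)) := summable_mul hf _
  have s5 : Summable (fun w => f (w + 1) * f (w + 1)) := summable_mul (shift_support hf 1) _
  have e1 : ∑' w, f w * f (w - 1) = ∑' w, f w * f (w + 1) := by
    rw [← (Equiv.addRight (1 : ℤ)).tsum_eq (fun w => f w * f (w - 1))]
    congr 1; ext w; simp [mul_comm]
  have e2 : ∑' w, f (w + 1) * f (w + 1) = ∑' w, f w * f w :=
    (Equiv.addRight (1 : ℤ)).tsum_eq (fun w => f w * f w)
  calc (0 : ℝ) ≤ ∑' w, (1 / 4 * ((f w + f (w + 1)) * (f w + f (w + 1))) +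
        1 / 2 * (f w * (ξ w * f w))) := by
        apply tsum_nonneg
        intro w
        have h1 := mul_self_nonneg (f w + f (w + 1))
        have h2 := mul_nonneg (hξ w) (mul_self_nonneg (f w))
        nlinarith
    _ = ∑' w, (1 / 4 * (f w * f w) + (1 / 4 * (f (w + 1) * f (w + 1)) +
          (1 / 2 * (f w * f (w + 1)) + 1 / 2 * (f w * (ξ w * f w))))) := by
        congr 1; ext w; ring
    _ = 1 / 4 * ∑' w, f w * f w + (1 / 4 * ∑' w, f (w + 1) * f (w + 1) +
          (1 / 2 * ∑' w, f w * f (w + 1) + 1 / 2 * ∑' w, f w * (ξ w * f w))) := by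
        rw [(s0.mul_left _).tsum_add ((s5.mul_left _).add ((s3.mul_left _).add (s0'.mul_left _))),
          (s5.mul_left _).tsum_add ((s3.mul_left _).add (s0'.mul_left _)),
          (s3.mul_left _).tsum_add (s0'.mul_left _), tsum_mul_left, tsum_mul_left, tsum_mul_left,
          tsum_mul_left]
    _ = 1 / 2 * ∑' w, f w * f w + (1 / 2 * ∑' w, f w * (ξ w * f w) +
          (1 / 4 * ∑' w, f w * f (w + 1) + 1 / 4 * ∑' w, f w * f (w - 1))) := by
        rw [e1, e2]; ring
    _ = ∑' w, (1 / 2 * (f w * f w) + (1 / 2 * (f w * (ξ w * f w)) +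
          (1 / 4 * (f w * f (w + 1)) + 1 / 4 * (f w * f (w - 1))))) := by
        rw [(s0.mul_left _).tsum_add ((s0'.mul_left _).add ((s3.mul_left _).add (s4.mul_left _))),
          (s0'.mul_left _).tsum_add ((s3.mul_left _).add (s4.mul_left _)),
          (s3.mul_left _).tsum_add (s4.mul_left _), tsum_mul_left, tsum_mul_left, tsum_mul_left,
          tsum_mul_left]
    _ = ∑' w, f w * T ξ Set.univ f w := by
        congr 1; ext w; rw [T_univ]; ring

/-- Quadratic forms that are nonnegative have nonpositive discriminant. -/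
lemma sq_le_of_forall {A B C : ℝ} (hC : 0 < C) (h : ∀ s : ℝ, 0 ≤ A + 2 * s * B + s ^ 2 * C) :
    B ^ 2 ≤ A * C := by
  have h1 := h (-B / C)
  have h2 : A + 2 * (-B / C) * B + (-B / C) ^ 2 * C = (A * C - B ^ 2) / C := by
    field_simp
    ring
  rw [h2] at h1
  have h3 : 0 ≤ A * C - B ^ 2 := by
    by_contra hneg
    push Not at hneg
    exact absurd h1 (not_le.mpr (div_neg_of_neg_of_pos hneg hC))
  linarith

/-- The diagonal sequence `k_n = (T^n δ_x)(x)`. -/
noncomputable def kdiag (ξ : ℤ → ℝ) (x : ℤ) (n : ℕ) : ℝ := (T ξ Set.univ ^ n) (δ x) x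

lemma ip_pow_pow (x : ℤ) (m n : ℕ) :
    ip ((T ξ Set.univ ^ m) (δ x)) ((T ξ Set.univ ^ n) (δ x)) = kdiag ξ x (m + n) := by
  rw [ip_Tpow (δ_support x), ip_δ, kdiag, Tpow_add]

lemma kdiag_pos (hξ : ∀ w, 0 ≤ ξ w) (x : ℤ) (n : ℕ) : 0 < kdiag ξ x n :=
  lt_of_lt_of_le (end_pos hξ x n) (Tpow_le_univ hξ n (δ_nonneg x) (fun _ => le_rfl) x)

lemma kdiag_logconvex (hξ : ∀ w, 0 ≤ ξ w) (x : ℤ) (n : ℕ) :
    kdiag ξ x (n + 1) ^ 2 ≤ kdiag ξ x n * kdiag ξ x (n + 2) := by
  apply sq_le_of_forall (kdiag_pos hξ x _)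
  intro s
  have expand : ∀ (p q p' q' : ℤ → ℝ), p.support.Finite → q.support.Finite →
      ip (p + s • q) (p' + s • q') = ip p p' + s * ip p q' + s * ip q p' + s ^ 2 * ip q q' := by
    intro p q p' q' hp hq
    unfold ip
    have s1 := summable_mul hp p'
    have s2 := summable_mul hp q'
    have s3 := summable_mul hq p'
    have s4 := summable_mul hq q'
    calc ∑' w, (p + s • q) w * (p' + s • q') w
        = ∑' w, (p w * p' w + (s * (p w * q' w) + (s * (q w * p' w) + s ^ 2 * (q w * q' w)))) := by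
          congr 1; ext w
          simp only [Pi.add_apply, Pi.smul_apply, smul_eq_mul]; ring
      _ = _ := by
          rw [s1.tsum_add ((s2.mul_left _).add ((s3.mul_left _).add (s4.mul_left _))),
            (s2.mul_left _).tsum_add ((s3.mul_left _).add (s4.mul_left _)),
            (s3.mul_left _).tsum_add (s4.mul_left _), tsum_mul_left, tsum_mul_left, tsum_mul_left]
          ring
  have hs := fun m => Tpow_fin_support (ξ := ξ) (δ_support x) m
  rcases Nat.even_or_odd' n with ⟨m, rfl | rfl⟩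
  · have h := ip_self_nonneg ((T ξ Set.univ ^ m) (δ x) + s • (T ξ Set.univ ^ (m + 1)) (δ x))
    rw [expand _ _ _ _ (hs m) (hs (m + 1)), ip_pow_pow, ip_pow_pow, ip_pow_pow, ip_pow_pow] at h
    have e1 : m + m = 2 * m := by ring
    have e2 : m + (m + 1) = 2 * m + 1 := by ring
    have e3 : m + 1 + m = 2 * m + 1 := by ring
    have e4 : m + 1 + (m + 1) = 2 * m + 2 := by ring
    rw [e1, e2, e3, e4] at h
    linarith
  · have hfin : ((T ξ Set.univ ^ m) (δ x) + s • (T ξ Set.univ ^ (m + 1)) (δ x)).support.Finite := by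
      apply ((hs m).union (hs (m + 1))).subset
      intro w hw
      simp only [Function.mem_support, Set.mem_union, Pi.add_apply, Pi.smul_apply,
        smul_eq_mul] at *
      by_contra hcon
      push Not at hcon
      rw [hcon.1, hcon.2] at hw
      simp at hw
    have h := ip_T_nonneg hξ hfin
    rw [map_add, map_smul, ← Tpow_succ, ← Tpow_succ, expand _ _ _ _ (hs m) (hs (m + 1)),
      ip_pow_pow, ip_pow_pow, ip_pow_pow, ip_pow_pow] at h
    have e1 : m + (m + 1) = 2 * m + 1 := by ring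
    have e2 : m + (m + 1 + 1) = 2 * m + 1 + 1 := by ring
    have e3 : m + 1 + (m + 1) = 2 * m + 1 + 1 := by ring
    have e4 : m + 1 + (m + 1 + 1) = 2 * m + 1 + 2 := by ring
    rw [e1, e2, e3, e4] at h
    linarith

lemma kdiag_unbounded {ε : ℝ} (hε : 0 < ε) (hξ : ∀ w, ε ≤ ξ w) (x : ℤ) (M : ℝ) :
    ∃ n, M < kdiag ξ x n := by
  obtain ⟨n, hn⟩ := unbounded_end hε hξ x M
  exact ⟨n, lt_of_lt_of_le hn (Tpow_le_univ (fun w => hε.le.trans (hξ w)) n (δ_nonneg x)
    (fun _ => le_rfl) x)⟩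

lemma kdiag_mono {ε : ℝ} (hε : 0 < ε) (hξ : ∀ w, ε ≤ ξ w) (x : ℤ) :
    ∃ N, ∀ n, N ≤ n → kdiag ξ x n ≤ kdiag ξ x (n + 1) :=
  eventually_mono_of_logconvex (kdiag_pos (fun w => hε.le.trans (hξ w)) x)
    (kdiag_logconvex (fun w => hε.le.trans (hξ w)) x) (kdiag_unbounded hε hξ x)

end inner

section decomposition

/-- The end point sequence on the left of `x`. -/
noncomputable def aL (ξ : ℤ → ℝ) (x : ℤ) (n : ℕ) : ℝ :=
  (T ξ (Set.Iic (x - 1)) ^ n) (δ (x - 1)) (x - 1)

/-- Restriction to `(-∞, x-1]`. -/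
noncomputable def cutL (x : ℤ) (f : ℤ → ℝ) (w : ℤ) : ℝ := if w ≤ x - 1 then f w else 0

/-- Contribution of the initial condition on the left of `x`. -/
noncomputable def gL (ξ : ℤ → ℝ) (x : ℤ) (f : ℤ → ℝ) (n : ℕ) : ℝ :=
  (T ξ (Set.Iic (x - 1)) ^ n) (cutL x f) (x - 1)

lemma cutL_step (x : ℤ) (f : ℤ → ℝ) :
    cutL x (T ξ Set.univ f) = T ξ (Set.Iic (x - 1)) (cutL x f) + (1 / 4 * f x) • δ (x - 1) := by
  funext w
  simp only [cutL, Pi.add_apply, Pi.smul_apply, smul_eq_mul]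
  by_cases hw : w ≤ x - 1
  · rw [if_pos hw, T_univ, T_mem _ (Set.mem_Iic.mpr hw)]
    simp only [cutL]
    rw [if_pos hw, if_pos (by omega : w - 1 ≤ x - 1)]
    by_cases hw2 : w = x - 1
    · rw [if_neg (by omega : ¬ (w + 1 ≤ x - 1)), hw2, δ_self]
      rw [show x - 1 + 1 = x by ring]
      ring
    · rw [if_pos (by omega : w + 1 ≤ x - 1), δ_ne hw2]
      ring
  · rw [if_neg hw, T_not_mem _ (by simpa using hw), δ_ne (by omega)]
    ring

lemma cutL_pow (x : ℤ) (f : ℤ → ℝ) (n : ℕ) :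
    cutL x ((T ξ Set.univ ^ n) f) = (T ξ (Set.Iic (x - 1)) ^ n) (cutL x f) +
      ∑ j ∈ range n, (1 / 4 * (T ξ Set.univ ^ (n - 1 - j)) f x) •
        (T ξ (Set.Iic (x - 1)) ^ j) (δ (x - 1)) := by
  induction n with
  | zero => simp
  | succ n ih =>
    rw [Tpow_succ, cutL_step, ih, map_add, map_sum, ← Tpow_succ, add_assoc]
    congr 1
    rw [sum_range_succ']
    have e0 : n + 1 - 1 - 0 = n := by omega
    rw [e0, Tpow_zero]
    congr 1
    apply sum_congr rfl
    intro j _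
    rw [map_smul, ← Tpow_succ]
    have : n + 1 - 1 - (j + 1) = n - 1 - j := by omega
    rw [this]

/-- Decomposition of the value at `x - 1` according to the last visit to `x`. -/
lemma left_value (x : ℤ) (f : ℤ → ℝ) (n : ℕ) :
    (T ξ Set.univ ^ n) f (x - 1) = gL ξ x f n +
      1 / 4 * ∑ j ∈ range n, aL ξ x j * (T ξ Set.univ ^ (n - 1 - j)) f x := by
  have h := congrFun (cutL_pow (ξ := ξ) x f n) (x - 1)
  have h0 : cutL x ((T ξ Set.univ ^ n) f) (x - 1) = (T ξ Set.univ ^ n) f (x - 1) := by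
    simp [cutL]
  rw [h0, Pi.add_apply, Finset.sum_apply] at h
  rw [h, gL, Finset.mul_sum]
  congr 1
  apply sum_congr rfl
  intro j _
  simp only [Pi.smul_apply, smul_eq_mul, aL]
  ring

/-- Reflection. -/
def refl (f : ℤ → ℝ) : ℤ → ℝ := fun w => f (-w)

lemma T_refl (f : ℤ → ℝ) : T (refl ξ) Set.univ (refl f) = refl (T ξ Set.univ f) := by
  funext w
  simp only [refl]
  rw [T_univ, T_univ]
  simp only [refl]
  rw [show -(w + 1) = -w - 1 by ring, show -(w - 1) = -w + 1 by ring]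
  ring

lemma Tpow_refl (f : ℤ → ℝ) (n : ℕ) :
    (T (refl ξ) Set.univ ^ n) (refl f) = refl ((T ξ Set.univ ^ n) f) := by
  induction n with
  | zero => simp
  | succ n ih => rw [Tpow_succ, Tpow_succ, ih, T_refl]

lemma right_value (x : ℤ) (f : ℤ → ℝ) (n : ℕ) :
    (T ξ Set.univ ^ n) f (x + 1) = gL (refl ξ) (-x) (refl f) n +
      1 / 4 * ∑ j ∈ range n, aL (refl ξ) (-x) j * (T ξ Set.univ ^ (n - 1 - j)) f x := by
  have h := left_value (ξ := refl ξ) (-x) (refl f) n
  simp only [Tpow_refl] at h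
  simp only [refl] at h
  rw [show -(-x - 1) = x + 1 by ring, show - -x = x by ring] at h
  exact h

open PowerSeries in
/-- Generating function identity: `v = k * (u₀(x) + X g)`. -/
lemma last_exit {v k g κ : ℕ → ℝ} {b v0 : ℝ} (hv0 : v 0 = v0) (hk0 : k 0 = 1)
    (hv : ∀ n, v (n + 1) = b * v n + g n + 1 / 16 * ∑ j ∈ range n, κ j * v (n - 1 - j))
    (hk : ∀ n, k (n + 1) = b * k n + 1 / 16 * ∑ j ∈ range n, κ j * k (n - 1 - j)) (n : ℕ) :
    v (n + 1) = v0 * k (n + 1) + ∑ j ∈ range (n + 1), k j * g (n - j) := by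
  have hconv : ∀ (c : ℕ → ℝ) (n : ℕ), ∑ j ∈ range n, κ j * c (n - 1 - j) =
      coeff n (X * (PowerSeries.mk κ * PowerSeries.mk c)) := by
    intro c n
    cases n with
    | zero => simp
    | succ n =>
      rw [coeff_succ_X_mul, coeff_mul, Finset.Nat.sum_antidiagonal_eq_sum_range_succ_mk]
      simp
  have e1 : (PowerSeries.mk v : PowerSeries ℝ) = C v0 + X * (C b * PowerSeries.mk v + PowerSeries.mk g +
      C (1 / 16) * (X * (PowerSeries.mk κ * PowerSeries.mk v))) := by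
    ext n
    cases n with
    | zero => simp [hv0]
    | succ n =>
      rw [map_add, coeff_succ_X_mul, map_add, map_add, coeff_C_mul, coeff_C_mul, ← hconv v n,
        coeff_mk, coeff_mk, coeff_mk, hv n, coeff_C]
      simp
  have e2 : (PowerSeries.mk k : PowerSeries ℝ) = 1 + X * (C b * PowerSeries.mk k + C (1 / 16) * (X * (PowerSeries.mk κ * PowerSeries.mk k))) := by
    ext n
    cases n with
    | zero => simp [hk0]
    | succ n =>
      rw [map_add, coeff_succ_X_mul, map_add, coeff_C_mul, coeff_C_mul, ← hconv k n,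
        coeff_mk, coeff_mk, hk n, coeff_one]
      simp
  have e3 : (PowerSeries.mk v : PowerSeries ℝ) = PowerSeries.mk k * (C v0 + X * PowerSeries.mk g) := by
    set D : PowerSeries ℝ := 1 - X * (C b + C (1 / 16) * (X * PowerSeries.mk κ)) with hD
    have h1 : D * PowerSeries.mk k = 1 := by
      have : D * PowerSeries.mk k = PowerSeries.mk k - X * (C b * PowerSeries.mk k + C (1 / 16) * (X * (PowerSeries.mk κ * PowerSeries.mk k))) := by
        rw [hD]; ring
      rw [this]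
      nth_rewrite 1 [e2]
      ring
    have h2 : D * PowerSeries.mk v = C v0 + X * PowerSeries.mk g := by
      have : D * PowerSeries.mk v = PowerSeries.mk v - X * (C b * PowerSeries.mk v + C (1 / 16) * (X * (PowerSeries.mk κ * PowerSeries.mk v))) := by
        rw [hD]; ring
      rw [this]
      nth_rewrite 1 [e1]
      ring
    calc (PowerSeries.mk v : PowerSeries ℝ) = (D * PowerSeries.mk k) * PowerSeries.mk v := by rw [h1, one_mul]
      _ = PowerSeries.mk k * (D * PowerSeries.mk v) := by ring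
      _ = _ := by rw [h2]
  have h4 := congrArg (coeff (n + 1)) e3
  rw [coeff_mk] at h4
  rw [h4]
  have e5 : (PowerSeries.mk k : PowerSeries ℝ) * (C v0 + X * PowerSeries.mk g) = C v0 * PowerSeries.mk k + X * (PowerSeries.mk k * PowerSeries.mk g) := by ring
  rw [e5, map_add, coeff_C_mul, coeff_mk, coeff_succ_X_mul, coeff_mul,
    Finset.Nat.sum_antidiagonal_eq_sum_range_succ_mk]
  simp

/-- The convolution of nonnegative eventually nondecreasing sequences is eventually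
nondecreasing. -/
lemma conv_mono {k g : ℕ → ℝ} (hk : ∀ n, 0 ≤ k n) (hg : ∀ n, 0 ≤ g n) {N : ℕ}
    (hkm : ∀ n, N ≤ n → k n ≤ k (n + 1)) (hgm : ∀ n, N ≤ n → g n ≤ g (n + 1)) (n : ℕ)
    (hn : 2 * N ≤ n) :
    ∑ j ∈ range (n + 1), k j * g (n - j) ≤ ∑ j ∈ range (n + 1 + 1), k j * g (n + 1 - j) := by
  have h1 : ∑ j ∈ range (n + 1), k j * g (n - j) =
      ∑ j ∈ range N, k j * g (n - j) + ∑ i ∈ range (n + 1 - N), k (N + i) * g (n - (N + i)) := by
    rw [← Finset.sum_range_add_sum_Ico _ (by omega : N ≤ n + 1), Finset.sum_Ico_eq_sum_range]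
  have h2 : ∑ j ∈ range (n + 1 + 1), k j * g (n + 1 - j) =
      ∑ j ∈ range N, k j * g (n + 1 - j) +
        (∑ i ∈ range (n + 1 - N), k (N + (i + 1)) * g (n + 1 - (N + (i + 1))) +
          k (N + 0) * g (n + 1 - (N + 0))) := by
    rw [← Finset.sum_range_add_sum_Ico _ (by omega : N ≤ n + 1 + 1), Finset.sum_Ico_eq_sum_range,
      show n + 1 + 1 - N = (n + 1 - N) + 1 by omega, Finset.sum_range_succ']
  rw [h1, h2]
  apply add_le_add
  · apply sum_le_sum
    intro j hj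
    have hj := mem_range.mp hj
    have := hgm (n - j) (by omega)
    rw [show n + 1 - j = n - j + 1 by omega]
    exact mul_le_mul_of_nonneg_left this (hk j)
  · have h3 : ∑ i ∈ range (n + 1 - N), k (N + i) * g (n - (N + i)) ≤
        ∑ i ∈ range (n + 1 - N), k (N + (i + 1)) * g (n + 1 - (N + (i + 1))) := by
      apply sum_le_sum
      intro i _
      rw [show n + 1 - (N + (i + 1)) = n - (N + i) by omega]
      have := hkm (N + i) (by omega)
      exact mul_le_mul_of_nonneg_right this (hg _)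
    have h4 := mul_nonneg (hk (N + 0)) (hg (n + 1 - (N + 0)))
    linarith

lemma gL_nonneg (hξ : ∀ w, 0 ≤ ξ w) (x : ℤ) {f : ℤ → ℝ} (hf : ∀ w, 0 ≤ f w) (n : ℕ) :
    0 ≤ gL ξ x f n := by
  apply Tpow_nonneg hξ
  intro w
  unfold cutL
  split_ifs
  · exact hf w
  · exact le_rfl

lemma gL_mono {ε : ℝ} (hε : 0 < ε) (hξ : ∀ w, ε ≤ ξ w) (x : ℤ) :
    ∃ N, ∀ n, N ≤ n → ∀ f : ℤ → ℝ, (∀ w, 0 ≤ f w) → gL ξ x f n ≤ gL ξ x f (n + 1) := by
  obtain ⟨N, hN⟩ := end_mono hε hξ (x - 1)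
  refine ⟨N, fun n hn f hf => hN n hn (cutL x f) ?_ ?_⟩
  · intro w
    unfold cutL
    split_ifs
    · exact hf w
    · exact le_rfl
  · intro w hw
    unfold cutL
    rw [if_neg (by omega)]

/-- **Discrete eventual monotonicity.**  For `ξ ≥ ε > 0` and every site `x` there is `N` such that
for all `n ≥ N` and all nonnegative `f`, `(T^n f)(x) ≤ (T^(n+1) f)(x)`. -/
theorem discrete_mono {ε : ℝ} (hε : 0 < ε) (hξ : ∀ w, ε ≤ ξ w) (x : ℤ) :
    ∃ N, ∀ n, N ≤ n → ∀ f : ℤ → ℝ, (∀ w, 0 ≤ f w) →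
      (T ξ Set.univ ^ n) f x ≤ (T ξ Set.univ ^ (n + 1)) f x := by
  have hξ0 : ∀ w, 0 ≤ ξ w := fun w => hε.le.trans (hξ w)
  have hξ0' : ∀ w, 0 ≤ refl ξ w := fun w => hξ0 _
  obtain ⟨N1, hN1⟩ := kdiag_mono hε hξ x
  obtain ⟨N2, hN2⟩ := gL_mono hε hξ x
  obtain ⟨N3, hN3⟩ := gL_mono (ξ := refl ξ) hε (fun w => hξ _) (-x)
  set N := max N1 (max N2 N3) with hN
  refine ⟨2 * N + 1, fun n hn f hf => ?_⟩
  have hf' : ∀ w, 0 ≤ refl f w := fun w => hf _
  set κ : ℕ → ℝ := fun j => aL ξ x j + aL (refl ξ) (-x) j with hκ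
  set g : ℕ → ℝ := fun j => 1 / 4 * (gL ξ x f j + gL (refl ξ) (-x) (refl f) j) with hg
  have step : ∀ (h : ℤ → ℝ) (n : ℕ), (T ξ Set.univ ^ (n + 1)) h x =
      (1 + ξ x) / 2 * (T ξ Set.univ ^ n) h x +
        1 / 4 * (gL ξ x h n + gL (refl ξ) (-x) (refl h) n) +
        1 / 16 * ∑ j ∈ range n, κ j * (T ξ Set.univ ^ (n - 1 - j)) h x := by
    intro h n
    rw [Tpow_succ, T_univ, left_value, right_value, hκ]
    simp only [add_mul, Finset.sum_add_distrib]
    ring
  have hδ : ∀ n, gL ξ x (δ x) n + gL (refl ξ) (-x) (refl (δ x)) n = 0 := by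
    intro n
    have h1 : cutL x (δ x) = 0 := by
      funext w
      unfold cutL
      split_ifs with h
      · exact δ_ne (by omega)
      · rfl
    have h2 : cutL (-x) (refl (δ x)) = 0 := by
      funext w
      unfold cutL
      split_ifs with h
      · exact δ_ne (by omega)
      · rfl
    unfold gL
    rw [h1, h2, map_zero, map_zero]
    simp
  have hv := last_exit (v := fun n => (T ξ Set.univ ^ n) f x) (k := kdiag ξ x) (g := g) (κ := κ)
    (b := (1 + ξ x) / 2) (v0 := f x) (by simp) (by simp [kdiag, δ_self]) (fun n => step f n)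
    (fun n => by
      have := step (δ x) n
      rw [hδ n] at this
      unfold kdiag
      rw [this]; ring)
  have hk : ∀ n, 0 ≤ kdiag ξ x n := fun n => (kdiag_pos hξ0 x n).le
  have hgn : ∀ n, 0 ≤ g n := fun n => by
    have := gL_nonneg hξ0 x hf n
    have := gL_nonneg hξ0' (-x) hf' n
    simp only [hg]
    positivity
  have hkm : ∀ n, N ≤ n → kdiag ξ x n ≤ kdiag ξ x (n + 1) := fun n hn =>
    hN1 n (le_trans (le_max_left _ _) hn)
  have hgm : ∀ n, N ≤ n → g n ≤ g (n + 1) := fun n hn => by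
    have h1 := hN2 n (le_trans ((le_max_left _ _).trans (le_max_right _ _)) hn) f hf
    have h2 := hN3 n (le_trans ((le_max_right _ _).trans (le_max_right _ _)) hn) (refl f) hf'
    simp only [hg]
    linarith
  obtain ⟨m, rfl⟩ : ∃ m, n = m + 1 := ⟨n - 1, by omega⟩
  have h1 := hv m
  have h2 := hv (m + 1)
  rw [h1, h2]
  have h3 := conv_mono hk hgn hkm hgm m (by omega)
  have h4 := mul_le_mul_of_nonneg_left (hkm (m + 1) (by omega)) (hf x)
  linarith

/-- For nonzero nonnegative `f` the sequence `(T^n f)(x)` is unbounded. -/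
theorem discrete_unbounded {ε : ℝ} (hε : 0 < ε) (hξ : ∀ w, ε ≤ ξ w) (x p : ℤ) {f : ℤ → ℝ}
    (hf : ∀ w, 0 ≤ f w) (hp : 0 < f p) (M : ℝ) : ∃ n, M < (T ξ Set.univ ^ n) f x := by
  have hξ0 : ∀ w, 0 ≤ ξ w := fun w => hε.le.trans (hξ w)
  set m := (x - p).natAbs with hm
  set c : ℝ := (1 / 4) ^ m * f p with hc
  have hc0 : 0 < c := by positivity
  obtain ⟨n, hn⟩ := kdiag_unbounded hε hξ p (M / c)
  refine ⟨m + n, ?_⟩
  have h1 : ∀ w, (f p • δ p) w ≤ f w := by
    intro w
    simp only [Pi.smul_apply, smul_eq_mul]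
    by_cases h : w = p
    · rw [h, δ_self, mul_one]
    · rw [δ_ne h, mul_zero]; exact hf w
  have h2 := Tpow_mono (S := Set.univ) hξ0 n h1 p
  rw [map_smul, Pi.smul_apply, smul_eq_mul] at h2
  have h3 := le_Tpow_shift_univ hξ0 (Tpow_nonneg (S := Set.univ) hξ0 n hf) p x
  rw [← hm, ← Tpow_add] at h3
  rw [div_lt_iff₀ hc0] at hn
  have h4 : (1 / 4 : ℝ) ^ m * (f p * kdiag ξ p n) ≤ (1 / 4) ^ m * (T ξ Set.univ ^ n) f p :=
    mul_le_mul_of_nonneg_left h2 (by positivity)
  calc M < kdiag ξ p n * c := hn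
    _ = (1 / 4 : ℝ) ^ m * (f p * kdiag ξ p n) := by rw [hc]; ring
    _ ≤ _ := h4.trans h3

end decomposition

end Pool.Agent.X142.PAM
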