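import Mathlib
import Pool.Agent.X142.Chain

/-!
Directed polymers driven by a Markov chain: definitions and the second moment bound when the
expected number of collisions of two independent copies is bounded.
-/

open Finset MeasureTheory ProbabilityTheory
open scoped ENNReal

namespace Pool.Agent.X142.Polymer

variable {V : Type}

/-- `env (i, x)`, `i ≥ 1`, is an i.i.d. environment with mean `0`, variance `1` and finite
exponential moments. -/
structure IsEnvironment {Ω : Type} [MeasurableSpace Ω] (Q : Measure Ω) (env : ℕ × V → Ω → ℝ) :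
    Prop where
  prob : IsProbabilityMeasure Q
  meas : ∀ p, Measurable (env p)
  indep : iIndepFun env Q
  ident : ∀ p p', IdentDistrib (env p) (env p') Q Q
  integrable : ∀ p, Integrable (env p) Q
  mean : ∀ p, ∫ ω, env p ω ∂Q = 0
  integrable_sq : ∀ p, Integrable (fun ω => (env p ω) ^ 2) Q
  variance : ∀ p, ∫ ω, (env p ω) ^ 2 ∂Q = 1
  expMoment : ∀ β : ℝ, 0 < β → ∀ p, Integrable (fun ω => Real.exp (β * env p ω)) Q

/-- The probability that the chain with transition matrix `P` started at `x` follows the path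
`s 0, s 1, ..., s (n-1)` in its first `n` steps. -/
noncomputable def pathProb (P : V → V → ℝ≥0∞) (x : V) {n : ℕ} (s : Fin n → V) : ℝ≥0∞ :=
  ∏ i : Fin n, P ((Fin.cons x s : Fin (n + 1) → V) i.castSucc) (s i)

/-- The partition function `Z_n(x) = E_x[exp(β ∑_{i=1}^n env(i, S_i))]`, as a sum over the possible
values `s` of `(S_1, ..., S_n)`. -/
noncomputable def partitionFn (P : V → V → ℝ≥0∞) {Ω : Type} (env : ℕ × V → Ω → ℝ) (β : ℝ) (n : ℕ)
    (x : V) (ω : Ω) : ℝ≥0∞ :=
  ∑' s : Fin n → V, pathProb P x s *
    ENNReal.ofReal (Real.exp (β * ∑ i : Fin n, env ((i : ℕ) + 1, s i) ω))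

/-- The normalised partition function `W_n(x, β) = Z_n(x) e^{-n Λ(β)}`, where
`Λ(β) = log E[exp(β env(1, x))]` (`cgf` is the cumulant generating function). -/
noncomputable def normalized (P : V → V → ℝ≥0∞) {Ω : Type} [MeasurableSpace Ω] (Q : Measure Ω)
    (env : ℕ × V → Ω → ℝ) (β : ℝ) (n : ℕ) (x : V) (ω : Ω) : ℝ≥0∞ :=
  partitionFn P env β n x ω * ENNReal.ofReal (Real.exp (-(n * cgf (env (1, x)) Q β)))

section paths

variable (P : V → V → ℝ≥0∞)

lemma pathProb_cons (x y : V) {n : ℕ} (s : Fin n → V) :
    pathProb P x (Fin.cons y s : Fin (n + 1) → V) = P x y * pathProb P y s := by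
  unfold pathProb
  rw [Fin.prod_univ_succ]
  congr 1

open Classical in
/-- The two-path sum with weight `r`. -/
noncomputable def pairSum (r : V → V → ℝ≥0∞) (n : ℕ) (x x' : V) : ℝ≥0∞ :=
  ∑' s : Fin n → V, ∑' s' : Fin n → V, pathProb P x s * pathProb P x' s' * ∏ i, r (s i) (s' i)

lemma tsum_cons {n : ℕ} (F : (Fin (n + 1) → V) → ℝ≥0∞) :
    ∑' s, F s = ∑' y : V, ∑' t : Fin n → V, F (Fin.cons y t) := by
  rw [← (Fin.consEquiv (fun _ : Fin (n + 1) => V)).tsum_eq, ENNReal.tsum_prod']
  rfl

lemma pairSum_zero (r : V → V → ℝ≥0∞) (x x' : V) : pairSum P r 0 x x' = 1 := by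
  unfold pairSum pathProb
  simp

lemma pairSum_succ (r : V → V → ℝ≥0∞) (n : ℕ) (x x' : V) :
    pairSum P r (n + 1) x x' =
      ∑' y, ∑' y', P x y * P x' y' * r y y' * pairSum P r n y y' := by
  unfold pairSum
  rw [tsum_cons]
  congr 1
  ext y
  have h1 : ∀ t : Fin n → V, ∑' s' : Fin (n + 1) → V,
      pathProb P x (Fin.cons y t : Fin (n + 1) → V) * pathProb P x' s' *
        ∏ i, r ((Fin.cons y t : Fin (n + 1) → V) i) (s' i) =
      ∑' y', ∑' t' : Fin n → V, P x y * P x' y' * r y y' *
        (pathProb P y t * pathProb P y' t' * ∏ i, r (t i) (t' i)) := by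
    intro t
    rw [tsum_cons]
    congr 1
    ext y'
    congr 1
    ext t'
    rw [pathProb_cons, pathProb_cons, Fin.prod_univ_succ]
    simp only [Fin.cons_zero, Fin.cons_succ]
    ring
  simp only [h1]
  rw [ENNReal.tsum_comm]
  congr 1
  ext y'
  rw [← ENNReal.tsum_mul_left]
  congr 1
  ext t
  rw [ENNReal.tsum_mul_left]

open Chain

/-- Expected number of collisions of two independent copies at positive times. -/
noncomputable def collisions (x x' : V) : ℝ≥0∞ :=
  ∑' k, ∑' y, pw P (k + 1) x y * pw P (k + 1) x' y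

lemma pw_one (x y : V) : pw P 1 x y = P x y := by
  classical
  rw [pw_succ, tsum_eq_single y]
  · simp [pw]
  · intro z hz
    simp [pw, hz]

lemma collisions_eq (x x' : V) : collisions P x x' =
    ∑' y, P x y * P x' y + ∑' z, ∑' z', P x z * P x' z' * collisions P z z' := by
  unfold collisions
  rw [tsum_eq_zero_add' ENNReal.summable]
  congr 1
  · simp only [zero_add, pw_one]
  · have h1 : ∀ k y, pw P (k + 1 + 1) x y * pw P (k + 1 + 1) x' y =
        ∑' z, ∑' z', P x z * P x' z' * (pw P (k + 1) z y * pw P (k + 1) z' y) := by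
      intro k y
      rw [pw_succ P (k + 1) x, pw_succ P (k + 1) x', ← ENNReal.tsum_mul_right]
      congr 1
      ext z
      rw [← ENNReal.tsum_mul_left]
      congr 1
      ext z'
      ring
    simp only [h1]
    have h2 : ∀ k, ∑' y, ∑' z, ∑' z', P x z * P x' z' * (pw P (k + 1) z y * pw P (k + 1) z' y) =
        ∑' z, ∑' z', P x z * P x' z' * ∑' y, (pw P (k + 1) z y * pw P (k + 1) z' y) := by
      intro k
      rw [ENNReal.tsum_comm]
      congr 1
      ext z
      rw [ENNReal.tsum_comm]
      congr 1
      ext z'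
      rw [ENNReal.tsum_mul_left]
    simp only [h2]
    rw [ENNReal.tsum_comm]
    congr 1
    ext z
    rw [ENNReal.tsum_comm]
    congr 1
    ext z'
    rw [ENNReal.tsum_mul_left]

open Classical in
lemma pairSum_le (hP : ∀ x, ∑' y, P x y ≤ 1) {r : V → V → ℝ≥0∞} {a : ℝ≥0∞}
    (hr : ∀ y y', r y y' ≤ 1 + if y = y' then a else 0)
    (ha : ∀ x x', 2 * a * collisions P x x' ≤ 1) (n : ℕ) :
    ∀ x x', pairSum P r n x x' ≤ 1 + 2 * a * collisions P x x' := by
  induction n with
  | zero =>
    intro x x'
    rw [pairSum_zero]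
    exact le_self_add
  | succ n ih =>
    intro x x'
    rw [pairSum_succ]
    calc ∑' y, ∑' y', P x y * P x' y' * r y y' * pairSum P r n y y'
        ≤ ∑' y, ∑' y', (P x y * P x' y' + (if y' = y then 2 * a * (P x y * P x' y) else 0) +
            2 * a * (P x y * P x' y' * collisions P y y')) := by
          apply ENNReal.tsum_le_tsum; intro y
          apply ENNReal.tsum_le_tsum; intro y'
          by_cases hy : y' = y
          · subst hy
            rw [if_pos rfl]
            have h1 := hr y' y'
            rw [if_pos rfl] at h1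
            have h2 : r y' y' * pairSum P r n y' y' ≤ 1 + 2 * a + 2 * a * collisions P y' y' := by
              calc r y' y' * pairSum P r n y' y'
                  ≤ (1 + a) * (1 + 2 * a * collisions P y' y') := mul_le_mul' h1 (ih y' y')
                _ = 1 + (a + a * (2 * a * collisions P y' y')) + 2 * a * collisions P y' y' := by
                    ring
                _ ≤ 1 + (a + a * 1) + 2 * a * collisions P y' y' := by
                    gcongr
                    exact ha y' y'
                _ = 1 + 2 * a + 2 * a * collisions P y' y' := by ring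
            calc P x y' * P x' y' * r y' y' * pairSum P r n y' y'
                = P x y' * P x' y' * (r y' y' * pairSum P r n y' y') := by ring
              _ ≤ P x y' * P x' y' * (1 + 2 * a + 2 * a * collisions P y' y') := by gcongr
              _ = _ := by ring
          · rw [if_neg hy, add_zero]
            have h1 := hr y y'
            rw [if_neg (Ne.symm hy), add_zero] at h1
            calc P x y * P x' y' * r y y' * pairSum P r n y y'
                ≤ P x y * P x' y' * 1 * (1 + 2 * a * collisions P y y') := by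
                  gcongr
                  exact ih y y'
              _ = _ := by ring
      _ = ∑' y, ∑' y', P x y * P x' y' + (∑' y, 2 * a * (P x y * P x' y)) +
            ∑' y, ∑' y', 2 * a * (P x y * P x' y' * collisions P y y') := by
          rw [← ENNReal.tsum_add, ← ENNReal.tsum_add]
          congr 1
          ext y
          rw [ENNReal.tsum_add, ENNReal.tsum_add, tsum_ite_eq]
      _ ≤ 1 + (2 * a * ∑' y, P x y * P x' y) +
            2 * a * ∑' y, ∑' y', P x y * P x' y' * collisions P y y' := by
          gcongr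
          · calc ∑' y, ∑' y', P x y * P x' y' = ∑' y, P x y * ∑' y', P x' y' := by
                  simp only [ENNReal.tsum_mul_left]
              _ ≤ ∑' y, P x y * 1 := ENNReal.tsum_le_tsum fun y => mul_le_mul_right (hP x') _
              _ ≤ 1 := by simpa using hP x
          · rw [ENNReal.tsum_mul_left]
          · simp only [ENNReal.tsum_mul_left]
            exact le_rfl
      _ = 1 + 2 * a * collisions P x x' := by
          rw [collisions_eq P x x']
          ring

end paths

section environment

variable {Ω : Type} [MeasurableSpace Ω] {Q : Measure Ω} {env : ℕ × V → Ω → ℝ}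

/-- Laplace transform of the environment, as an extended nonnegative number. -/
noncomputable def psi (Q : Measure Ω) (env : ℕ × V → Ω → ℝ) (p : ℕ × V) (t : ℝ) : ℝ≥0∞ :=
  ∫⁻ ω, ENNReal.ofReal (Real.exp (t * env p ω)) ∂Q

lemma psi_congr (h : IsEnvironment Q env) (p p' : ℕ × V) (t : ℝ) :
    psi Q env p t = psi Q env p' t := by
  unfold psi
  have h1 := (h.ident p p').comp (u := fun z : ℝ => ENNReal.ofReal (Real.exp (t * z)))
    (by fun_prop)
  exact h1.lintegral_eq

lemma psi_zero (h : IsEnvironment Q env) (p : ℕ × V) : psi Q env p 0 = 1 := by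
  haveI := h.prob
  unfold psi
  simp

lemma integrable_exp (h : IsEnvironment Q env) (p : ℕ × V) {t : ℝ} (ht : 0 ≤ t) :
    Integrable (fun ω => Real.exp (t * env p ω)) Q := by
  haveI := h.prob
  rcases ht.eq_or_lt with h0 | h0
  · rw [← h0]; simp
  · exact h.expMoment t h0 p

lemma psi_eq (h : IsEnvironment Q env) (p : ℕ × V) {t : ℝ} (ht : 0 ≤ t) :
    psi Q env p t = ENNReal.ofReal (mgf (env p) Q t) := by
  unfold psi mgf
  rw [ofReal_integral_eq_lintegral_ofReal (integrable_exp h p ht)
    (ae_of_all _ fun ω => (Real.exp_pos _).le)]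

lemma one_le_mgf (h : IsEnvironment Q env) (p : ℕ × V) {t : ℝ} (ht : 0 ≤ t) :
    1 ≤ mgf (env p) Q t := by
  haveI := h.prob
  unfold mgf
  calc (1 : ℝ) = ∫ ω, (t * env p ω + 1) ∂Q := by
        rw [integral_add ((h.integrable p).const_mul t) (integrable_const _), integral_const_mul,
          h.mean p]
        simp
    _ ≤ ∫ ω, Real.exp (t * env p ω) ∂Q := by
        apply integral_mono
        · exact ((h.integrable p).const_mul t).add (integrable_const _)
        · exact integrable_exp h p ht
        · intro ω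
          exact Real.add_one_le_exp _

lemma mgf_le (h : IsEnvironment Q env) (p : ℕ × V) {t : ℝ} (ht : 0 ≤ t) (ht1 : t ≤ 1) :
    mgf (env p) Q t ≤ 1 + t * mgf (env p) Q 1 := by
  haveI := h.prob
  have h1 : mgf (env p) Q t ≤ ∫ ω, ((1 - t) + t * Real.exp (1 * env p ω)) ∂Q := by
    unfold mgf
    apply integral_mono (integrable_exp h p ht)
    · exact (integrable_const _).add ((integrable_exp h p zero_le_one).const_mul t)
    · intro ω
      have := (convexOn_exp.2 (Set.mem_univ (0 : ℝ)) (Set.mem_univ (env p ω))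
        (sub_nonneg.mpr ht1) ht (by ring))
      simpa using this
  refine h1.trans ?_
  rw [integral_add (integrable_const _) ((integrable_exp h p zero_le_one).const_mul t),
    integral_const_mul]
  unfold mgf
  simp only [integral_const, smul_eq_mul, probReal_univ, one_mul]
  linarith

open Classical in
/-- Expectation of the product of the weights of two paths. -/
lemma lintegral_two_paths (h : IsEnvironment Q env) {β : ℝ} {n : ℕ} (s s' : Fin n → V)
    (p₀ : ℕ × V) :
    ∫⁻ ω, ENNReal.ofReal (Real.exp (β * ∑ i : Fin n, env ((i : ℕ) + 1, s i) ω)) *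
      ENNReal.ofReal (Real.exp (β * ∑ i : Fin n, env ((i : ℕ) + 1, s' i) ω)) ∂Q =
    ∏ i, (if s i = s' i then psi Q env p₀ (2 * β) else psi Q env p₀ β * psi Q env p₀ β) := by
  haveI := h.prob
  set Y : Finset V := univ.image s ∪ univ.image s' with hY
  have hs : ∀ i, s i ∈ Y := fun i => mem_union_left _ (mem_image_of_mem s (mem_univ i))
  have hs' : ∀ i, s' i ∈ Y := fun i => mem_union_right _ (mem_image_of_mem s' (mem_univ i))
  set m : Fin n × V → ℝ := fun p => β * ((if p.2 = s p.1 then 1 else 0) +
    (if p.2 = s' p.1 then 1 else 0)) with hm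
  have hind : iIndepFun (fun (p : Fin n × V) ω =>
      ENNReal.ofReal (Real.exp (m p * env ((p.1 : ℕ) + 1, p.2) ω))) Q := by
    have h1 : iIndepFun (fun (p : Fin n × V) => env ((p.1 : ℕ) + 1, p.2)) Q := by
      apply h.indep.precomp (g := fun p : Fin n × V => (((p.1 : ℕ) + 1, p.2) : ℕ × V))
      rintro ⟨i, y⟩ ⟨i', y'⟩ hii
      simp only [Prod.mk.injEq, Nat.add_right_cancel_iff] at hii
      ext1
      · exact Fin.ext hii.1
      · exact hii.2
    exact h1.comp (fun p z => ENNReal.ofReal (Real.exp (m p * z))) (fun p => by fun_prop)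
  have hprod : ∀ ω, ENNReal.ofReal (Real.exp (β * ∑ i : Fin n, env ((i : ℕ) + 1, s i) ω)) *
      ENNReal.ofReal (Real.exp (β * ∑ i : Fin n, env ((i : ℕ) + 1, s' i) ω)) =
      ∏ p ∈ (univ : Finset (Fin n)) ×ˢ Y,
        ENNReal.ofReal (Real.exp (m p * env ((p.1 : ℕ) + 1, p.2) ω)) := by
    intro ω
    rw [← ENNReal.ofReal_mul (Real.exp_pos _).le, ← Real.exp_add,
      ← ENNReal.ofReal_prod_of_nonneg (fun p _ => (Real.exp_pos _).le), ← Real.exp_sum,
      Finset.sum_product]
    congr 2
    rw [Finset.mul_sum, Finset.mul_sum, ← Finset.sum_add_distrib]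
    apply Finset.sum_congr rfl
    intro i _
    simp only [hm]
    have e : ∀ y ∈ Y, β * ((if y = s i then 1 else 0) + (if y = s' i then 1 else 0)) *
        env ((i : ℕ) + 1, y) ω = (if y = s i then β * env ((i : ℕ) + 1, y) ω else 0) +
          (if y = s' i then β * env ((i : ℕ) + 1, y) ω else 0) := by
      intro y _
      split_ifs <;> ring
    rw [Finset.sum_congr rfl e, Finset.sum_add_distrib, Finset.sum_ite_eq', Finset.sum_ite_eq',
      if_pos (hs i), if_pos (hs' i)]
  simp only [hprod]
  rw [lintegral_prod_eq_prod_lintegral_of_indepFun _ _ hind]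
  · rw [Finset.prod_product]
    apply Finset.prod_congr rfl
    intro i _
    have e : ∀ y, ∫⁻ ω, ENNReal.ofReal (Real.exp (m (i, y) * env ((i : ℕ) + 1, y) ω)) ∂Q =
        psi Q env p₀ (m (i, y)) := fun y => psi_congr h _ _ _
    rw [Finset.prod_congr rfl (fun y _ => e y)]
    by_cases hii : s i = s' i
    · rw [if_pos hii, Finset.prod_eq_single (s i)]
      · congr 1
        simp only [hm, if_pos rfl, if_pos hii]
        norm_num
        ring
      · intro y _ hy
        have : m (i, y) = 0 := by
          simp only [hm]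
          rw [if_neg hy, if_neg (by rw [← hii]; exact hy)]
          ring
        rw [this, psi_zero h]
      · intro hy; exact absurd (hs i) hy
    · rw [if_neg hii, ← Finset.mul_prod_erase Y _ (hs i),
        ← Finset.mul_prod_erase (Y.erase (s i)) _ (a := s' i)
          (mem_erase.mpr ⟨fun h => hii h.symm, hs' i⟩)]
      have e1 : m (i, s i) = β := by
        simp only [hm]
        rw [if_neg hii]; simp
      have e2 : m (i, s' i) = β := by
        simp only [hm]
        rw [if_neg (Ne.symm hii)]; simp
      rw [e1, e2, Finset.prod_eq_one, mul_one]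
      intro y hy
      have hy1 := ne_of_mem_erase hy
      have hy2 := ne_of_mem_erase (mem_of_mem_erase hy)
      have : m (i, y) = 0 := by
        simp only [hm]
        rw [if_neg hy2, if_neg hy1]
        ring
      rw [this, psi_zero h]
  · intro p
    have := h.meas ((p.1 : ℕ) + 1, p.2)
    fun_prop

open Classical in
lemma lintegral_normalized_sq [Countable V] (P : V → V → ℝ≥0∞) (h : IsEnvironment Q env) {β : ℝ}
    (hβ : 0 ≤ β) (n : ℕ) (x : V) :
    ∫⁻ ω, (normalized P Q env β n x ω) ^ 2 ∂Q =
      pairSum P (fun y y' => (if y = y' then psi Q env (1, x) (2 * β) else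
        psi Q env (1, x) β * psi Q env (1, x) β) * ((psi Q env (1, x) β)⁻¹ ^ 2)) n x x := by
  haveI := h.prob
  set ψ := psi Q env (1, x) β with hψ
  have hψ' : ψ = ENNReal.ofReal (mgf (env (1, x)) Q β) := psi_eq h _ hβ
  have hmgf : 0 < mgf (env (1, x)) Q β := lt_of_lt_of_le zero_lt_one (one_le_mgf h _ hβ)
  have hexp : ENNReal.ofReal (Real.exp (-(n * cgf (env (1, x)) Q β))) = ψ⁻¹ ^ n := by
    unfold cgf
    rw [← mul_neg, ← Real.log_inv, Real.exp_nat_mul, Real.exp_log (inv_pos.mpr hmgf),
      ENNReal.ofReal_pow (inv_pos.mpr hmgf).le, ENNReal.ofReal_inv_of_pos hmgf, hψ']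
  have hsq : ∀ ω, (normalized P Q env β n x ω) ^ 2 =
      ∑' s : Fin n → V, ∑' s' : Fin n → V, (pathProb P x s * pathProb P x s' * (ψ⁻¹ ^ n) ^ 2) *
        (ENNReal.ofReal (Real.exp (β * ∑ i : Fin n, env ((i : ℕ) + 1, s i) ω)) *
          ENNReal.ofReal (Real.exp (β * ∑ i : Fin n, env ((i : ℕ) + 1, s' i) ω))) := by
    intro ω
    unfold normalized partitionFn
    rw [hexp, mul_pow, sq (∑' _, _), ← ENNReal.tsum_mul_right, ← ENNReal.tsum_mul_right]
    congr 1
    ext s
    rw [← ENNReal.tsum_mul_left, ← ENNReal.tsum_mul_right]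
    congr 1
    ext s'
    ring
  simp only [hsq]
  have hmeas : ∀ s : Fin n → V, Measurable (fun ω =>
      ENNReal.ofReal (Real.exp (β * ∑ i : Fin n, env ((i : ℕ) + 1, s i) ω))) := by
    intro s
    have : ∀ i : Fin n, Measurable (env ((i : ℕ) + 1, s i)) := fun i => h.meas _
    fun_prop
  rw [lintegral_tsum]
  · unfold pairSum
    congr 1
    ext s
    rw [lintegral_tsum]
    · congr 1
      ext s'
      have e1 := lintegral_const_mul (μ := Q) (pathProb P x s * pathProb P x s' * (ψ⁻¹ ^ n) ^ 2)
        ((hmeas s).mul (hmeas s'))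
      simp only [Pi.mul_apply] at e1
      rw [e1, lintegral_two_paths h s s' (1, x),
        Finset.prod_mul_distrib, Finset.prod_const, Finset.card_univ, Fintype.card_fin]
      ring
    · intro s'
      exact (((hmeas s).mul (hmeas s')).const_mul _).aemeasurable
  · intro s
    exact (Measurable.tsum fun s' => ((hmeas s).mul (hmeas s')).const_mul _).aemeasurable

/-- If the expected number of collisions of two independent copies of the chain is bounded, the
second moment of the normalised partition function is bounded for small `β`. -/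
theorem second_moment_bounded [Countable V] (P : V → V → ℝ≥0∞) (hP : ∀ x, ∑' y, P x y ≤ 1)
    {K : ℝ≥0∞} (hK : K ≠ ∞) (hcol : ∀ x x', collisions P x x' ≤ K)
    (h : IsEnvironment Q env) :
    ∃ β₀ : ℝ, 0 < β₀ ∧ ∀ β : ℝ, 0 ≤ β → β ≤ β₀ → ∀ (n : ℕ) (x : V),
      ∫⁻ ω, (normalized P Q env β n x ω) ^ 2 ∂Q ≤ 2 := by
  classical
  rcases isEmpty_or_nonempty V with hV | ⟨⟨x₀⟩⟩
  · exact ⟨1, one_pos, fun β _ _ n x => isEmptyElim x⟩
  set M : ℝ := mgf (env (1, x₀)) Q 1 with hM
  have hM1 : 1 ≤ M := one_le_mgf h _ zero_le_one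
  set k : ℝ := K.toReal with hk
  have hk0 : 0 ≤ k := ENNReal.toReal_nonneg
  set a : ℝ := 1 / (2 * (k + 1)) with ha
  have ha0 : 0 < a := by positivity
  set β₀ : ℝ := min (1 / 2) (a / (2 * M)) with hβ₀
  have hβ₀0 : 0 < β₀ := by
    apply lt_min (by norm_num)
    positivity
  refine ⟨β₀, hβ₀0, fun β hβ0 hβ n x => ?_⟩
  rw [lintegral_normalized_sq P h hβ0 n x]
  have hMx : mgf (env (1, x)) Q 1 = M := by
    have := psi_congr h (1, x) (1, x₀) 1
    rw [psi_eq h _ zero_le_one, psi_eq h _ zero_le_one] at this
    have h1 := one_le_mgf h (1, x) zero_le_one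
    rwa [ENNReal.ofReal_eq_ofReal_iff (by linarith) (by linarith)] at this
  have hψ1 : 1 ≤ psi Q env (1, x) β := by
    rw [psi_eq h _ hβ0]
    have := one_le_mgf h (1, x) hβ0
    rw [← ENNReal.ofReal_one]
    exact ENNReal.ofReal_le_ofReal this
  have hψt : psi Q env (1, x) β ≠ ∞ := by
    rw [psi_eq h _ hβ0]; exact ENNReal.ofReal_ne_top
  have hψ0 : psi Q env (1, x) β ≠ 0 := (lt_of_lt_of_le zero_lt_one hψ1).ne'
  have hψ2 : psi Q env (1, x) (2 * β) ≤ 1 + ENNReal.ofReal a := by
    rw [psi_eq h _ (by linarith), ← ENNReal.ofReal_one, ← ENNReal.ofReal_add zero_le_one ha0.le]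
    apply ENNReal.ofReal_le_ofReal
    have h1 : β ≤ 1 / 2 := hβ.trans (min_le_left _ _)
    have h2 : β ≤ a / (2 * M) := hβ.trans (min_le_right _ _)
    have h3 := mgf_le h (1, x) (t := 2 * β) (by linarith) (by linarith)
    rw [hMx] at h3
    have h4 : 2 * β * M ≤ a := by
      rw [le_div_iff₀ (by positivity)] at h2
      linarith
    linarith
  have hacol : ∀ y y', 2 * ENNReal.ofReal a * collisions P y y' ≤ 1 := by
    intro y y'
    calc 2 * ENNReal.ofReal a * collisions P y y' ≤ 2 * ENNReal.ofReal a * K := by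
          gcongr
          exact hcol y y'
      _ = ENNReal.ofReal (2 * a * k) := by
          rw [ENNReal.ofReal_mul (by positivity), ENNReal.ofReal_mul (by norm_num), hk,
            ENNReal.ofReal_toReal hK]
          norm_num
      _ ≤ 1 := by
          rw [ENNReal.ofReal_le_one, ha]
          rw [show 2 * (1 / (2 * (k + 1))) * k = k / (k + 1) by field_simp]
          apply div_le_one_of_le₀ <;> linarith
  have hr : ∀ y y' : V, (if y = y' then psi Q env (1, x) (2 * β) else
        psi Q env (1, x) β * psi Q env (1, x) β) * ((psi Q env (1, x) β)⁻¹ ^ 2) ≤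
        1 + if y = y' then ENNReal.ofReal a else 0 := by
    intro y y'
    split_ifs
    · calc psi Q env (1, x) (2 * β) * ((psi Q env (1, x) β)⁻¹ ^ 2)
          ≤ (1 + ENNReal.ofReal a) * 1 := by
            apply mul_le_mul' hψ2
            apply pow_le_one₀ bot_le
            exact ENNReal.inv_le_one.mpr hψ1
        _ = _ := mul_one _
    · rw [add_zero]
      have : psi Q env (1, x) β * psi Q env (1, x) β * ((psi Q env (1, x) β)⁻¹ ^ 2) =
          (psi Q env (1, x) β * (psi Q env (1, x) β)⁻¹) ^ 2 := by ring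
      rw [this, ENNReal.mul_inv_cancel hψ0 hψt, one_pow]
  refine (pairSum_le P hP hr hacol n x x).trans ?_
  calc 1 + 2 * ENNReal.ofReal a * collisions P x x ≤ 1 + 1 := by
        gcongr
        exact hacol x x
    _ = 2 := by norm_num

end environment

end Pool.Agent.X142.Polymer
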