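import Mathlib

/-!
One-dimensional simple random walk: `k`-step probabilities, upper bound `1/√(k+1)` and lower bound
at the origin; two-dimensional simple random walk in rotated coordinates.
-/

open Finset
open scoped ENNReal

namespace Pool.Agent.X142.Walk1

/-- Number of `±1` paths of length `k` from `0` to `j`. -/
def cnt : ℕ → ℤ → ℕ
  | 0, j => if j = 0 then 1 else 0
  | k + 1, j => cnt k (j - 1) + cnt k (j + 1)

lemma cnt_eq (k : ℕ) : ∀ j : ℤ,
    (∀ i : ℕ, j = 2 * i - k → cnt k j = k.choose i) ∧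
    ((∀ i : ℕ, j ≠ 2 * i - k) → cnt k j = 0) := by
  induction k with
  | zero =>
    intro j
    constructor
    · intro i hi
      simp only [cnt]
      rcases Nat.eq_zero_or_pos i with h | h
      · subst h; simp at hi; simp [hi]
      · rw [Nat.choose_eq_zero_of_lt h, if_neg]
        push_cast at hi
        omega
    · intro h
      have := h 0
      simp only [cnt]
      rw [if_neg]
      simpa using this
  | succ k ih =>
    intro j
    constructor
    · intro i hi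
      simp only [cnt]
      have e2 : cnt k (j + 1) = k.choose i := (ih (j + 1)).1 i (by push_cast at hi; omega)
      rcases Nat.eq_zero_or_pos i with h | h
      · subst h
        have e1 : cnt k (j - 1) = 0 := (ih (j - 1)).2 (by intro i; push_cast at hi; omega)
        rw [e1, e2]; simp
      · obtain ⟨i', rfl⟩ : ∃ i', i = i' + 1 := ⟨i - 1, by omega⟩
        have e1 : cnt k (j - 1) = k.choose i' :=
          (ih (j - 1)).1 i' (by push_cast at hi ⊢; omega)
        rw [e1, e2, Nat.choose_succ_succ]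
    · intro h
      simp only [cnt]
      have e1 : cnt k (j - 1) = 0 := (ih (j - 1)).2 (by
        intro i hi; apply h (i + 1); push_cast; omega)
      have e2 : cnt k (j + 1) = 0 := (ih (j + 1)).2 (by
        intro i hi; apply h i; push_cast; omega)
      rw [e1, e2]

lemma cnt_le (k : ℕ) (j : ℤ) : cnt k j ≤ k.choose (k / 2) := by
  by_cases h : ∃ i : ℕ, j = 2 * i - k
  · obtain ⟨i, hi⟩ := h
    rw [(cnt_eq k j).1 i hi]
    exact Nat.choose_le_middle i k
  · push Not at h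
    rw [(cnt_eq k j).2 h]
    exact Nat.zero_le _

lemma central_upper (m : ℕ) : (2 * m + 1) * (Nat.centralBinom m) ^ 2 ≤ 16 ^ m := by
  induction m with
  | zero => simp
  | succ m ih =>
    have h := Nat.succ_mul_centralBinom_succ m
    have h2 : (m + 1) ^ 2 * ((2 * (m + 1) + 1) * (Nat.centralBinom (m + 1)) ^ 2) ≤
        (m + 1) ^ 2 * 16 ^ (m + 1) := by
      calc (m + 1) ^ 2 * ((2 * (m + 1) + 1) * (Nat.centralBinom (m + 1)) ^ 2)
          = (2 * m + 3) * ((m + 1) * Nat.centralBinom (m + 1)) ^ 2 := by ring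
        _ = (2 * m + 3) * (2 * (2 * m + 1) * Nat.centralBinom m) ^ 2 := by rw [h]
        _ = (4 * (2 * m + 3) * (2 * m + 1)) * ((2 * m + 1) * (Nat.centralBinom m) ^ 2) := by ring
        _ ≤ (4 * (2 * m + 3) * (2 * m + 1)) * 16 ^ m := Nat.mul_le_mul_left _ ih
        _ ≤ (16 * (m + 1) ^ 2) * 16 ^ m := by
            apply Nat.mul_le_mul_right
            nlinarith
        _ = (m + 1) ^ 2 * 16 ^ (m + 1) := by ring
    exact Nat.le_of_mul_le_mul_left h2 (by positivity)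

lemma central_lower (m : ℕ) (hm : 0 < m) : 16 ^ m ≤ 4 * m * (Nat.centralBinom m) ^ 2 := by
  induction m, hm using Nat.le_induction with
  | base => simp [Nat.centralBinom]
  | succ m hm ih =>
    have h := Nat.succ_mul_centralBinom_succ m
    have h2 : (m + 1) * 16 ^ (m + 1) ≤
        (m + 1) * (4 * (m + 1) * (Nat.centralBinom (m + 1)) ^ 2) := by
      calc (m + 1) * 16 ^ (m + 1) = 16 * (m + 1) * 16 ^ m := by ring
        _ ≤ 16 * (m + 1) * (4 * m * (Nat.centralBinom m) ^ 2) := Nat.mul_le_mul_left _ ih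
        _ = 16 * (4 * m * (m + 1)) * (Nat.centralBinom m) ^ 2 := by ring
        _ ≤ 16 * (2 * m + 1) ^ 2 * (Nat.centralBinom m) ^ 2 := by
            apply Nat.mul_le_mul_right
            nlinarith
        _ = 4 * (2 * (2 * m + 1) * Nat.centralBinom m) ^ 2 := by ring
        _ = 4 * ((m + 1) * Nat.centralBinom (m + 1)) ^ 2 := by rw [h]
        _ = (m + 1) * (4 * (m + 1) * (Nat.centralBinom (m + 1)) ^ 2) := by ring
    exact Nat.le_of_mul_le_mul_left h2 (by positivity)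

lemma middle_upper (k : ℕ) : (k + 1) * (k.choose (k / 2)) ^ 2 ≤ 4 ^ k := by
  rcases Nat.even_or_odd' k with ⟨m, rfl | rfl⟩
  · have h := central_upper m
    rw [Nat.mul_div_cancel_left m (by norm_num : 0 < 2)]
    rw [show (4 : ℕ) ^ (2 * m) = 16 ^ m by rw [pow_mul]; norm_num]
    exact h
  · have h := central_upper (m + 1)
    have e : (2 * m + 1) / 2 = m := by omega
    rw [e]
    have h3 : Nat.centralBinom (m + 1) = 2 * (2 * m + 1).choose m := by
      rw [Nat.centralBinom_eq_two_mul_choose, show 2 * (m + 1) = (2 * m + 1) + 1 by ring,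
        Nat.choose_succ_succ, Nat.choose_symm_half]
      ring
    rw [h3] at h
    have h4 : (4 : ℕ) ^ (2 * m + 1) * 4 = 16 ^ (m + 1) := by
      rw [show (16 : ℕ) = 4 ^ 2 by norm_num, ← pow_mul, ← pow_succ]
      congr 1
    nlinarith

/-- `k`-step transition probabilities of simple random walk on `ℤ`. -/
noncomputable def q (k : ℕ) (j : ℤ) : ℝ≥0∞ := (cnt k j : ℝ≥0∞) * (2⁻¹) ^ k

lemma q_succ (k : ℕ) (j : ℤ) : q (k + 1) j = 2⁻¹ * (q k (j - 1) + q k (j + 1)) := by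
  unfold q
  simp only [cnt]
  push_cast
  ring

lemma q_mul_q_le (k : ℕ) (i j : ℤ) : q k i * q k j ≤ ((k + 1 : ℕ) : ℝ≥0∞)⁻¹ := by
  unfold q
  have h1 : cnt k i * cnt k j * (k + 1) ≤ 4 ^ k := by
    calc cnt k i * cnt k j * (k + 1) ≤ k.choose (k / 2) * k.choose (k / 2) * (k + 1) := by
          gcongr
          · exact cnt_le k i
          · exact cnt_le k j
      _ = (k + 1) * (k.choose (k / 2)) ^ 2 := by ring
      _ ≤ 4 ^ k := middle_upper k
  have h2 : (cnt k i : ℝ≥0∞) * (2⁻¹) ^ k * ((cnt k j : ℝ≥0∞) * (2⁻¹) ^ k) =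
      ((cnt k i * cnt k j : ℕ) : ℝ≥0∞) * (4⁻¹) ^ k := by
    have : (4⁻¹ : ℝ≥0∞) = 2⁻¹ * 2⁻¹ := by
      rw [← ENNReal.mul_inv (by simp) (by simp)]
      norm_num
    rw [this, mul_pow]
    push_cast
    ring
  rw [h2, ENNReal.le_inv_iff_mul_le, ← ENNReal.inv_pow, mul_right_comm]
  rw [← div_eq_mul_inv]
  apply ENNReal.div_le_of_le_mul
  rw [one_mul]
  exact_mod_cast h1

lemma le_q_mul_q_zero (m : ℕ) (hm : 0 < m) :
    ((4 * m : ℕ) : ℝ≥0∞)⁻¹ ≤ q (2 * m) 0 * q (2 * m) 0 := by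
  have e : cnt (2 * m) 0 = Nat.centralBinom m := by
    rw [(cnt_eq (2 * m) 0).1 m (by push_cast; ring), Nat.centralBinom_eq_two_mul_choose]
  unfold q
  rw [e]
  have h1 := central_lower m hm
  have h2 : (Nat.centralBinom m : ℝ≥0∞) * (2⁻¹) ^ (2 * m) *
      ((Nat.centralBinom m : ℝ≥0∞) * (2⁻¹) ^ (2 * m)) =
      ((Nat.centralBinom m ^ 2 : ℕ) : ℝ≥0∞) * ((16 ^ m : ℕ) : ℝ≥0∞)⁻¹ := by
    have : ((16 ^ m : ℕ) : ℝ≥0∞)⁻¹ = (2⁻¹) ^ (2 * m) * (2⁻¹) ^ (2 * m) := by
      push_cast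
      rw [← pow_add, show 2 * m + 2 * m = 4 * m by ring, ENNReal.inv_pow, pow_mul,
        ← ENNReal.inv_pow (a := 2) (n := 4)]
      norm_num
    rw [this]
    push_cast
    ring
  rw [h2, ← div_eq_mul_inv, ENNReal.le_div_iff_mul_le (Or.inl (by simp)) (Or.inl (by simp))]
  rw [mul_comm, ← div_eq_mul_inv]
  apply ENNReal.div_le_of_le_mul
  calc ((16 ^ m : ℕ) : ℝ≥0∞) ≤ ((4 * m * Nat.centralBinom m ^ 2 : ℕ) : ℝ≥0∞) := by
        exact_mod_cast h1
    _ = _ := by push_cast; ring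

/-- `k`-step transition probabilities of simple random walk on `ℤ²`. -/
noncomputable def b (k : ℕ) (h h' : ℤ × ℤ) : ℝ≥0∞ :=
  q k ((h'.1 - h.1) + (h'.2 - h.2)) * q k ((h'.1 - h.1) - (h'.2 - h.2))

lemma b_succ (k : ℕ) (h h' : ℤ × ℤ) : b (k + 1) h h' =
    2⁻¹ * 2⁻¹ * (b k (h.1 + 1, h.2) h' + b k (h.1 - 1, h.2) h' + b k (h.1, h.2 + 1) h' +
      b k (h.1, h.2 - 1) h') := by
  unfold b
  rw [q_succ, q_succ]
  have e1 : h'.1 - (h.1 + 1) + (h'.2 - h.2) = h'.1 - h.1 + (h'.2 - h.2) - 1 := by ring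
  have e2 : h'.1 - (h.1 + 1) - (h'.2 - h.2) = h'.1 - h.1 - (h'.2 - h.2) - 1 := by ring
  have e3 : h'.1 - (h.1 - 1) + (h'.2 - h.2) = h'.1 - h.1 + (h'.2 - h.2) + 1 := by ring
  have e4 : h'.1 - (h.1 - 1) - (h'.2 - h.2) = h'.1 - h.1 - (h'.2 - h.2) + 1 := by ring
  have e5 : h'.1 - h.1 + (h'.2 - (h.2 + 1)) = h'.1 - h.1 + (h'.2 - h.2) - 1 := by ring
  have e6 : h'.1 - h.1 - (h'.2 - (h.2 + 1)) = h'.1 - h.1 - (h'.2 - h.2) + 1 := by ring
  have e7 : h'.1 - h.1 + (h'.2 - (h.2 - 1)) = h'.1 - h.1 + (h'.2 - h.2) + 1 := by ring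
  have e8 : h'.1 - h.1 - (h'.2 - (h.2 - 1)) = h'.1 - h.1 - (h'.2 - h.2) - 1 := by ring
  simp only [e1, e2, e3, e4, e5, e6, e7, e8]
  ring

lemma b_le (k : ℕ) (h h' : ℤ × ℤ) : b k h h' ≤ ((k + 1 : ℕ) : ℝ≥0∞)⁻¹ := q_mul_q_le k _ _

lemma b_zero (h h' : ℤ × ℤ) : b 0 h h' = if h = h' then 1 else 0 := by
  unfold b q
  simp only [cnt, pow_zero, mul_one]
  by_cases e : h = h'
  · subst e; simp
  · rw [if_neg e]
    by_cases e1 : h'.1 - h.1 + (h'.2 - h.2) = 0
    · have e2 : ¬ (h'.1 - h.1 - (h'.2 - h.2) = 0) := by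
        intro e2
        apply e
        ext <;> omega
      simp [e2]
    · simp [e1]

lemma tsum_b_self (h : ℤ × ℤ) : ∑' k, b k h h = ∞ := by
  have h1 : ∀ m : ℕ, ((4 * (m + 1) : ℕ) : ℝ≥0∞)⁻¹ ≤ b (2 * (m + 1)) h h := by
    intro m
    unfold b
    simp only [sub_self, add_zero]
    exact le_q_mul_q_zero (m + 1) (Nat.succ_pos m)
  have h2 : ∑' m : ℕ, ((4 * (m + 1) : ℕ) : ℝ≥0∞)⁻¹ ≤ ∑' k, b k h h := by
    calc ∑' m : ℕ, ((4 * (m + 1) : ℕ) : ℝ≥0∞)⁻¹ ≤ ∑' m : ℕ, b (2 * (m + 1)) h h :=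
          ENNReal.tsum_le_tsum h1
      _ ≤ ∑' k, b k h h := by
          apply ENNReal.tsum_comp_le_tsum_of_injective (f := fun m : ℕ => 2 * (m + 1))
          intro i j hij
          simp only at hij
          omega
  apply top_le_iff.mp
  refine le_trans ?_ h2
  rw [top_le_iff]
  by_contra hne
  have h3 : Summable (fun m : ℕ => ((((4 * (m + 1) : ℕ) : ℝ≥0∞)⁻¹).toReal)) :=
    ENNReal.summable_toReal hne
  have h4 : Summable (fun m : ℕ => (4 : ℝ)⁻¹ * (1 / ((m : ℝ) + 1))) := by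
    refine h3.congr fun m => ?_
    rw [ENNReal.toReal_inv, ENNReal.toReal_natCast]
    push_cast
    rw [mul_inv, one_div]
  have h5 : Summable (fun m : ℕ => 1 / ((m : ℝ) + 1)) :=
    (summable_mul_left_iff (by norm_num)).mp h4
  have := (summable_nat_add_iff (f := fun j : ℕ => 1 / (j : ℝ)) 1).mp (by simpa using h5)
  exact Real.not_summable_one_div_natCast this

end Pool.Agent.X142.Walk1
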