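import Mathlib

/-!
Rényi entropies of the empirical measures of branching random walks: definitions and the
counterexample on free groups for `α < 1`.
-/

open MeasureTheory Filter Topology ProbabilityTheory
open scoped ENNReal

namespace Pool.Agent.X142.Renyi

section Defs

variable {G : Type} [Group G]

/-- Generation `n` of the Galton–Watson tree in which the vertex `v` has `N v` children
`0 :: v, …, (N v - 1) :: v`; the root is `[]`. -/
def gen (N : List ℕ → ℕ) : ℕ → Finset (List ℕ)
  | 0 => {[]}
  | n + 1 => (gen N n).biUnion fun v => (Finset.range (N v)).image fun i => i :: v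

/-- The position `X_v = ζ_{v_1} ⋯ ζ_{v_n}` of the vertex `v`. -/
def pos (ζ : List ℕ → G) : List ℕ → G
  | [] => 1
  | i :: v => pos ζ v * ζ (i :: v)

/-- The number of vertices of generation `n` at `x`. -/
noncomputable def count (N : List ℕ → ℕ) (ζ : List ℕ → G) (n : ℕ) (x : G) : ℕ := by
  classical
  exact ((gen N n).filter fun v => pos ζ v = x).card

/-- The empirical distribution of generation `n`. -/
noncomputable def emp (N : List ℕ → ℕ) (ζ : List ℕ → G) (n : ℕ) (x : G) : ℝ≥0∞ :=
  (count N ζ n x : ℝ≥0∞) / ((gen N n).card : ℝ≥0∞)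

/-- `∑_{g : ν g > 0} ν(g) ^ α`. -/
noncomputable def powSum (α : ℝ) (ν : G → ℝ≥0∞) : ℝ≥0∞ := by
  classical
  exact ∑' g, if ν g = 0 then 0 else (ν g) ^ α

/-- The Rényi entropy of order `α ≠ 1`. -/
noncomputable def renyi (α : ℝ) (ν : G → ℝ≥0∞) : EReal :=
  (((1 - α)⁻¹ : ℝ) : EReal) * ENNReal.log (powSum α ν)

/-- The convolution powers `μ^{*n}`. -/
noncomputable def convPow (μ : PMF G) : ℕ → PMF G
  | 0 => PMF.pure 1
  | n + 1 => (convPow μ n).bind fun x => μ.map fun y => x * y

/-- The law of the pair (offspring numbers of all vertices, group labels of all vertices): all of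
them are independent, with laws `π` and `μ`. -/
noncomputable def law [MeasurableSpace G] (π : PMF ℕ) (μ : PMF G) :
    Measure ((List ℕ → ℕ) × (List ℕ → G)) :=
  (Measure.infinitePi fun _ : List ℕ => π.toMeasure).prod
    (Measure.infinitePi fun _ : List ℕ => μ.toMeasure)

end Defs

section Free

variable {d : ℕ}

/-- The positive words as elements of the free group. -/
def emb (w : List (Fin d)) : FreeGroup (Fin d) := FreeGroup.mk (w.map fun i => (i, true))

lemma emb_injective : Function.Injective (emb (d := d)) := by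
  intro w w' h
  have h1 : ∀ w : List (Fin d), FreeGroup.toWord (emb w) = w.map fun i => (i, true) := by
    intro w
    unfold emb
    rw [FreeGroup.toWord_mk]
    have : FreeGroup.IsReduced (w.map fun i => (i, true)) := by
      unfold FreeGroup.IsReduced
      rw [List.isChain_map]
      induction w with
      | nil => exact List.IsChain.nil
      | cons a w ih =>
        cases w with
        | nil => exact List.IsChain.singleton _
        | cons b w => exact List.IsChain.cons_cons (fun _ => rfl) ih
    exact this.reduce_eq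
  have h2 := h1 w
  rw [h, h1 w'] at h2
  have hinj : Function.Injective (fun i : Fin d => (i, true)) := fun a b h => (Prod.mk.inj h).1
  exact (List.map_injective_iff.mpr hinj h2).symm

lemma emb_append (w : List (Fin d)) (i : Fin d) : emb (w ++ [i]) = emb w * FreeGroup.of i := by
  unfold emb
  rw [List.map_append, ← FreeGroup.mul_mk]
  rfl

lemma emb_nil : emb ([] : List (Fin d)) = 1 := rfl

/-- The step law on the free group. -/
noncomputable def mu (p : PMF (Fin d)) : PMF (FreeGroup (Fin d)) := p.map FreeGroup.of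

lemma convPow_succ_apply (p : PMF (Fin d)) (n : ℕ) (g : FreeGroup (Fin d)) :
    convPow (mu p) (n + 1) g = ∑ i, p i * convPow (mu p) n (g * (FreeGroup.of i)⁻¹) := by
  classical
  show ((convPow (mu p) n).bind fun x => (mu p).map fun y => x * y) g = _
  rw [PMF.bind_apply]
  have h1 : ∀ x : FreeGroup (Fin d), ((mu p).map fun y => x * y) g
      = ∑ i, if x = g * (FreeGroup.of i)⁻¹ then p i else 0 := by
    intro x
    unfold mu
    rw [PMF.map_comp, PMF.map_apply, tsum_fintype]
    apply Finset.sum_congr rfl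
    intro i _
    have : (g = ((fun y => x * y) ∘ FreeGroup.of) i) ↔ (x = g * (FreeGroup.of i)⁻¹) := by
      show g = x * FreeGroup.of i ↔ _
      rw [eq_mul_inv_iff_mul_eq]
      exact eq_comm
    simp only [this]
  simp only [h1, Finset.mul_sum]
  rw [Summable.tsum_finsetSum (fun _ _ => ENNReal.summable)]
  apply Finset.sum_congr rfl
  intro i _
  rw [tsum_eq_single (g * (FreeGroup.of i)⁻¹)]
  · rw [if_pos rfl, mul_comm]
  · intro x hx
    rw [if_neg hx, mul_zero]

lemma convPow_support (p : PMF (Fin d)) (n : ℕ) (g : FreeGroup (Fin d))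
    (hg : convPow (mu p) n g ≠ 0) : ∃ w : List (Fin d), emb w = g := by
  classical
  induction n generalizing g with
  | zero =>
    refine ⟨[], ?_⟩
    rw [emb_nil]
    by_contra h
    apply hg
    show (PMF.pure (1 : FreeGroup (Fin d))) g = 0
    rw [PMF.pure_apply, if_neg (Ne.symm h)]
  | succ n ih =>
    rw [convPow_succ_apply] at hg
    obtain ⟨i, _, hi⟩ := Finset.exists_ne_zero_of_sum_ne_zero hg
    obtain ⟨w, hw⟩ := ih _ (right_ne_zero_of_mul hi)
    refine ⟨w ++ [i], ?_⟩
    rw [emb_append, hw]
    simp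

lemma unique_letter (p : PMF (Fin d)) (n : ℕ) (g : FreeGroup (Fin d)) (i j : Fin d)
    (hi : convPow (mu p) n (g * (FreeGroup.of i)⁻¹) ≠ 0)
    (hj : convPow (mu p) n (g * (FreeGroup.of j)⁻¹) ≠ 0) : i = j := by
  obtain ⟨w, hw⟩ := convPow_support p n _ hi
  obtain ⟨w', hw'⟩ := convPow_support p n _ hj
  have h1 : emb (w ++ [i]) = emb (w' ++ [j]) := by
    rw [emb_append, emb_append, hw, hw']
    simp
  have h2 := emb_injective h1
  have h3 := congrArg List.getLast? h2
  simpa using h3

/-- the one-letter power sum -/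
noncomputable def S (p : PMF (Fin d)) (s : ℝ) : ℝ≥0∞ := ∑ i, if p i = 0 then 0 else (p i) ^ s

lemma powSum_convPow (p : PMF (Fin d)) (s : ℝ) (hs : 0 ≤ s) (n : ℕ) :
    powSum s (convPow (mu p) n) = (S p s) ^ n := by
  classical
  induction n with
  | zero =>
    rw [pow_zero]
    unfold powSum
    rw [tsum_eq_single (1 : FreeGroup (Fin d))]
    · have : convPow (mu p) 0 1 = 1 := by
        show (PMF.pure (1 : FreeGroup (Fin d))) 1 = 1
        rw [PMF.pure_apply, if_pos rfl]
      rw [this, if_neg one_ne_zero, ENNReal.one_rpow]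
    · intro g hg
      have : convPow (mu p) 0 g = 0 := by
        show (PMF.pure (1 : FreeGroup (Fin d))) g = 0
        rw [PMF.pure_apply, if_neg hg]
      rw [if_pos this]
  | succ n ih =>
    have h1 : ∀ g : FreeGroup (Fin d),
        (if convPow (mu p) (n + 1) g = 0 then 0 else (convPow (mu p) (n + 1) g) ^ s)
        = ∑ i, (if p i = 0 then 0 else (p i) ^ s) *
            (if convPow (mu p) n (g * (FreeGroup.of i)⁻¹) = 0 then 0
              else (convPow (mu p) n (g * (FreeGroup.of i)⁻¹)) ^ s) := by
      intro g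
      rw [convPow_succ_apply]
      by_cases hall : ∀ i, convPow (mu p) n (g * (FreeGroup.of i)⁻¹) = 0
      · simp [hall]
      · push Not at hall
        obtain ⟨i, hi⟩ := hall
        have hz : ∀ j, j ≠ i → convPow (mu p) n (g * (FreeGroup.of j)⁻¹) = 0 := by
          intro j hj
          by_contra h
          exact hj (unique_letter p n g j i h hi)
        rw [Finset.sum_eq_single i, Finset.sum_eq_single i]
        · rw [if_neg hi]
          by_cases hp : p i = 0
          · simp [hp]
          · rw [if_neg hp, if_neg (mul_ne_zero hp hi), ENNReal.mul_rpow_of_nonneg _ _ hs]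
        · intro j _ hj
          rw [if_pos (hz j hj), mul_zero]
        · intro h
          exact absurd (Finset.mem_univ i) h
        · intro j _ hj
          rw [hz j hj, mul_zero]
        · intro h
          exact absurd (Finset.mem_univ i) h
    unfold powSum
    simp only [h1]
    rw [Summable.tsum_finsetSum (fun _ _ => ENNReal.summable)]
    rw [pow_succ, mul_comm, ← ih, S, Finset.sum_mul]
    apply Finset.sum_congr rfl
    intro i _
    rw [ENNReal.tsum_mul_left]
    congr 1
    unfold powSum
    exact (Equiv.mulRight (FreeGroup.of i)⁻¹).tsum_eq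
      (fun g => if convPow (mu p) n g = 0 then 0 else (convPow (mu p) n g) ^ s)

end Free

section Prob

variable {G : Type} [Group G] [MeasurableSpace G] [DiscreteMeasurableSpace G] [Countable G]

/-- The law of the labels. -/
noncomputable abbrev lab (μ : PMF G) : Measure (List ℕ → G) :=
  Measure.infinitePi fun _ : List ℕ => μ.toMeasure

omit [MeasurableSpace G] [DiscreteMeasurableSpace G] [Countable G] in
lemma pos_congr (ζ ζ' : List ℕ → G) (v : List ℕ) (h : ∀ u ∈ v.tails, ζ u = ζ' u) :
    pos ζ v = pos ζ' v := by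
  induction v with
  | nil => rfl
  | cons i v ih =>
    show pos ζ v * ζ (i :: v) = pos ζ' v * ζ' (i :: v)
    rw [ih (fun u hu => h u (by rw [List.tails_cons]; exact List.mem_cons_of_mem _ hu)),
      h (i :: v) (by rw [List.tails_cons]; exact List.mem_cons_self)]

lemma measurable_pos (v : List ℕ) : Measurable (fun ζ : List ℕ → G => pos ζ v) := by
  induction v with
  | nil => exact measurable_const
  | cons i v ih =>
    have h1 : Measurable (fun p : G × G => p.1 * p.2) := Measurable.of_discrete
    exact h1.comp (ih.prodMk (measurable_pi_apply (i :: v)))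

lemma prob_label (μ : PMF G) (v : List ℕ) (y : G) : lab μ {ζ | ζ v = y} = μ y := by
  have h1 : (lab μ).map (fun ζ => ζ v) = μ.toMeasure := Measure.infinitePi_map_eval _ v
  have h2 : (lab μ).map (fun ζ => ζ v) {y} = lab μ {ζ | ζ v = y} := by
    rw [Measure.map_apply (measurable_pi_apply v) (MeasurableSet.singleton y)]
    rfl
  rw [← h2, h1, PMF.toMeasure_apply_singleton _ _ (MeasurableSet.singleton y)]

lemma prob_step (μ : PMF G) (i : ℕ) (v : List ℕ) (x y : G) :
    lab μ ({ζ | pos ζ v = x} ∩ {ζ | ζ (i :: v) = y}) = lab μ {ζ | pos ζ v = x} * μ y := by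
  classical
  have hI : iIndepFun (fun (u : List ℕ) (ζ : List ℕ → G) => ζ u) (lab μ) :=
    iIndepFun_infinitePi (X := fun _ x => x) (fun _ => measurable_id)
  have hdisj : Disjoint v.tails.toFinset ({i :: v} : Finset (List ℕ)) := by
    rw [Finset.disjoint_singleton_right, List.mem_toFinset, List.mem_tails]
    intro h
    have := h.length_le
    simp at this
  have h1 := hI.indepFun_finset v.tails.toFinset {i :: v} hdisj (fun u => measurable_pi_apply u)
  let φ : (v.tails.toFinset → G) → G := fun z =>
    pos (fun u => if h : u ∈ v.tails.toFinset then z ⟨u, h⟩ else 1) v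
  let ψ : (({i :: v} : Finset (List ℕ)) → G) → G := fun z => z ⟨i :: v, Finset.mem_singleton_self _⟩
  have h2 := h1.comp (φ := φ) (ψ := ψ) Measurable.of_discrete Measurable.of_discrete
  have h3 := h2.measure_inter_preimage_eq_mul {x} {y} (MeasurableSet.singleton x)
    (MeasurableSet.singleton y)
  have e1 : (φ ∘ fun (ζ : List ℕ → G) (u : v.tails.toFinset) => ζ u) ⁻¹' {x}
      = {ζ | pos ζ v = x} := by
    ext ζ
    simp only [Set.mem_preimage, Set.mem_singleton_iff, Set.mem_setOf_eq, Function.comp]
    have : φ (fun u : v.tails.toFinset => ζ u) = pos ζ v := by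
      apply pos_congr
      intro u hu
      show (if h : u ∈ v.tails.toFinset then ζ u else 1) = ζ u
      rw [dif_pos (List.mem_toFinset.mpr hu)]
    rw [this]
  have e2 : (ψ ∘ fun (ζ : List ℕ → G) (u : ({i :: v} : Finset (List ℕ))) => ζ u) ⁻¹' {y}
      = {ζ | ζ (i :: v) = y} := by
    ext ζ
    rfl
  rw [e1, e2, prob_label] at h3
  exact h3

lemma prob_pos (μ : PMF G) (v : List ℕ) (g : G) :
    lab μ {ζ | pos ζ v = g} = convPow μ v.length g := by
  classical
  induction v generalizing g with
  | nil =>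
    show lab μ {ζ | (1 : G) = g} = PMF.pure 1 g
    rw [PMF.pure_apply]
    by_cases h : g = 1
    · subst h
      simp
    · rw [if_neg h]
      have : {ζ : List ℕ → G | (1 : G) = g} = ∅ := by
        ext ζ
        simp [Ne.symm h]
      rw [this, measure_empty]
  | cons i v ih =>
    have h1 : {ζ : List ℕ → G | pos ζ (i :: v) = g}
        = ⋃ x : G, ({ζ | pos ζ v = x} ∩ {ζ | ζ (i :: v) = x⁻¹ * g}) := by
      ext ζ
      simp only [Set.mem_setOf_eq, Set.mem_iUnion, Set.mem_inter_iff]
      constructor
      · intro h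
        refine ⟨pos ζ v, rfl, ?_⟩
        rw [← h]
        show _ = _ * (pos ζ v * ζ (i :: v))
        group
      · rintro ⟨x, h1, h2⟩
        show pos ζ v * ζ (i :: v) = g
        rw [h1, h2]
        group
    rw [h1, measure_iUnion]
    · show _ = ((convPow μ v.length).bind fun x => μ.map fun y => x * y) g
      rw [PMF.bind_apply]
      congr 1
      ext x
      rw [prob_step, ih]
      congr 1
      rw [PMF.map_apply, tsum_eq_single (x⁻¹ * g)]
      · rw [if_pos (by group)]
      · intro y hy
        rw [if_neg]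
        intro h
        apply hy
        rw [h]
        group
    · intro x x' hx
      rw [Function.onFun, Set.disjoint_left]
      rintro ζ ⟨h2, _⟩ ⟨h3, _⟩
      exact hx (h2.symm.trans h3)
    · intro x
      exact ((measurable_pos v) (MeasurableSet.singleton x)).inter
        ((measurable_pi_apply (i :: v)) (MeasurableSet.singleton _))

/-- Number of distinct positions in generation `n`. -/
noncomputable def npos (N : List ℕ → ℕ) (ζ : List ℕ → G) (n : ℕ) : ℕ := by
  classical
  exact ((gen N n).image (pos ζ)).card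

lemma gen_length (N : List ℕ → ℕ) (n : ℕ) (v : List ℕ) (hv : v ∈ gen N n) : v.length = n := by
  induction n generalizing v with
  | zero =>
    have : v = [] := by simpa [gen] using hv
    rw [this]
    rfl
  | succ n ih =>
    simp only [gen, Finset.mem_biUnion, Finset.mem_image] at hv
    obtain ⟨u, hu, i, _, rfl⟩ := hv
    rw [List.length_cons, ih u hu]

lemma gen_two_card (n : ℕ) : (gen (fun _ => 2) n).card ≤ 2 ^ n := by
  induction n with
  | zero => simp [gen]
  | succ n ih =>
    have h1 : (gen (fun _ => 2) (n + 1)).card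
        ≤ ∑ v ∈ gen (fun _ => 2) n, ((Finset.range 2).image fun i => i :: v).card :=
      Finset.card_biUnion_le
    have h2 : ∀ v ∈ gen (fun _ => 2) n, ((Finset.range 2).image fun i => i :: v).card ≤ 2 := by
      intro v _
      exact Finset.card_image_le.trans (by simp)
    have h3 := Finset.sum_le_sum h2
    rw [Finset.sum_const, smul_eq_mul] at h3
    calc (gen (fun _ => 2) (n + 1)).card ≤ (gen (fun _ => 2) n).card * 2 := h1.trans h3
      _ ≤ 2 ^ n * 2 := Nat.mul_le_mul_right 2 ih
      _ = 2 ^ (n + 1) := (pow_succ 2 n).symm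

/-- The event that `g` is occupied in generation `n` (binary tree). -/
def occ (n : ℕ) (g : G) : Set (List ℕ → G) := {ζ | ∃ v ∈ gen (fun _ => 2) n, pos ζ v = g}

lemma measurableSet_occ (n : ℕ) (g : G) : MeasurableSet (occ n g) := by
  have : occ n g = ⋃ v ∈ gen (fun _ => 2) n, {ζ : List ℕ → G | pos ζ v = g} := by
    ext ζ
    simp [occ]
  rw [this]
  exact Finset.measurableSet_biUnion _ (fun v _ => measurable_pos v (MeasurableSet.singleton g))

lemma prob_occ_le (μ : PMF G) (n : ℕ) (g : G) : lab μ (occ n g) ≤ 2 ^ n * convPow μ n g := by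
  have h0 : occ n g = ⋃ v ∈ gen (fun _ => 2) n, {ζ : List ℕ → G | pos ζ v = g} := by
    ext ζ
    simp [occ]
  rw [h0]
  refine (measure_biUnion_finset_le _ _).trans ?_
  have h1 : ∀ v ∈ gen (fun _ => 2) n, lab μ {ζ : List ℕ → G | pos ζ v = g} = convPow μ n g := by
    intro v hv
    rw [prob_pos, gen_length _ _ _ hv]
  rw [Finset.sum_congr rfl h1, Finset.sum_const, nsmul_eq_mul]
  gcongr
  exact_mod_cast gen_two_card n

lemma npos_eq (ζ : List ℕ → G) (n : ℕ) :
    (npos (fun _ => 2) ζ n : ℝ≥0∞) = ∑' g : G, (occ n g).indicator 1 ζ := by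
  classical
  rw [tsum_eq_sum (s := (gen (fun _ => 2) n).image (pos ζ))]
  · rw [Finset.sum_congr rfl (g := fun _ => (1 : ℝ≥0∞))]
    · rw [Finset.sum_const, nsmul_eq_mul, mul_one]
      rfl
    · intro g hg
      rw [Set.indicator_of_mem]
      · rfl
      · simpa [occ] using hg
  · intro g hg
    rw [Set.indicator_of_notMem]
    simpa [occ] using hg

lemma measurable_npos (n : ℕ) :
    Measurable (fun ζ : List ℕ → G => (npos (fun _ => 2) ζ n : ℝ≥0∞)) := by
  simp only [npos_eq]
  exact Measurable.ennreal_tsum (fun g => measurable_one.indicator (measurableSet_occ n g))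

lemma lintegral_npos_le (μ : PMF G) (n : ℕ) (s : ℝ) (hs : 0 < s) (hs1 : s ≤ 1) :
    ∫⁻ ζ, (npos (fun _ => 2) ζ n : ℝ≥0∞) ∂(lab μ) ≤ ((2 : ℝ≥0∞) ^ n) ^ s * powSum s (convPow μ n) := by
  classical
  simp only [npos_eq]
  rw [lintegral_tsum (fun g => (measurable_one.indicator (measurableSet_occ n g)).aemeasurable)]
  unfold powSum
  rw [← ENNReal.tsum_mul_left]
  apply ENNReal.tsum_le_tsum
  intro g
  rw [lintegral_indicator_one (measurableSet_occ n g)]
  have h1 := prob_occ_le μ n g
  by_cases hz : convPow μ n g = 0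
  · rw [hz, mul_zero] at h1
    rw [if_pos hz, mul_zero]
    exact h1
  · rw [if_neg hz, ← ENNReal.mul_rpow_of_nonneg _ _ hs.le]
    by_cases hle : (2 : ℝ≥0∞) ^ n * convPow μ n g ≤ 1
    · refine h1.trans ?_
      calc (2 : ℝ≥0∞) ^ n * convPow μ n g = (2 ^ n * convPow μ n g) ^ (1 : ℝ) :=
            (ENNReal.rpow_one _).symm
        _ ≤ _ := ENNReal.rpow_le_rpow_of_exponent_ge hle hs1
    · push Not at hle
      calc lab μ (occ n g) ≤ 1 := prob_le_one
        _ ≤ _ := ENNReal.one_le_rpow hle.le hs

omit [MeasurableSpace G] [DiscreteMeasurableSpace G] [Countable G] in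
lemma powSum_emp_le (N : List ℕ → ℕ) (ζ : List ℕ → G) (n : ℕ) (α : ℝ) (h0 : 0 ≤ α) (h1 : α < 1) :
    powSum α (emp N ζ n) ≤ (npos N ζ n : ℝ≥0∞) ^ (1 - α) := by
  classical
  set I : Finset G := (gen N n).image (pos ζ) with hI
  set T : ℕ := (gen N n).card with hT
  have hcount : ∀ g, g ∉ I → emp N ζ n g = 0 := by
    intro g hg
    have : count N ζ n g = 0 := by
      unfold count
      rw [Finset.card_eq_zero, Finset.filter_eq_empty_iff]
      intro v hv h
      exact hg (Finset.mem_image.mpr ⟨v, hv, h⟩)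
    unfold emp
    rw [this]
    simp
  by_cases hTz : T = 0
  · have : powSum α (emp N ζ n) = 0 := by
      unfold powSum
      rw [ENNReal.tsum_eq_zero]
      intro g
      rw [if_pos]
      apply hcount
      rw [hI, Finset.card_eq_zero.mp hTz]
      simp
    rw [this]
    exact zero_le
  have hTpos : (0 : ℝ) < T := by exact_mod_cast Nat.pos_of_ne_zero hTz
  have hemp : ∀ g, emp N ζ n g = ENNReal.ofReal ((count N ζ n g : ℝ) / T) := by
    intro g
    unfold emp
    rw [ENNReal.ofReal_div_of_pos hTpos, ENNReal.ofReal_natCast, ENNReal.ofReal_natCast]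
  have hIpos : 0 < I.card := by
    rw [Finset.card_pos, hI]
    exact Finset.Nonempty.image (Finset.card_pos.mp (Nat.pos_of_ne_zero hTz)) _
  have hsum : ∑ g ∈ I, (count N ζ n g : ℝ) / T = 1 := by
    rw [← Finset.sum_div, div_eq_one_iff_eq hTpos.ne']
    have : T = ∑ g ∈ I, count N ζ n g := by
      rw [hT]
      exact Finset.card_eq_sum_card_fiberwise (fun v hv => Finset.mem_coe.mpr
        (Finset.mem_image_of_mem _ hv))
    rw [this]
    push_cast
    rfl
  have hK : (0 : ℝ) < I.card := by exact_mod_cast hIpos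
  have hAM : ∀ g ∈ I, ((count N ζ n g : ℝ) / T) ^ α * (1 / (I.card : ℝ)) ^ (1 - α)
      ≤ α * ((count N ζ n g : ℝ) / T) + (1 - α) * (1 / I.card) := by
    intro g _
    exact Real.geom_mean_le_arith_mean2_weighted h0 (by linarith) (by positivity) (by positivity)
      (by ring)
  have h2 := Finset.sum_le_sum hAM
  rw [← Finset.sum_mul, Finset.sum_add_distrib, ← Finset.mul_sum, hsum, Finset.sum_const,
    nsmul_eq_mul] at h2
  have h3 : α * 1 + (I.card : ℝ) * ((1 - α) * (1 / I.card)) = 1 := by
    field_simp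
    ring
  rw [h3, one_div, Real.inv_rpow hK.le, ← div_eq_mul_inv,
    div_le_iff₀ (Real.rpow_pos_of_pos hK _), one_mul] at h2
  unfold powSum
  rw [tsum_eq_sum (s := I)]
  · calc ∑ g ∈ I, (if emp N ζ n g = 0 then 0 else (emp N ζ n g) ^ α)
        ≤ ∑ g ∈ I, ENNReal.ofReal (((count N ζ n g : ℝ) / T) ^ α) := by
          apply Finset.sum_le_sum
          intro g _
          split_ifs
          · exact zero_le
          · rw [hemp, ENNReal.ofReal_rpow_of_nonneg (by positivity) h0]
      _ = ENNReal.ofReal (∑ g ∈ I, ((count N ζ n g : ℝ) / T) ^ α) := by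
          rw [ENNReal.ofReal_sum_of_nonneg]
          intro g _
          positivity
      _ ≤ ENNReal.ofReal ((I.card : ℝ) ^ (1 - α)) := ENNReal.ofReal_le_ofReal h2
      _ = (npos N ζ n : ℝ≥0∞) ^ (1 - α) := by
          rw [← ENNReal.ofReal_rpow_of_nonneg hK.le (by linarith), ENNReal.ofReal_natCast]
          rfl
  · intro g hg
    rw [if_pos (hcount g hg)]

omit [MeasurableSpace G] [DiscreteMeasurableSpace G] [Countable G] in
lemma renyi_emp_le (N : List ℕ → ℕ) (ζ : List ℕ → G) (n : ℕ) (α : ℝ) (h0 : 0 ≤ α) (h1 : α < 1) :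
    renyi α (emp N ζ n) ≤ ENNReal.log (npos N ζ n : ℝ≥0∞) := by
  have h2 := ENNReal.log_le_log (powSum_emp_le N ζ n α h0 h1)
  rw [ENNReal.log_rpow] at h2
  unfold renyi
  have hpos : (0 : ℝ) < 1 - α := by linarith
  calc (((1 - α)⁻¹ : ℝ) : EReal) * ENNReal.log (powSum α (emp N ζ n))
      ≤ (((1 - α)⁻¹ : ℝ) : EReal) * (((1 - α : ℝ) : EReal) * ENNReal.log (npos N ζ n : ℝ≥0∞)) := by
        apply mul_le_mul_of_nonneg_left h2
        exact_mod_cast (inv_pos.mpr hpos).le
    _ = ENNReal.log (npos N ζ n : ℝ≥0∞) := by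
        rw [← mul_assoc, ← EReal.coe_mul, inv_mul_cancel₀ hpos.ne', EReal.coe_one, one_mul]

/-- Borel–Cantelli: exponential bound on the number of occupied positions. -/
lemma ae_npos_lt (μ : PMF G) (s r c : ℝ) (hs : 0 < s) (hs1 : s ≤ 1) (hr : 0 ≤ r) (hrc : r < c)
    (hS : ∀ n, ((2 : ℝ≥0∞) ^ n) ^ s * powSum s (convPow μ n) ≤ ENNReal.ofReal r ^ n) :
    ∀ᵐ ζ ∂(lab μ), ∀ᶠ n in atTop, (npos (fun _ => 2) ζ n : ℝ≥0∞) < ENNReal.ofReal c ^ n := by
  have hc : 0 < c := lt_of_le_of_lt hr hrc
  have h1 : ∀ n, lab μ {ζ | ENNReal.ofReal c ^ n ≤ (npos (fun _ => 2) ζ n : ℝ≥0∞)}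
      ≤ ENNReal.ofReal ((r / c) ^ n) := by
    intro n
    have h2 := meas_ge_le_lintegral_div (μ := lab μ) (measurable_npos (G := G) n).aemeasurable
      (ε := ENNReal.ofReal c ^ n) (pow_ne_zero _ (by simpa using hc)) (by simp)
    refine h2.trans ?_
    rw [div_pow, ENNReal.ofReal_div_of_pos (pow_pos hc n), ENNReal.ofReal_pow hr,
      ENNReal.ofReal_pow hc.le]
    apply ENNReal.div_le_div_right
    exact (lintegral_npos_le μ n s hs hs1).trans (hS n)
  have h2 : (∑' n, lab μ {ζ | ENNReal.ofReal c ^ n ≤ (npos (fun _ => 2) ζ n : ℝ≥0∞)}) ≠ ∞ := by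
    apply ne_top_of_le_ne_top _ (ENNReal.tsum_le_tsum h1)
    rw [← ENNReal.ofReal_tsum_of_nonneg (fun n => by positivity)]
    · exact ENNReal.ofReal_ne_top
    · exact summable_geometric_of_lt_one (by positivity) ((div_lt_one hc).mpr hrc)
  filter_upwards [ae_eventually_notMem h2] with ζ hζ
  filter_upwards [hζ] with n hn
  exact not_le.mp hn

end Prob

end Pool.Agent.X142.Renyi
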