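import Mathlib
import Pool.Agent.X142.Renyi

/-!
The choice of the parameters in the counterexample on free groups.
-/

open MeasureTheory Filter Topology ProbabilityTheory
open scoped ENNReal

namespace Pool.Agent.X142.Renyi

lemma params (α : ℝ) (h0 : 0 ≤ α) (h1 : α < 1) :
    ∃ d : ℕ, ∃ ε : ℝ, 0 < ε ∧ ε < 1 ∧ 0 < d ∧
      (d : ℝ) * (ε / d) ^ ((1 + α) / 2) < 2 ^ ((1 - α) / 2) - 1 ∧
      2 ^ (1 - α) ≤ (d : ℝ) * (ε / d) ^ α := by
  set θ : ℝ := (1 - α) / (2 * α + 1) with hθ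
  have hθpos : 0 < θ := by
    apply div_pos <;> linarith
  have ha : 0 < (2 : ℝ) ^ ((1 - α) / 2) - 1 := by
    have := Real.one_lt_rpow (x := 2) (by norm_num) (z := (1 - α) / 2) (by linarith)
    linarith
  have t1 : Tendsto (fun d : ℕ => (d : ℝ) ^ (-(θ / 2))) atTop (𝓝 0) :=
    (tendsto_rpow_neg_atTop (by linarith)).comp tendsto_natCast_atTop_atTop
  have t2 : Tendsto (fun d : ℕ => (d : ℝ) ^ θ) atTop atTop :=
    (tendsto_rpow_atTop hθpos).comp tendsto_natCast_atTop_atTop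
  have e1 := t1.eventually_lt_const ha
  have e2 := t2.eventually_ge_atTop ((2 : ℝ) ^ (1 - α))
  have e3 := eventually_ge_atTop 2
  obtain ⟨d, hd1, hd2, hd3⟩ := (e1.and (e2.and e3)).exists
  have hd : (0 : ℝ) < d := by
    have : 0 < d := by omega
    exact_mod_cast this
  have hd1' : (1 : ℝ) < d := by
    have : 1 < d := by omega
    exact_mod_cast this
  have hquot : ∀ s : ℝ, (d : ℝ) * ((d : ℝ) ^ (-(2 * θ)) / d) ^ s = (d : ℝ) ^ (1 + (-(2 * θ) - 1) * s) := by
    intro s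
    have : (d : ℝ) ^ (-(2 * θ)) / d = (d : ℝ) ^ (-(2 * θ) - 1) := by
      rw [Real.rpow_sub hd, Real.rpow_one]
    rw [this, ← Real.rpow_mul hd.le, Real.rpow_add hd, Real.rpow_one]
  have hne : (2 * α + 1) ≠ 0 := by linarith
  refine ⟨d, (d : ℝ) ^ (-(2 * θ)), by positivity, ?_, by omega, ?_, ?_⟩
  · exact Real.rpow_lt_one_of_one_lt_of_neg hd1' (by linarith)
  · rw [hquot]
    have : 1 + (-(2 * θ) - 1) * ((1 + α) / 2) = -(θ / 2) := by
      rw [hθ]
      field_simp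
      ring
    rw [this]
    exact hd1
  · rw [hquot]
    have : 1 + (-(2 * θ) - 1) * α = θ := by
      rw [hθ]
      field_simp
      ring
    rw [this]
    exact hd2

/-- The letter weights. -/
noncomputable def wt (d : ℕ) (ε : ℝ) (i : Fin (d + 1)) : ℝ := if i = 0 then 1 - ε else ε / d

lemma sum_wt (d : ℕ) (ε : ℝ) (F : ℝ → ℝ) :
    ∑ i, F (wt d ε i) = F (1 - ε) + d * F (ε / d) := by
  rw [Fin.sum_univ_succ]
  have h1 : wt d ε 0 = 1 - ε := by simp [wt]
  have h2 : ∀ i : Fin d, wt d ε i.succ = ε / d := by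
    intro i
    simp [wt]
  rw [h1, Finset.sum_congr rfl (fun i _ => by rw [h2 i]), Finset.sum_const, Finset.card_univ,
    Fintype.card_fin, nsmul_eq_mul]

lemma wt_pos (d : ℕ) (ε : ℝ) (hε : 0 < ε) (hε1 : ε < 1) (hd : 0 < d) (i : Fin (d + 1)) :
    0 < wt d ε i := by
  unfold wt
  split_ifs
  · linarith
  · have : (0 : ℝ) < d := by exact_mod_cast hd
    positivity

/-- The letter law. -/
noncomputable def letter (d : ℕ) (ε : ℝ) (hε : 0 < ε) (hε1 : ε < 1) (hd : 0 < d) :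
    PMF (Fin (d + 1)) :=
  PMF.ofFintype (fun i => ENNReal.ofReal (wt d ε i)) (by
    rw [← ENNReal.ofReal_sum_of_nonneg (fun i _ => (wt_pos d ε hε hε1 hd i).le)]
    rw [sum_wt d ε (fun x => x)]
    have : (d : ℝ) ≠ 0 := by
      have : (0 : ℝ) < d := by exact_mod_cast hd
      exact this.ne'
    rw [mul_div_cancel₀ _ this]
    simp)

lemma S_letter (d : ℕ) (ε : ℝ) (hε : 0 < ε) (hε1 : ε < 1) (hd : 0 < d) (s : ℝ) (hs : 0 ≤ s) :
    S (letter d ε hε hε1 hd) s
      = ENNReal.ofReal ((1 - ε) ^ s + d * (ε / d) ^ s) := by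
  unfold S
  have h1 : ∀ i, (if letter d ε hε hε1 hd i = 0 then 0 else (letter d ε hε hε1 hd i) ^ s)
      = ENNReal.ofReal ((wt d ε i) ^ s) := by
    intro i
    have h2 : letter d ε hε hε1 hd i = ENNReal.ofReal (wt d ε i) := rfl
    have h3 := wt_pos d ε hε hε1 hd i
    rw [h2, if_neg (by simpa using h3), ENNReal.ofReal_rpow_of_nonneg h3.le hs]
  rw [Finset.sum_congr rfl (fun i _ => h1 i), ← ENNReal.ofReal_sum_of_nonneg]
  · rw [sum_wt d ε (fun x => x ^ s)]
  · intro i _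
    have := wt_pos d ε hε hε1 hd i
    positivity

end Pool.Agent.X142.Renyi
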